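import Mathlib
import Pool.Agent.TH881.Hol

/-! Robust Goldbach (deleting a proportion of the primes): definitions.

`Wp w` is the product of the primes `≤ w`, `pz w` the set of the primes `≤ w`. -/

set_option autoImplicit false

namespace Pool.Agent.TH881.RG

open Finset
open Pool.Agent.TH881
open Pool.Agent.H373R2.T7

instance instNeZeroWp (w : ℕ) : NeZero (Wp w) := ⟨(Wp_pos w).ne'⟩

/-- The twin prime constant. -/
noncomputable def C2 : ℝ := ⨅ z : ℕ, ∏ p ∈ (Icc 3 z).filter Nat.Prime, (1 - 1 / ((p : ℝ) - 1) ^ 2)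

open Classical in
/-- the number of units `a` modulo `W = Wp w` for which `t - a` is a unit, divided by `φ(W)` -/
noncomputable def wt (w : ℕ) (t : ZMod (Wp w)) : ℝ :=
  ((univ.filter (fun a : ZMod (Wp w) => IsUnit a ∧ IsUnit (t - a))).card : ℝ) / Nat.totient (Wp w)

open Classical in
/-- the sum of the weights `e t` over the `t` for which `t - a` is a unit -/
noncomputable def rr (w : ℕ) (e : ZMod (Wp w) → ℝ) (a : ZMod (Wp w)) : ℝ :=
  ∑ t : ZMod (Wp w), if IsUnit (t - a) then e t else 0

/-- moments of the local factors -/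
noncomputable def MM (K k w : ℕ) : ℝ :=
  ∏ p ∈ (pz w).filter (fun p => 2 < p),
    (1 + ((K : ℝ) / ((p : ℝ) - 1)) * ((((p : ℝ) - 1) / ((p : ℝ) - 2)) ^ k - 1))

end Pool.Agent.TH881.RG
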