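import Mathlib
import Pool.Agent.TH881.RG.Defs

/-! Statements delivered by other files, as propositions. -/

set_option autoImplicit false

namespace Pool.Agent.TH881.RG
open Finset
open Pool.Agent.TH881
open Pool.Agent.H373R2.T7

/-- moments of the local factors over the primes of a class -/
def StPM : Prop := ∀ J E : ℕ, ∃ w0 : ℕ, ∀ w : ℕ, w0 ≤ w → ∃ N0 : ℕ, ∀ N : ℕ, N0 ≤ N →
    ∀ z : ℕ, (z : ℝ) ≤ Real.log N ^ E → ∀ M : ℕ, M ≤ N → √(N : ℝ) ≤ M →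
    ∀ a b : ℕ, b ≤ M → b.Prime → z < b →
    ∑ b' ∈ (Icc 1 M).filter (fun b' => b'.Prime ∧ z < b' ∧ b' ≡ a [MOD Wp w] ∧ b' ≠ b),
      gw w z (Nat.dist b b') ^ J ≤ 100 * ((M : ℝ) / (Nat.totient (Wp w) * Real.log M))

open Classical in
/-- the moment inequality -/
def StMI : Prop := ∀ w K k : ℕ, 2 ≤ w → 1 ≤ K → 1 ≤ k → ∀ e : ZMod (Wp w) → ℝ,
    (∀ t, 0 ≤ e t) → (∀ t, e t ≤ 1) → ∀ S : ℝ, S = ∑ t, e t * wt w t → 0 < S →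
    (∑ a ∈ univ.filter (fun a : ZMod (Wp w) => IsUnit a), rr w e a ^ K) / Nat.totient (Wp w) ≤
      S ^ K * (((Nat.totient (Wp w) : ℝ) / S) ^ K * MM K k w ^ (K - 1)) ^ (1 / (k : ℝ))

/-- Mertens -/
def StMB : Prop := ∀ (K : ℕ) (δ : ℝ), 0 < δ → ∃ k0 : ℕ, ∀ k : ℕ, k0 ≤ k → ∀ w : ℕ,
    MM K k w ^ (1 / (k : ℝ)) ≤
      (1 + δ) * (Real.exp Real.eulerMascheroniConstant / (2 * C2)) * Real.log k

/-- lower bound for the weighted sum -/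
def StWL : Prop := ∃ c : ℝ, 0 < c ∧ ∀ w : ℕ, 2 ≤ w → ∀ e : ZMod (Wp w) → ℝ,
    (∀ t, 0 ≤ e t) → (∀ t, e t ≤ 1) → (∀ t, wt w t = 0 → e t = 0) →
    c * ((∑ t, e t) / Wp w) ^ 2 ≤ (∑ t, e t * wt w t) / Nat.totient (Wp w)

end Pool.Agent.TH881.RG
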