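import Mathlib
import Pool.Agent.TH881.RG.Stmts

/-! The local theorem. -/

set_option autoImplicit false

namespace Pool.Agent.TH881.RG
open Finset
open Pool.Agent.TH881
open Pool.Agent.H373R2.T7

/-- the units -/
noncomputable def UU (w : ℕ) : Finset (ZMod (Wp w)) := by
  classical
  exact univ.filter (fun a : ZMod (Wp w) => IsUnit a)

lemma mem_UU {w : ℕ} {a : ZMod (Wp w)} : a ∈ UU w ↔ IsUnit a := by
  classical
  unfold UU
  simp

lemma card_UU (w : ℕ) : ((UU w).card : ℝ) = Nat.totient (Wp w) := by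
  classical
  have h1 : (UU w).card = Nat.totient (Wp w) := by
    have h2 : UU w = univ.image (fun u : (ZMod (Wp w))ˣ => (u : ZMod (Wp w))) := by
      ext a
      rw [mem_UU, mem_image]
      constructor
      · rintro ⟨u, hu⟩
        exact ⟨u, mem_univ _, hu⟩
      · rintro ⟨u, _, hu⟩
        exact ⟨u, hu⟩
    rw [h2, card_image_of_injective _ Units.val_injective, ← ZMod.card_units_eq_totient]
    rfl
  rw [h1]

lemma rr_nonneg {w : ℕ} {e : ZMod (Wp w) → ℝ} (he : ∀ t, 0 ≤ e t) (a : ZMod (Wp w)) : 0 ≤ rr w e a := by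
  unfold rr
  apply sum_nonneg
  intro t _
  split_ifs
  · exact he t
  · exact le_rfl

lemma sum_rr (w : ℕ) (e : ZMod (Wp w) → ℝ) :
    ∑ a ∈ UU w, rr w e a = Nat.totient (Wp w) * ∑ t, e t * wt w t := by
  classical
  have hφ : (Nat.totient (Wp w) : ℝ) ≠ 0 := by
    have := Nat.totient_pos.2 (Wp_pos w)
    exact_mod_cast this.ne'
  unfold rr
  rw [sum_comm, mul_sum]
  apply sum_congr rfl
  intro t _
  rw [← sum_filter, sum_const, nsmul_eq_mul]
  unfold wt
  have h1 : (UU w).filter (fun a => IsUnit (t - a)) = univ.filter (fun a : ZMod (Wp w) => IsUnit a ∧ IsUnit (t - a)) := by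
    ext a
    simp [mem_UU]
  rw [h1]
  field_simp

lemma totient_Wp_pos (w : ℕ) : (0 : ℝ) < Nat.totient (Wp w) := by
  have := Nat.totient_pos.2 (Wp_pos w)
  exact_mod_cast this

/-- weighted power mean -/
lemma pow_mean {ι : Type*} (s : Finset ι) (β r : ι → ℝ) (hβ : ∀ i ∈ s, 0 ≤ β i) (hβ1 : ∀ i ∈ s, β i ≤ 1)
    (hr : ∀ i ∈ s, 0 ≤ r i) (K : ℕ) :
    (∑ i ∈ s, β i * r i) ^ (K + 1) ≤ (∑ i ∈ s, β i) ^ K * ∑ i ∈ s, r i ^ (K + 1) := by
  rcases eq_or_lt_of_le (sum_nonneg hβ) with h0 | h0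
  · have h1 : ∀ i ∈ s, β i = 0 := (sum_eq_zero_iff_of_nonneg hβ).1 h0.symm
    have h2 : ∑ i ∈ s, β i * r i = 0 := sum_eq_zero fun i hi => by rw [h1 i hi, zero_mul]
    rw [h2, zero_pow (by omega)]
    apply mul_nonneg (pow_nonneg h0.le _)
    exact sum_nonneg fun i hi => pow_nonneg (hr i hi) _
  · set T := ∑ i ∈ s, β i with hT
    have h1 := Real.pow_arith_mean_le_arith_mean_pow s (fun i => β i / T) r
      (fun i hi => div_nonneg (hβ i hi) h0.le) (by rw [← sum_div, ← hT, div_self h0.ne']) hr (K + 1)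
    have h2 : ∑ i ∈ s, β i / T * r i = (∑ i ∈ s, β i * r i) / T := by
      rw [sum_div]
      exact sum_congr rfl fun i _ => by ring
    have h3 : ∑ i ∈ s, β i / T * r i ^ (K + 1) = (∑ i ∈ s, β i * r i ^ (K + 1)) / T := by
      rw [sum_div]
      exact sum_congr rfl fun i _ => by ring
    rw [h2, h3, div_pow, div_le_div_iff₀ (by positivity) h0] at h1
    have h4 : (∑ i ∈ s, β i * r i) ^ (K + 1) * T ≤ (T ^ K * ∑ i ∈ s, β i * r i ^ (K + 1)) * T := by
      calc _ ≤ _ := h1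
        _ = _ := by ring
    have h5 := le_of_mul_le_mul_right h4 h0
    refine h5.trans ?_
    apply mul_le_mul_of_nonneg_left _ (by positivity)
    apply sum_le_sum
    intro i hi
    have := pow_nonneg (hr i hi) (K + 1)
    exact mul_le_of_le_one_left this (hβ1 i hi)

lemma loc_alg (G δ : ℝ) (hG : 0 ≤ G) (hδ : 0 < δ) : ∃ δ1 δ2 : ℝ, 0 < δ1 ∧ δ1 ≤ 1 ∧ 0 < δ2 ∧ δ2 < 1 ∧
    ∀ lam : ℝ, 0 ≤ lam → lam ≤ 1 → lam * G - δ ≤ (lam - δ2) * G / ((1 + δ1) * (1 + δ1)) := by
  refine ⟨min 1 (δ / (8 * (G + 1))), min (1 / 2) (δ / (8 * (G + 1))), by positivity, min_le_left _ _, by positivity,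
    lt_of_le_of_lt (min_le_left _ _) (by norm_num), ?_⟩
  intro lam h0 h1
  set d1 := min 1 (δ / (8 * (G + 1))) with hd1
  set d2 := min (1 / 2 : ℝ) (δ / (8 * (G + 1))) with hd2
  have a1 : 0 < d1 := by positivity
  have a2 : d1 ≤ 1 := min_le_left _ _
  have a3 : d1 ≤ δ / (8 * (G + 1)) := min_le_right _ _
  have b1 : 0 < d2 := by positivity
  have b3 : d2 ≤ δ / (8 * (G + 1)) := min_le_right _ _
  have hGd1 : G * d1 ≤ δ / 8 := by
    calc G * d1 ≤ (G + 1) * (δ / (8 * (G + 1))) := mul_le_mul (by linarith) a3 a1.le (by linarith)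
      _ = δ / 8 := by field_simp
  have hGd2 : G * d2 ≤ δ / 8 := by
    calc G * d2 ≤ (G + 1) * (δ / (8 * (G + 1))) := mul_le_mul (by linarith) b3 b1.le (by linarith)
      _ = δ / 8 := by field_simp
  rw [le_div_iff₀ (by positivity)]
  have e1 : (1 + d1) * (1 + d1) = 1 + (2 * d1 + d1 * d1) := by ring
  have e2 : d1 * d1 ≤ d1 := by nlinarith
  set q := 2 * d1 + d1 * d1 with hq
  have hq0 : 0 ≤ q := by positivity
  have hq1 : q ≤ 3 * d1 := by linarith
  have hlG : lam * G * q ≤ 3 * (δ / 8) := by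
    calc lam * G * q ≤ 1 * G * (3 * d1) := by
          apply mul_le_mul _ hq1 hq0 (by linarith)
          exact mul_le_mul_of_nonneg_right h1 hG
      _ = 3 * (G * d1) := by ring
      _ ≤ _ := by linarith
  rw [e1]
  have e3 : (lam * G - δ) * (1 + q) = lam * G + lam * G * q - δ - δ * q := by ring
  have e4 : (lam - d2) * G = lam * G - G * d2 := by ring
  have e5 : 0 ≤ δ * q := by positivity
  rw [e3, e4]
  linarith

/-- **Local theorem.** -/
theorem local_thm (hMI : StMI) (hMB : StMB) (hWL : StWL) (δ : ℝ) (hδ : 0 < δ) :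
    ∃ h0 : ℝ, 0 < h0 ∧ h0 < 1 / 16 ∧ ∀ h : ℝ, 0 < h → h ≤ h0 → ∀ w : ℕ, 2 ≤ w →
    ∀ e : ZMod (Wp w) → ℝ, (∀ t, 0 ≤ e t) → (∀ t, e t ≤ 1) → (∀ t, wt w t = 0 → e t = 0) →
    h * Wp w ≤ ∑ t, e t → ∀ β : ZMod (Wp w) → ℝ, (∀ a, 0 ≤ β a) → (∀ a, β a ≤ 1) →
    ∀ lam : ℝ, 0 ≤ lam → lam ≤ 1 → lam * ∑ a ∈ UU w, rr w e a ≤ ∑ a ∈ UU w, β a * rr w e a →
    (lam * (2 * C2 * Real.exp (-Real.eulerMascheroniConstant)) - δ) * Nat.totient (Wp w) ≤
      Real.log (Real.log (1 / h)) * ∑ a ∈ UU w, β a := by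
  classical
  have hC2 : 0 ≤ C2 := by
    unfold C2
    apply Real.iInf_nonneg
    intro z
    apply prod_nonneg
    intro p hp
    rw [mem_filter, mem_Icc] at hp
    have h3 : (3 : ℝ) ≤ p := by exact_mod_cast hp.1.1
    have h4 : 1 / ((p : ℝ) - 1) ^ 2 ≤ 1 := by
      rw [div_le_one (by nlinarith)]
      nlinarith
    linarith
  obtain ⟨c, hc, hc1⟩ := hWL
  set γ := Real.eulerMascheroniConstant with hγ
  set G := 2 * C2 * Real.exp (-γ) with hG
  have hG0 : 0 ≤ G := by positivity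
  obtain ⟨δ1, δ2, hδ1, hδ1', hδ2, hδ2', halg⟩ := loc_alg G δ hG0 hδ
  -- the exponent K
  obtain ⟨n, hn⟩ : ∃ n : ℕ, 2 * (1 - δ2) ^ n < δ2 := by
    obtain ⟨n, hn⟩ := exists_pow_lt_of_lt_one (show 0 < δ2 / 2 by positivity) (show 1 - δ2 < 1 by linarith)
    exact ⟨n, by linarith⟩
  obtain ⟨k0, hk0⟩ := hMB (n + 1) δ1 hδ1
  -- largeness of `T = log (1/h)`
  have hev : ∀ᶠ T : ℝ in Filter.atTop, 4 ≤ T ∧ (k0 : ℝ) ≤ T ∧ Real.log (1 / c) ≤ T ∧ 0 ≤ Real.log T ∧
      Real.log (5 * (n + 1) * (T + 1)) ≤ (1 + δ1) * Real.log T := by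
    have h1 : ∀ᶠ T : ℝ in Filter.atTop, Real.log (10 * (n + 1)) ≤ δ1 * Real.log T := by
      have := (Real.tendsto_log_atTop.const_mul_atTop hδ1).eventually_ge_atTop (Real.log (10 * (n + 1)))
      exact this
    filter_upwards [h1, Filter.eventually_ge_atTop 4, Filter.eventually_ge_atTop (k0 : ℝ),
      Filter.eventually_ge_atTop (Real.log (1 / c))] with T h1 h2 h3 h4
    refine ⟨h2, h3, h4, Real.log_nonneg (by linarith), ?_⟩
    have h5 : Real.log (5 * (n + 1) * (T + 1)) ≤ Real.log ((10 * (n + 1)) * T) := by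
      apply Real.log_le_log (by positivity)
      have : (0 : ℝ) ≤ n := Nat.cast_nonneg n
      nlinarith
    have h6 : Real.log ((10 * (n + 1)) * T) = Real.log (10 * (n + 1)) + Real.log T :=
      Real.log_mul (by positivity) (by linarith)
    linarith
  obtain ⟨T0, hT0⟩ := Filter.eventually_atTop.1 hev
  refine ⟨min (1 / 32) (Real.exp (-T0)), by positivity, lt_of_le_of_lt (min_le_left _ _) (by norm_num), ?_⟩
  intro h hh hh0 w hw e he0 he1 hew hsum β hβ0 hβ1 lam hl0 hl1 hlam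
  have hT1 : T0 ≤ Real.log (1 / h) := by
    have h1 : h ≤ Real.exp (-T0) := hh0.trans (min_le_right _ _)
    rw [one_div, Real.log_inv]
    have := Real.log_le_log hh h1
    rw [Real.log_exp] at this
    linarith
  obtain ⟨t1, t2, t3, t4, t5⟩ := hT0 _ hT1
  set T := Real.log (1 / h) with hT
  have hφ := totient_Wp_pos w
  set φ := (Nat.totient (Wp w) : ℝ) with hφd
  set S := ∑ t, e t * wt w t with hS
  have hWr : (0 : ℝ) < Wp w := by exact_mod_cast Wp_pos w
  have hSl : c * h ^ 2 ≤ S / φ := by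
    refine le_trans ?_ (hc1 w hw e he0 he1 hew)
    apply mul_le_mul_of_nonneg_left _ hc.le
    apply pow_le_pow_left₀ hh.le
    rw [le_div_iff₀ hWr]
    exact hsum
  have hS0 : 0 < S := by
    have : 0 < S / φ := lt_of_lt_of_le (by positivity) hSl
    rwa [lt_div_iff₀ hφ, zero_mul] at this
  -- the exponent k
  obtain ⟨k, hk⟩ : ∃ k : ℕ, k = 5 * (n + 1) * ⌈T⌉₊ := ⟨_, rfl⟩
  have hTc : T ≤ ⌈T⌉₊ := Nat.le_ceil T
  have hTc2 : (⌈T⌉₊ : ℝ) ≤ T + 1 := (Nat.ceil_lt_add_one (by linarith)).le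
  have hkr : (k : ℝ) = 5 * (n + 1) * ⌈T⌉₊ := by rw [hk]; push_cast; ring
  have hn0 : (0 : ℝ) ≤ n := Nat.cast_nonneg n
  have hkT : 5 * (n + 1) * T ≤ k := by
    rw [hkr]
    exact mul_le_mul_of_nonneg_left hTc (by positivity)
  have hkT2 : T ≤ k := by
    have : T ≤ 5 * (n + 1) * T := by nlinarith
    linarith
  have hkpos : (0 : ℝ) < k := by linarith
  have hk1 : 1 ≤ k := by
    have : 0 < k := by exact_mod_cast hkpos
    omega
  have hkk0 : k0 ≤ k := by
    have : (k0 : ℝ) ≤ k := by linarith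
    exact_mod_cast this
  have hlogk : Real.log k ≤ (1 + δ1) * Real.log T := by
    refine le_trans ?_ t5
    apply Real.log_le_log hkpos
    rw [hkr]
    exact mul_le_mul_of_nonneg_left hTc2 (by positivity)
  have hMI' := hMI w (n + 1) k hw (by omega) hk1 e he0 he1 S rfl hS0
  have hMB' := hk0 k hkk0 w
  have hfil : univ.filter (fun a : ZMod (Wp w) => IsUnit a) = UU w := by
    ext a
    simp [mem_UU]
  have hMI2 : (∑ a ∈ UU w, rr w e a ^ (n + 1)) / φ ≤
      S ^ (n + 1) * ((φ / S) ^ (n + 1) * MM (n + 1) k w ^ n) ^ (1 / (k : ℝ)) := by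
    rw [← hfil]
    exact hMI'
  -- bound of the second factor
  have hMM0 : 0 ≤ MM (n + 1) k w := by
    unfold MM
    apply prod_nonneg
    intro p hp
    rw [mem_filter] at hp
    have h3 : (3 : ℝ) ≤ p := by exact_mod_cast hp.2
    have h5 : 1 ≤ ((p : ℝ) - 1) / (p - 2) := by
      rw [le_div_iff₀ (by linarith)]
      linarith
    have h6 := one_le_pow₀ (n := k) h5
    have h7 : 0 ≤ (((n + 1 : ℕ) : ℝ) / ((p : ℝ) - 1)) * ((((p : ℝ) - 1) / ((p : ℝ) - 2)) ^ k - 1) := by
      apply mul_nonneg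
      · apply div_nonneg (Nat.cast_nonneg _)
        linarith
      · linarith
    linarith
  set Q := MM (n + 1) k w ^ (1 / (k : ℝ)) with hQ
  have hQ0 : 0 ≤ Q := Real.rpow_nonneg hMM0 _
  have hX : ((φ / S) ^ (n + 1) * MM (n + 1) k w ^ n) ^ (1 / (k : ℝ)) ≤ 2 * Q ^ n := by
    rw [Real.mul_rpow (by positivity) (by positivity)]
    apply mul_le_mul
    · -- the first factor
      have h1 : φ / S ≤ 1 / (c * h ^ 2) := by
        rw [div_le_div_iff₀ hS0 (by positivity)]
        rw [le_div_iff₀ hφ] at hSl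
        linarith
      have h2 : 0 < φ / S := by positivity
      have h3 : Real.log (φ / S) ≤ 3 * T := by
        have h4 := Real.log_le_log h2 h1
        have h5 : Real.log (1 / (c * h ^ 2)) = Real.log (1 / c) + 2 * T := by
          rw [hT, one_div, one_div, one_div, Real.log_inv, Real.log_inv, Real.log_inv,
            Real.log_mul hc.ne' (by positivity), Real.log_pow]
          push_cast
          ring
        linarith
      rw [← Real.rpow_natCast, ← Real.rpow_mul h2.le, Real.rpow_def_of_pos h2]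
      have h6 : Real.log (φ / S) * (((n + 1 : ℕ) : ℝ) * (1 / k)) ≤ 3 / 5 := by
        rw [mul_one_div, ← mul_div_assoc, div_le_iff₀ hkpos]
        push_cast
        calc Real.log (φ / S) * ((n : ℝ) + 1) ≤ (3 * T) * (n + 1) := mul_le_mul_of_nonneg_right h3 (by positivity)
          _ = 3 / 5 * (5 * (n + 1) * T) := by ring
          _ ≤ _ := by linarith
      calc Real.exp (Real.log (φ / S) * (((n + 1 : ℕ) : ℝ) * (1 / k))) ≤ Real.exp (3 / 5) := Real.exp_le_exp.2 h6
        _ ≤ 2 := by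
          have h7 : (3 / 5 : ℝ) ≤ Real.log 2 := by
            have := Real.log_two_gt_d9
            linarith
          calc Real.exp (3 / 5) ≤ Real.exp (Real.log 2) := Real.exp_le_exp.2 h7
            _ = 2 := Real.exp_log (by norm_num)
    · apply le_of_eq
      rw [hQ, ← Real.rpow_natCast, ← Real.rpow_natCast, ← Real.rpow_mul hMM0, ← Real.rpow_mul hMM0]
      congr 1
      ring
    · exact Real.rpow_nonneg (by positivity) _
    · norm_num
  -- power mean
  set b := (∑ a ∈ UU w, β a) / φ with hb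
  have hb0 : 0 ≤ b := div_nonneg (sum_nonneg fun a _ => hβ0 a) hφ.le
  have hpm := pow_mean (UU w) β (rr w e) (fun a _ => hβ0 a) (fun a _ => hβ1 a) (fun a _ => rr_nonneg he0 a) n
  have hkey : lam ^ (n + 1) ≤ 2 * (b * Q) ^ n := by
    have h1 : (lam * (φ * S)) ^ (n + 1) ≤ (∑ a ∈ UU w, β a) ^ n * ∑ a ∈ UU w, rr w e a ^ (n + 1) := by
      refine le_trans ?_ hpm
      apply pow_le_pow_left₀ (by positivity)
      rw [← sum_rr]
      exact hlam
    have h2 : ∑ a ∈ UU w, β a = φ * b := by rw [hb]; field_simp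
    have h3 : ∑ a ∈ UU w, rr w e a ^ (n + 1) ≤ φ * (S ^ (n + 1) * (2 * Q ^ n)) := by
      rw [div_le_iff₀ hφ] at hMI2
      calc _ ≤ _ := hMI2
        _ ≤ (S ^ (n + 1) * (2 * Q ^ n)) * φ := by
            apply mul_le_mul_of_nonneg_right _ hφ.le
            exact mul_le_mul_of_nonneg_left hX (by positivity)
        _ = _ := by ring
    rw [h2] at h1
    have h4 : (lam * (φ * S)) ^ (n + 1) ≤ (φ * b) ^ n * (φ * (S ^ (n + 1) * (2 * Q ^ n))) :=
      h1.trans (mul_le_mul_of_nonneg_left h3 (by positivity))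
    have h5 : (φ * b) ^ n * (φ * (S ^ (n + 1) * (2 * Q ^ n))) = (2 * (b * Q) ^ n) * (φ * S) ^ (n + 1) := by
      rw [mul_pow, mul_pow, mul_pow, pow_succ φ n]
      ring
    rw [h5, mul_pow] at h4
    exact le_of_mul_le_mul_right h4 (by positivity)
  have hbQ : lam - δ2 ≤ b * Q := by
    by_contra hcon
    push Not at hcon
    have h1 : 0 ≤ b * Q := by positivity
    have h2 : δ2 < lam := by linarith
    have h3 : lam - δ2 ≤ lam * (1 - δ2) := by nlinarith
    have h4 : (b * Q) ^ n ≤ (lam * (1 - δ2)) ^ n := pow_le_pow_left₀ h1 (by linarith) n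
    have h5 : lam ^ (n + 1) ≤ 2 * (lam * (1 - δ2)) ^ n := by linarith
    have hlp : 0 < lam := by linarith
    have h6 : lam ^ n * lam ≤ lam ^ n * (2 * (1 - δ2) ^ n) := by
      rw [pow_succ, mul_pow] at h5
      linarith
    have h7 := le_of_mul_le_mul_left h6 (by positivity)
    linarith
  -- conclusion
  have hQ2 : Q ≤ (1 + δ1) * (Real.exp γ / (2 * C2)) * ((1 + δ1) * Real.log T) := by
    refine hMB'.trans ?_
    apply mul_le_mul_of_nonneg_left hlogk
    positivity
  have hfin : lam * G - δ ≤ Real.log T * b := by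
    rcases eq_or_lt_of_le hC2 with hz | hz
    · have : G = 0 := by rw [hG, ← hz]; ring
      rw [this]
      have : 0 ≤ Real.log T * b := by positivity
      linarith
    · refine (halg lam hl0 hl1).trans ?_
      rw [div_le_iff₀ (by positivity)]
      have h1 : (lam - δ2) * G ≤ (b * Q) * G := mul_le_mul_of_nonneg_right hbQ hG0
      have h2 : (b * Q) * G ≤ (b * ((1 + δ1) * (Real.exp γ / (2 * C2)) * ((1 + δ1) * Real.log T))) * G := by
        apply mul_le_mul_of_nonneg_right _ hG0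
        exact mul_le_mul_of_nonneg_left hQ2 hb0
      have h3 : (b * ((1 + δ1) * (Real.exp γ / (2 * C2)) * ((1 + δ1) * Real.log T))) * G =
          Real.log T * b * ((1 + δ1) * (1 + δ1)) := by
        rw [hG, Real.exp_neg]
        have := (Real.exp_pos γ).ne'
        field_simp
      linarith
  have h9 : ∑ a ∈ UU w, β a = φ * b := by rw [hb]; field_simp
  rw [h9]
  calc (lam * G - δ) * φ ≤ (Real.log T * b) * φ := mul_le_mul_of_nonneg_right hfin hφ.le
    _ = _ := by ring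

end Pool.Agent.TH881.RG
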