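import Mathlib
import Pool.Agent.TH881.Loc
import Pool.Agent.TH881.RG.Defs

/-! Second moment of the convolution of a set with the sieve model, general form. -/

set_option autoImplicit false

namespace Pool.Agent.TH881.RG
open Finset
open Pool.Agent.TH881
open Pool.Agent.H373R2.T7

/-- second moment -/
lemma second_momentG (E V : ℕ) : ∃ N0 : ℕ, ∀ N : ℕ, N0 ≤ N → ∀ z : ℕ, 1 ≤ z → (z : ℝ) ≤ Real.log N ^ E →
    ∀ w : ℕ, w ≤ z → ∀ M H t : ℕ, M < t → t ≤ M + Wp w →
    ∀ B : Finset ℕ, (∀ b ∈ B, b ≤ M) →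
    ∀ Γ' : ℝ, 0 ≤ Γ' → (∀ b ∈ B, ∑ b' ∈ B.erase b, gw w z (Nat.dist b b') ≤ B.card * Γ') →
    ∑ n ∈ It w M H t, cv (lamz z) B n ^ 2 ≤
      ((H : ℝ) / Wp w + 1) * ((Vz w)⁻¹ * B.card) ^ 2 * Γ' +
      (B.card : ℝ) ^ 2 * (((H : ℝ) / Wp w + 1) / Real.log N ^ V + √(N : ℝ)) +
      (B.card : ℝ) * (((H : ℝ) / Wp w + 1) * (z : ℝ) ^ 2) := by
  obtain ⟨N0, h0⟩ := corr E V
  refine ⟨N0, fun N hN z hz hzE w hwz M H t hMt htM B hB Γ' hΓ0 hΓ => ?_⟩
  have hcorr := h0 N hN z hz hzE w hwz
  have hW := Wp_pos w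
  set W := Wp w with hWd
  have hWr : (0 : ℝ) < W := by exact_mod_cast hW
  set X := H / W + 1 with hX
  have hXr : (X : ℝ) ≤ (H : ℝ) / W + 1 := by
    rw [hX]
    push_cast
    have : ((H / W : ℕ) : ℝ) ≤ (H : ℝ) / W := Nat.cast_div_le
    linarith
  have hcvt : ∀ m : ℕ, cv (lamz z) B (t + W * m) = ∑ b ∈ B, lamz z (t + W * m - b) := by
    intro m
    unfold cv
    apply sum_congr _ (fun _ _ => rfl)
    apply filter_true_of_mem
    intro b hb
    have := hB b hb
    have : 0 ≤ W * m := Nat.zero_le _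
    omega
  -- to the progression
  have h1 : ∑ n ∈ It w M H t, cv (lamz z) B n ^ 2 ≤ ∑ m ∈ range X, cv (lamz z) B (t + W * m) ^ 2 := by
    have hinj : Set.InjOn (fun m => t + W * m) ((range X : Finset ℕ) : Set ℕ) := by
      intro a _ b _ hab
      simp only at hab
      have : W * a = W * b := by omega
      exact Nat.eq_of_mul_eq_mul_left hW this
    rw [← sum_image (f := fun n => cv (lamz z) B n ^ 2) hinj]
    apply sum_le_sum_of_subset_of_nonneg
    · intro n hn
      unfold It at hn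
      rw [mem_filter, mem_Ioc] at hn
      obtain ⟨⟨h1, h2⟩, h3⟩ := hn
      have h4 : t ≤ n := by
        by_contra hcon
        have h5 : n < t := by omega
        have h6 := (Nat.modEq_iff_dvd' h5.le).1 h3
        have := Nat.le_of_dvd (by omega) h6
        omega
      have h5 := (Nat.modEq_iff_dvd' h4).1 h3.symm
      obtain ⟨m, hm⟩ := h5
      rw [← hWd] at hm
      rw [mem_image]
      refine ⟨m, ?_, by omega⟩
      rw [mem_range, hX]
      have h6 : W * m ≤ H := by omega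
      have h7 : m ≤ H / W := (Nat.le_div_iff_mul_le hW).2 (by rw [mul_comm]; exact h6)
      omega
    · intro n _ _
      positivity
  refine h1.trans ?_
  -- expand
  have h2 : ∑ m ∈ range X, cv (lamz z) B (t + W * m) ^ 2 =
      ∑ b ∈ B, (∑ m ∈ range X, lamz z (t + W * m - b) * lamz z (t + W * m - b) +
        ∑ b' ∈ B.erase b, ∑ m ∈ range X, lamz z (t + W * m - b) * lamz z (t + W * m - b')) := by
    have h3 : ∀ m ∈ range X, cv (lamz z) B (t + W * m) ^ 2 =
        ∑ b ∈ B, ∑ b' ∈ B, lamz z (t + W * m - b) * lamz z (t + W * m - b') := by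
      intro m _
      rw [hcvt m, sq, sum_mul_sum]
    rw [sum_congr rfl h3, sum_comm]
    apply sum_congr rfl
    intro b hb
    rw [sum_comm, ← add_sum_erase B _ hb]
  rw [h2]
  have hz0 : (0 : ℝ) ≤ z := Nat.cast_nonneg z
  have hdiag : ∀ b ∈ B, ∑ m ∈ range X, lamz z (t + W * m - b) * lamz z (t + W * m - b) ≤ X * (z : ℝ) ^ 2 := by
    intro b _
    calc ∑ m ∈ range X, lamz z (t + W * m - b) * lamz z (t + W * m - b) ≤ ∑ m ∈ range X, (z : ℝ) * z := by
          apply sum_le_sum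
          intro m _
          exact mul_le_mul (lamz_le z hz _) (lamz_le z hz _) (lamz_nonneg z _) hz0
      _ = _ := by rw [sum_const, card_range, nsmul_eq_mul]; ring
  have hoff : ∀ b ∈ B, ∀ b' ∈ B.erase b, ∑ m ∈ range X, lamz z (t + W * m - b) * lamz z (t + W * m - b') ≤
      X * ((Vz w)⁻¹ ^ 2 * gw w z (Nat.dist b b')) + X / Real.log N ^ V + √(N : ℝ) := by
    intro b hb b' hb'
    rw [mem_erase] at hb'
    have hbM := hB b hb
    have hbM' := hB b' hb'.2
    rcases lt_or_gt_of_ne hb'.1 with h | h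
    · have h3 := hcorr X (t - b) (b - b')
      have e1 : Nat.dist b b' = b - b' := by simp only [Nat.dist]; omega
      rw [e1]
      refine le_trans (le_of_eq ?_) h3
      apply sum_congr rfl
      intro m _
      congr 2
      · omega
      · omega
    · have h3 := hcorr X (t - b') (b' - b)
      have e1 : Nat.dist b b' = b' - b := by simp only [Nat.dist]; omega
      rw [e1]
      refine le_trans (le_of_eq ?_) h3
      apply sum_congr rfl
      intro m _
      rw [mul_comm]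
      congr 2
      · omega
      · omega
  have hV0 : 0 < (Vz w)⁻¹ := inv_pos.2 (Vz_pos w)
  have hX0 : (0 : ℝ) ≤ X := Nat.cast_nonneg X
  by_cases hL : 0 ≤ Real.log N ^ V
  swap
  · exfalso
    apply hL
    apply pow_nonneg
    exact Real.log_natCast_nonneg N
  have hb_total : ∀ b ∈ B, (∑ m ∈ range X, lamz z (t + W * m - b) * lamz z (t + W * m - b) +
        ∑ b' ∈ B.erase b, ∑ m ∈ range X, lamz z (t + W * m - b) * lamz z (t + W * m - b')) ≤
      X * (z : ℝ) ^ 2 + (X * ((Vz w)⁻¹ ^ 2 * (B.card * Γ')) + B.card * (X / Real.log N ^ V + √(N : ℝ))) := by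
    intro b hb
    apply add_le_add (hdiag b hb)
    refine (sum_le_sum (hoff b hb)).trans ?_
    have h3 : ∑ b' ∈ B.erase b, (X * ((Vz w)⁻¹ ^ 2 * gw w z (Nat.dist b b')) + X / Real.log N ^ V + √(N : ℝ)) =
        X * ((Vz w)⁻¹ ^ 2 * ∑ b' ∈ B.erase b, gw w z (Nat.dist b b')) +
          (B.erase b).card * (X / Real.log N ^ V + √(N : ℝ)) := by
      rw [sum_add_distrib, sum_add_distrib, ← mul_sum, ← mul_sum, sum_const, sum_const, nsmul_eq_mul,
        nsmul_eq_mul]
      ring
    rw [h3]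
    have h4 := hΓ b hb
    have h5 : ((B.erase b).card : ℝ) ≤ B.card := by exact_mod_cast card_le_card (erase_subset b B)
    apply add_le_add
    · apply mul_le_mul_of_nonneg_left _ hX0
      exact mul_le_mul_of_nonneg_left h4 (by positivity)
    · apply mul_le_mul_of_nonneg_right h5
      positivity
  refine (sum_le_sum hb_total).trans ?_
  rw [sum_const, nsmul_eq_mul]
  have e : (B.card : ℝ) * (X * (z : ℝ) ^ 2 + (X * ((Vz w)⁻¹ ^ 2 * (B.card * Γ')) + B.card * (X / Real.log N ^ V + √(N : ℝ)))) =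
      X * ((Vz w)⁻¹ * B.card) ^ 2 * Γ' + (B.card : ℝ) ^ 2 * (X / Real.log N ^ V + √(N : ℝ)) + B.card * (X * (z : ℝ) ^ 2) := by
    ring
  rw [e]
  gcongr


end Pool.Agent.TH881.RG
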