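import Mathlib
import Pool.Agent.TH881.RG.Mom
import Pool.Agent.TH881.RG.Stmts

/-! Average of the local factors over a subset of the primes in a class. -/

set_option autoImplicit false

namespace Pool.Agent.TH881.RG
open Finset
open Pool.Agent.TH881
open Pool.Agent.H373R2.T7

lemma avg_prime (hPM : StPM) (J E : ℕ) (hJ : 1 ≤ J) : ∃ w0 : ℕ, ∀ w : ℕ, w0 ≤ w → ∃ N0 : ℕ, ∀ N : ℕ, N0 ≤ N →
    ∀ z : ℕ, (z : ℝ) ≤ Real.log N ^ E → ∀ M : ℕ, M ≤ N → √(N : ℝ) ≤ M →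
    ∀ B : Finset ℕ, (∀ b ∈ B, b ≤ M) → (∀ b ∈ B, b.Prime) → (∀ b ∈ B, z < b) →
    (∀ b ∈ B, ∀ b' ∈ B, b ≡ b' [MOD Wp w]) →
    ∀ κ : ℝ, 0 < κ → κ * ((M : ℝ) / (Nat.totient (Wp w) * Real.log M)) ≤ B.card →
    ∀ b ∈ B, ∑ b' ∈ B.erase b, gw w z (Nat.dist b b') ≤ B.card * (100 / κ) ^ (1 / (J : ℝ)) := by
  obtain ⟨w0, h0⟩ := hPM J E
  refine ⟨w0, fun w hw => ?_⟩
  obtain ⟨N0, h1⟩ := h0 w hw
  refine ⟨N0, fun N hN z hz M hM hM2 B hB hBp hBz hc κ hκ hcard b hb => ?_⟩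
  have h2 := h1 N hN z hz M hM hM2 b b (hB b hb) (hBp b hb) (hBz b hb)
  have hBc : 0 < B.card := card_pos.2 ⟨b, hb⟩
  have hBr : (0 : ℝ) < B.card := by exact_mod_cast hBc
  have h3 : ∑ b' ∈ B.erase b, gw w z (Nat.dist b b') ^ J ≤ 100 * ((M : ℝ) / (Nat.totient (Wp w) * Real.log M)) := by
    refine le_trans ?_ h2
    apply sum_le_sum_of_subset_of_nonneg
    · intro x hx
      rw [mem_erase] at hx
      rw [mem_filter, mem_Icc]
      exact ⟨⟨(hBp x hx.2).pos, hB x hx.2⟩, hBp x hx.2, hBz x hx.2, hc x hx.2 b hb, hx.1⟩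
    · intro x _ _
      exact pow_nonneg (zero_le_one.trans (one_le_gw w z _)) J
  obtain ⟨n, rfl⟩ : ∃ n, J = n + 1 := ⟨J - 1, by omega⟩
  have h4 := pow_sum_div_card_le_sum_pow (s := B.erase b) (f := fun b' => gw w z (Nat.dist b b'))
    (fun b' _ => zero_le_one.trans (one_le_gw _ _ _)) n
  set Sg := ∑ b' ∈ B.erase b, gw w z (Nat.dist b b') with hSg
  have hSg0 : 0 ≤ Sg := sum_nonneg fun b' _ => zero_le_one.trans (one_le_gw _ _ _)
  have h6 : 100 * ((M : ℝ) / (Nat.totient (Wp w) * Real.log M)) ≤ B.card * (100 / κ) := by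
    calc 100 * ((M : ℝ) / (Nat.totient (Wp w) * Real.log M)) = (κ * ((M : ℝ) / (Nat.totient (Wp w) * Real.log M))) * (100 / κ) := by
          field_simp
      _ ≤ _ := mul_le_mul_of_nonneg_right hcard (by positivity)
  have h5 : Sg ^ (n + 1) ≤ (B.card : ℝ) ^ (n + 1) * (100 / κ) := by
    rcases Nat.eq_zero_or_pos (B.erase b).card with h0 | h0
    · have : B.erase b = ∅ := card_eq_zero.1 h0
      rw [hSg, this, sum_empty, zero_pow (by omega)]
      positivity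
    · have h0r : (0 : ℝ) < (B.erase b).card := by exact_mod_cast h0
      rw [div_le_iff₀ (by positivity)] at h4
      have h7 : ((B.erase b).card : ℝ) ≤ B.card := by exact_mod_cast card_le_card (erase_subset b B)
      have h8 : ((B.erase b).card : ℝ) ^ n ≤ (B.card : ℝ) ^ n := pow_le_pow_left₀ h0r.le h7 n
      calc Sg ^ (n + 1) ≤ _ := h4
        _ ≤ (B.card * (100 / κ)) * (B.card : ℝ) ^ n := by
            apply mul_le_mul (h3.trans h6) h8 (by positivity) (by positivity)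
        _ = _ := by ring
  have hpos : 0 < 100 / κ := by positivity
  have h9 : (B.card * (100 / κ) ^ (1 / ((n + 1 : ℕ) : ℝ))) ^ (n + 1) = (B.card : ℝ) ^ (n + 1) * (100 / κ) := by
    rw [mul_pow]
    congr 1
    rw [← Real.rpow_natCast, ← Real.rpow_mul hpos.le, one_div, inv_mul_cancel₀ (by positivity), Real.rpow_one]
  rw [← h9] at h5
  exact le_of_pow_le_pow_left₀ (by omega) (by positivity) h5

end Pool.Agent.TH881.RG
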