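import Mathlib
import Pool.Agent.TH881.RG.Mix
import Pool.Agent.TH881.RG.LT
import Pool.Agent.TH370.J1234
import Pool.Agent.TH370.J1233
import Pool.Agent.TH703.J1232
import Pool.Agent.TH159.J1235

/-! The inputs. -/

set_option autoImplicit false

namespace Pool.Agent.TH881.RG
open Finset
open Pool.Agent.TH881
open Pool.Agent.H373R2.T7

theorem stPM : StPM := fun J E => Pool.Agent.TH159.J1235.prime_moment J E

theorem stMI : StMI := fun w K k hw hK hk e h0 h1 S hS hS0 =>
  Pool.Agent.TH703.RG.moment_ineq w K k hw hK hk e h0 h1 S hS hS0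

theorem stMB : StMB := fun K δ hδ => Pool.Agent.TH370.J1233.MM_bound K δ hδ

theorem stWL : StWL := Pool.Agent.TH370.J1234.wt_lower

end Pool.Agent.TH881.RG
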