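import Mathlib
import Pool.Agent.TH881.Dens
import Pool.Agent.TH881.RG.In

/-! Densities, class functions and representation counts. -/

set_option autoImplicit false

namespace Pool.Agent.TH881.RG
open Finset Filter Topology
open Pool.Agent.TH881
open Pool.Agent.H373R2.T7

/-- relative lower density of `A` in the primes -/
noncomputable def relLower (A : Set ℕ) : ℝ :=
  liminf (fun n : ℕ => (cnt {p | p.Prime ∧ p ∈ A} n : ℝ) / (cnt {p | p.Prime} n : ℝ)) atTop

/-- upper density -/
noncomputable def upperDensity (A : Set ℕ) : ℝ := limsup (fun n : ℕ => (cnt A n : ℝ) / n) atTop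

open Classical in
/-- the number of ordered representations of `n` as a sum of two primes of `A` -/
noncomputable def rep (A : Set ℕ) (n : ℕ) : ℕ :=
  ((antidiagonal n).filter (fun q : ℕ × ℕ => (q.1.Prime ∧ q.1 ∈ A) ∧ (q.2.Prime ∧ q.2 ∈ A))).card

open Classical in
/-- the elements of `E` in the class `t` modulo `Wp w` -/
noncomputable def cls (w : ℕ) (E : Finset ℕ) (t : ZMod (Wp w)) : Finset ℕ :=
  E.filter (fun n => (n : ZMod (Wp w)) = t)

/-- the density of `E` (in a window of length `H`) in the class `t` -/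
noncomputable def eef (w H : ℕ) (E : Finset ℕ) (t : ZMod (Wp w)) : ℝ :=
  ((cls w E t).card : ℝ) / ((H : ℝ) / Wp w + 1)

/-- the expected number of primes up to `M` in a class -/
noncomputable def pp (w M : ℕ) : ℝ := (M : ℝ) / (Nat.totient (Wp w) * Real.log M)

/-- the relative density of `B` in the primes of the class `a` -/
noncomputable def bbf (w M : ℕ) (B : Finset ℕ) (a : ZMod (Wp w)) : ℝ := ((cls w B a).card : ℝ) / pp w M

/-- the main term for one pair of classes -/
noncomputable def YY (w M H : ℕ) : ℝ := (Vz w)⁻¹ * ((H : ℝ) / Wp w) * pp w M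

/-- prime number theorem in the classes modulo `Wp w` -/
def StPC : Prop := ∀ (w : ℕ) (ε ρ : ℝ), 0 < ε → 0 < ρ → ∃ N0 : ℕ, ∀ N : ℕ, N0 ≤ N →
    ∀ M : ℕ, M ≤ N → ρ * N ≤ M → ∀ a : ZMod (Wp w), IsUnit a →
    |bbf w M ((Icc 1 M).filter (fun p : ℕ => p.Prime ∧ √(N : ℝ) < p)) a - 1| ≤ ε

end Pool.Agent.TH881.RG
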