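import Mathlib
import Pool.Agent.TH881.RG.Den

/-! Finite inequalities for representation counts. -/

set_option autoImplicit false

namespace Pool.Agent.TH881.RG
open Finset Filter Topology
open Pool.Agent.TH881
open Pool.Agent.H373R2.T7

open Classical in
/-- the representations counted by `rep` -/
noncomputable def repS (A : Set ℕ) (n : ℕ) : Finset (ℕ × ℕ) :=
  (antidiagonal n).filter (fun q : ℕ × ℕ => (q.1.Prime ∧ q.1 ∈ A) ∧ (q.2.Prime ∧ q.2 ∈ A))

lemma rep_eq (A : Set ℕ) (n : ℕ) : rep A n = (repS A n).card := rfl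

lemma mem_repS {A : Set ℕ} {n : ℕ} {q : ℕ × ℕ} :
    q ∈ repS A n ↔ q.1 + q.2 = n ∧ (q.1.Prime ∧ q.1 ∈ A) ∧ (q.2.Prime ∧ q.2 ∈ A) := by
  classical
  unfold repS
  rw [mem_filter, HasAntidiagonal.mem_antidiagonal]

open Classical in
/-- the representations whose first prime is missing in `A` -/
noncomputable def badS (A : Set ℕ) (n : ℕ) : Finset (ℕ × ℕ) :=
  (antidiagonal n).filter (fun q : ℕ × ℕ => q.1.Prime ∧ q.1 ∉ A ∧ q.2.Prime)

lemma mem_badS {A : Set ℕ} {n : ℕ} {q : ℕ × ℕ} :
    q ∈ badS A n ↔ q.1 + q.2 = n ∧ q.1.Prime ∧ q.1 ∉ A ∧ q.2.Prime := by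
  classical
  unfold badS
  rw [mem_filter, HasAntidiagonal.mem_antidiagonal]

/-- the number of representations whose first prime is missing in `A` -/
noncomputable def bad (A : Set ℕ) (n : ℕ) : ℕ := (badS A n).card

lemma rep_diff (A : Set ℕ) (n : ℕ) : (rep Set.univ n : ℝ) - rep A n ≤ 2 * bad A n := by
  classical
  have h1 : repS Set.univ n ⊆ repS A n ∪ (badS A n ∪ (badS A n).image Prod.swap) := by
    intro q hq
    rw [mem_repS] at hq
    obtain ⟨h0, ⟨h1, _⟩, h2, _⟩ := hq
    rw [mem_union, mem_union, mem_repS, mem_badS, mem_image]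
    by_cases ha : q.1 ∈ A
    · by_cases hb : q.2 ∈ A
      · exact Or.inl ⟨h0, ⟨h1, ha⟩, h2, hb⟩
      · right; right
        refine ⟨q.swap, ?_, Prod.swap_swap q⟩
        rw [mem_badS]
        exact ⟨by simp only [Prod.fst_swap, Prod.snd_swap]; omega, h2, hb, h1⟩
    · right; left
      exact ⟨h0, h1, ha, h2⟩
  have h2 := card_le_card h1
  have h3 := h2.trans ((card_union_le _ _).trans (Nat.add_le_add_left (card_union_le _ _) _))
  have h4 : ((badS A n).image Prod.swap).card ≤ (badS A n).card := card_image_le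
  have h5 : rep Set.univ n ≤ rep A n + (bad A n + bad A n) := by
    rw [rep_eq, rep_eq]
    unfold bad
    omega
  have h6 : (rep Set.univ n : ℝ) ≤ rep A n + (bad A n + bad A n) := by exact_mod_cast h5
  linarith

/-- the primes in `(√N, M]` -/
noncomputable def PN (N M : ℕ) : Finset ℕ := (Icc 1 M).filter (fun p : ℕ => p.Prime ∧ √(N : ℝ) < p)

open Classical in
/-- the primes in `(√N, M]` outside `A` -/
noncomputable def BN (A : Set ℕ) (N M : ℕ) : Finset ℕ := (PN N M).filter (fun p => p ∉ A)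

lemma mem_PN {N M p : ℕ} : p ∈ PN N M ↔ p ≤ M ∧ p.Prime ∧ √(N : ℝ) < p := by
  unfold PN
  rw [mem_filter, mem_Icc]
  constructor
  · rintro ⟨⟨_, h1⟩, h2, h3⟩
    exact ⟨h1, h2, h3⟩
  · rintro ⟨h1, h2, h3⟩
    exact ⟨⟨h2.pos, h1⟩, h2, h3⟩

lemma mem_BN {A : Set ℕ} {N M p : ℕ} : p ∈ BN A N M ↔ p ∈ PN N M ∧ p ∉ A := by
  classical
  unfold BN
  rw [mem_filter]

/-- split of `cv` by a predicate -/
lemma cv_split (f : ℕ → ℝ) (B : Finset ℕ) (n : ℕ) (q : ℕ → Prop) [DecidablePred q] :
    cv f B n = cv f (B.filter q) n + cv f (B.filter (fun b => ¬ q b)) n := by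
  unfold cv
  rw [← sum_filter_add_sum_filter_not (B.filter (· < n)) q, filter_filter, filter_filter, filter_filter, filter_filter]
  congr 1
  · apply sum_congr _ fun _ _ => rfl
    ext b
    rw [mem_filter, mem_filter]
    tauto
  · apply sum_congr _ fun _ _ => rfl
    ext b
    rw [mem_filter, mem_filter]
    tauto

open Classical in
lemma rep_ge (N M n : ℕ) (hN : 1 ≤ N) (hn : n ≤ N) :
    cv (fun k => ArithmeticFunction.vonMangoldt k) (PN N M) n ≤
      Real.log N * rep Set.univ n + 2 * √(N : ℝ) * Real.log N := by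
  rw [cv_split _ _ _ (fun b => (n - b).Prime)]
  apply add_le_add
  · have h1 : ∀ b ∈ ((PN N M).filter (fun b => (n - b).Prime)).filter (· < n),
        (fun k => ArithmeticFunction.vonMangoldt k) (n - b) ≤ Real.log N := by
      intro b hb
      rw [mem_filter, mem_filter] at hb
      simp only
      rw [ArithmeticFunction.vonMangoldt_apply_prime hb.1.2]
      apply Real.log_le_log
      · exact_mod_cast hb.1.2.pos
      · have : n - b ≤ N := by omega
        exact_mod_cast this
    unfold cv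
    refine (sum_le_sum h1).trans ?_
    rw [sum_const, nsmul_eq_mul, mul_comm]
    apply mul_le_mul_of_nonneg_left _ (Real.log_natCast_nonneg N)
    have h2 : (((PN N M).filter (fun b => (n - b).Prime)).filter (· < n)).card ≤ rep Set.univ n := by
      rw [rep_eq]
      apply card_le_card_of_injOn (fun b => (b, n - b))
      · intro b hb
        rw [mem_coe, mem_filter, mem_filter, mem_PN] at hb
        rw [mem_coe, mem_repS]
        refine ⟨by simp only; omega, ⟨hb.1.1.2.1, trivial⟩, hb.1.2, trivial⟩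
      · intro b _ b' _ hbb
        simp only [Prod.mk.injEq] at hbb
        exact hbb.1
    exact_mod_cast h2
  · apply cv_not_hit _ N n hN hn
    rintro ⟨b, hb, p, hp, hbp⟩
    rw [mem_filter] at hb
    apply hb.2
    have : n - b = p := by omega
    rw [this]
    exact hp

/-- primes above `M` with prime difference -/
def TT (M n : ℕ) : ℕ := ((Ioc M n).filter (fun p => p.Prime ∧ (n - p).Prime)).card

open Classical in
lemma bad_le (A : Set ℕ) (N M n : ℕ) (s : ℝ) (hs0 : 0 < s) (hs1 : s < 1) (hN : 1 ≤ N) (hM : M < n) :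
    (1 - s) * Real.log N * bad A n ≤ cv (fun k => ArithmeticFunction.vonMangoldt k) (BN A N M) n +
      Real.log N * (√(N : ℝ) + (N : ℝ) ^ (1 - s) + TT M n) := by
  have hNr : (1 : ℝ) ≤ N := by exact_mod_cast hN
  have hL : 0 ≤ Real.log N := Real.log_nonneg hNr
  set G := (BN A N M).filter (fun b => (n - b).Prime ∧ (N : ℝ) ^ (1 - s) < ((n - b : ℕ) : ℝ)) with hG
  -- counting
  have h1 : (bad A n : ℝ) ≤ G.card + (√(N : ℝ) + (N : ℝ) ^ (1 - s) + TT M n) := by
    have h2 : (badS A n).image Prod.fst ⊆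
        G ∪ (Icc 1 ⌊√(N : ℝ)⌋₊ ∪ ((Icc 1 ⌊(N : ℝ) ^ (1 - s)⌋₊).image (fun q => n - q) ∪
          (Ioc M n).filter (fun p => p.Prime ∧ (n - p).Prime))) := by
      intro p hp
      rw [mem_image] at hp
      obtain ⟨q, hq, rfl⟩ := hp
      rw [mem_badS] at hq
      obtain ⟨h0, h1, h2, h3⟩ := hq
      have hq2 : n - q.1 = q.2 := by omega
      have hq2' : n - q.2 = q.1 := by omega
      rw [mem_union, mem_union, mem_union]
      by_cases c1 : (q.1 : ℝ) ≤ √(N : ℝ)
      · right; left
        rw [mem_Icc]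
        exact ⟨h1.pos, Nat.le_floor c1⟩
      · by_cases c2 : q.1 ≤ M
        · by_cases c3 : ((q.2 : ℕ) : ℝ) ≤ (N : ℝ) ^ (1 - s)
          · right; right; left
            rw [mem_image]
            refine ⟨q.2, ?_, hq2'⟩
            rw [mem_Icc]
            exact ⟨h3.pos, Nat.le_floor c3⟩
          · left
            rw [hG, mem_filter, mem_BN, mem_PN, hq2]
            push Not at c1 c3
            exact ⟨⟨⟨c2, h1, c1⟩, h2⟩, h3, c3⟩
        · right; right; right
          rw [mem_filter, mem_Ioc, hq2]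
          refine ⟨⟨by omega, ?_⟩, h1, h3⟩
          omega
    have h3 : bad A n = ((badS A n).image Prod.fst).card := by
      unfold bad
      rw [card_image_of_injOn]
      intro q hq q' hq' hqq
      rw [mem_coe, mem_badS] at hq hq'
      have e1 : q.1 = q'.1 := hqq
      have e2 : q.2 = q'.2 := by omega
      exact Prod.ext e1 e2
    have h4 := card_le_card h2
    rw [← h3] at h4
    have h5 := h4.trans ((card_union_le _ _).trans (Nat.add_le_add_left ((card_union_le _ _).trans
      (Nat.add_le_add_left (card_union_le _ _) _)) _))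
    have h6 : (Icc 1 ⌊√(N : ℝ)⌋₊).card = ⌊√(N : ℝ)⌋₊ := by simp
    have h7 : ((Icc 1 ⌊(N : ℝ) ^ (1 - s)⌋₊).image (fun q => n - q)).card ≤ ⌊(N : ℝ) ^ (1 - s)⌋₊ := by
      refine card_image_le.trans ?_
      simp
    have h8 : bad A n ≤ G.card + (⌊√(N : ℝ)⌋₊ + (⌊(N : ℝ) ^ (1 - s)⌋₊ + TT M n)) := by
      unfold TT
      omega
    have h9 : (bad A n : ℝ) ≤ G.card + (⌊√(N : ℝ)⌋₊ + (⌊(N : ℝ) ^ (1 - s)⌋₊ + TT M n)) := by exact_mod_cast h8
    have h10 : (⌊√(N : ℝ)⌋₊ : ℝ) ≤ √(N : ℝ) := Nat.floor_le (Real.sqrt_nonneg _)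
    have h11 : (⌊(N : ℝ) ^ (1 - s)⌋₊ : ℝ) ≤ (N : ℝ) ^ (1 - s) := Nat.floor_le (Real.rpow_nonneg (by linarith) _)
    linarith
  -- the weight
  have h2 : (1 - s) * Real.log N * G.card ≤ cv (fun k => ArithmeticFunction.vonMangoldt k) (BN A N M) n := by
    unfold cv
    have h3 : (1 - s) * Real.log N * G.card = ∑ b ∈ G, (1 - s) * Real.log N := by
      rw [sum_const, nsmul_eq_mul]
      ring
    rw [h3]
    have h4 : ∀ b ∈ G, (1 - s) * Real.log N ≤ (fun k => ArithmeticFunction.vonMangoldt k) (n - b) := by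
      intro b hb
      rw [hG, mem_filter] at hb
      simp only
      rw [ArithmeticFunction.vonMangoldt_apply_prime hb.2.1]
      have h5 := Real.log_le_log (Real.rpow_pos_of_pos (by linarith) _) hb.2.2.le
      rwa [Real.log_rpow (by linarith)] at h5
    refine (sum_le_sum h4).trans ?_
    apply sum_le_sum_of_subset_of_nonneg
    · intro b hb
      rw [hG, mem_filter, mem_BN, mem_PN] at hb
      rw [mem_filter, mem_BN, mem_PN]
      exact ⟨hb.1, by omega⟩
    · intro _ _ _
      exact ArithmeticFunction.vonMangoldt_nonneg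
  have hX0 : 0 ≤ √(N : ℝ) + (N : ℝ) ^ (1 - s) + TT M n := by positivity
  calc (1 - s) * Real.log N * bad A n ≤ (1 - s) * Real.log N * (G.card + (√(N : ℝ) + (N : ℝ) ^ (1 - s) + TT M n)) :=
        mul_le_mul_of_nonneg_left h1 (mul_nonneg (by linarith) hL)
    _ = (1 - s) * Real.log N * G.card + (1 - s) * (Real.log N * (√(N : ℝ) + (N : ℝ) ^ (1 - s) + TT M n)) := by ring
    _ ≤ _ := by
        apply add_le_add h2
        exact mul_le_of_le_one_left (mul_nonneg hL hX0) (by linarith)

lemma sum_TT (M H : ℕ) : ∑ n ∈ Ioc M (M + H), TT M n ≤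
    ((Ioc M (M + H)).filter Nat.Prime).card * ((Icc 1 H).filter Nat.Prime).card := by
  classical
  have h1 : ∀ n ∈ Ioc M (M + H), TT M n ≤
      ∑ p ∈ (Ioc M (M + H)).filter Nat.Prime, if (n - p).Prime ∧ p ≤ n then 1 else 0 := by
    intro n hn
    rw [mem_Ioc] at hn
    rw [← card_filter]
    unfold TT
    apply card_le_card
    intro p hp
    rw [mem_filter, mem_Ioc] at hp
    rw [mem_filter, mem_filter, mem_Ioc]
    exact ⟨⟨⟨hp.1.1, by omega⟩, hp.2.1⟩, hp.2.2, hp.1.2⟩
  refine (sum_le_sum h1).trans ?_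
  rw [sum_comm, ← smul_eq_mul, ← sum_const]
  apply sum_le_sum
  intro p hp
  rw [mem_filter, mem_Ioc] at hp
  rw [← card_filter]
  apply card_le_card_of_injOn (fun n => n - p)
  · intro n hn
    rw [mem_coe, mem_filter, mem_Ioc] at hn
    rw [mem_coe, mem_filter, mem_Icc]
    have e1 : n - p ≤ H := by omega
    exact ⟨⟨hn.2.1.pos, e1⟩, hn.2.1⟩
  · intro n hn n' hn' hnn
    rw [mem_coe, mem_filter, mem_Ioc] at hn hn'
    have e1 : n - p = n' - p := hnn
    have e2 := hn.2.2
    have e3 := hn'.2.2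
    omega

end Pool.Agent.TH881.RG
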