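import Mathlib
import Pool.Agent.TH881.RG.Fi

/-! Even numbers are sums of two units. -/

set_option autoImplicit false

namespace Pool.Agent.TH881.RG
open Finset Filter Topology
open Pool.Agent.TH881
open Pool.Agent.H373R2.T7

lemma exists_pair (s : Finset ℕ) (hs : ∀ p ∈ s, p.Prime) (n : ℕ) (hn : Even n) :
    ∃ a : ℕ, ∀ p ∈ s, ¬ p ∣ a ∧ ¬ ((p : ℤ) ∣ (n : ℤ) - a) := by
  classical
  induction s using Finset.induction_on with
  | empty => exact ⟨0, fun p hp => absurd hp (notMem_empty p)⟩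
  | insert p s hps ih =>
    obtain ⟨a, ha⟩ := ih (fun q hq => hs q (mem_insert_of_mem hq))
    have hp := hs p (mem_insert_self p s)
    have hco : Nat.Coprime (∏ q ∈ s, q) p := by
      apply Nat.Coprime.prod_left
      intro q hq
      exact (Nat.coprime_primes (hs q (mem_insert_of_mem hq)) hp).2 (fun h => hps (h ▸ hq))
    obtain ⟨r, hr1, hr2⟩ : ∃ r : ℕ, ¬ p ∣ r ∧ ¬ ((p : ℤ) ∣ (n : ℤ) - r) := by
      rcases hp.eq_two_or_odd' with h2 | h2
      · refine ⟨1, ?_, ?_⟩
        · rw [h2]; norm_num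
        · rw [h2]
          obtain ⟨k, hk⟩ := hn
          push_cast
          omega
      · have h3 : 3 ≤ p := by
          have := hp.two_le
          obtain ⟨k, hk⟩ := h2
          omega
        by_cases h1 : (p : ℤ) ∣ (n : ℤ) - 1
        · refine ⟨2, ?_, ?_⟩
          · intro h
            have := Nat.le_of_dvd (by norm_num) h
            omega
          · intro h
            have h4 := dvd_sub h1 h
            push_cast at h4
            have h5 : (n : ℤ) - 1 - (n - 2) = 1 := by ring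
            rw [h5] at h4
            have h6 := Int.le_of_dvd one_pos h4
            omega
        · refine ⟨1, ?_, ?_⟩
          · intro h
            have := Nat.le_of_dvd (by norm_num) h
            omega
          · exact_mod_cast h1
    obtain ⟨k, hk1, hk2⟩ := Nat.chineseRemainder hco a r
    refine ⟨k, ?_⟩
    have key : ∀ q b : ℕ, k ≡ b [MOD q] → ¬ q ∣ b → ¬ ((q : ℤ) ∣ (n : ℤ) - b) →
        ¬ q ∣ k ∧ ¬ ((q : ℤ) ∣ (n : ℤ) - k) := by
      intro q b hkb h1 h2
      refine ⟨fun h => h1 ((hkb.dvd_iff dvd_rfl).1 h), fun h => h2 ?_⟩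
      have h3 : (q : ℤ) ∣ (b : ℤ) - k := (Nat.modEq_iff_dvd.1 hkb)
      have h4 := dvd_sub h h3
      have h5 : (n : ℤ) - k - (b - k) = n - b := by ring
      rwa [h5] at h4
    intro q hq
    rcases mem_insert.1 hq with h | h
    · rw [h]
      exact key p r hk2 hr1 hr2
    · exact key q a (hk1.of_dvd (dvd_prod_of_mem _ h)) (ha q h).1 (ha q h).2

/-- an even residue class is a sum of two units -/
lemma even_units (w n : ℕ) (hn : Even n) : ∃ a : ZMod (Wp w), IsUnit a ∧ IsUnit ((n : ZMod (Wp w)) - a) := by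
  obtain ⟨a, ha⟩ := exists_pair (Wp w).primeFactors (fun p hp => Nat.prime_of_mem_primeFactors hp) n hn
  have hW := Wp_pos w
  refine ⟨(a : ZMod (Wp w)), ?_, ?_⟩
  · rw [ZMod.isUnit_iff_coprime]
    apply Nat.coprime_of_dvd
    intro p hp hpa hpW
    exact (ha p (Nat.mem_primeFactors.2 ⟨hp, hpW, hW.ne'⟩)).1 hpa
  · have h1 : a ≤ n + Wp w * a := by nlinarith
    have h2 : ((n : ZMod (Wp w)) - a) = ((n + Wp w * a - a : ℕ) : ZMod (Wp w)) := by
      rw [Nat.cast_sub h1]
      push_cast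
      rw [ZMod.natCast_self]
      ring
    rw [h2, ZMod.isUnit_iff_coprime]
    apply Nat.coprime_of_dvd
    intro p hp hpa hpW
    apply (ha p (Nat.mem_primeFactors.2 ⟨hp, hpW, hW.ne'⟩)).2
    have h3 : (p : ℤ) ∣ ((n + Wp w * a - a : ℕ) : ℤ) := by exact_mod_cast hpa
    rw [Nat.cast_sub h1] at h3
    push_cast at h3
    have h4 : (p : ℤ) ∣ (Wp w : ℤ) := by exact_mod_cast hpW
    have h5 := dvd_sub h3 (dvd_mul_of_dvd_left h4 (a : ℤ))
    have h6 : (n : ℤ) + Wp w * a - a - Wp w * a = n - a := by ring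
    rwa [h6] at h5

lemma wt_ne_zero (w n : ℕ) (hn : Even n) : wt w (n : ZMod (Wp w)) ≠ 0 := by
  classical
  obtain ⟨a, h1, h2⟩ := even_units w n hn
  unfold wt
  have h3 : (0 : ℝ) < Nat.totient (Wp w) := by exact_mod_cast Nat.totient_pos.2 (Wp_pos w)
  have h4 : 0 < (univ.filter (fun a : ZMod (Wp w) => IsUnit a ∧ IsUnit ((n : ZMod (Wp w)) - a))).card := by
    apply card_pos.2
    exact ⟨a, by rw [mem_filter]; exact ⟨mem_univ _, h1, h2⟩⟩
  have h5 : (0 : ℝ) < (univ.filter (fun a : ZMod (Wp w) => IsUnit a ∧ IsUnit ((n : ZMod (Wp w)) - a))).card := by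
    exact_mod_cast h4
  apply ne_of_gt
  convert div_pos h5 h3

end Pool.Agent.TH881.RG
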