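import Mathlib
import Pool.Agent.TH881.RG.Un

/-! Class functions. -/

set_option autoImplicit false

namespace Pool.Agent.TH881.RG
open Finset Filter Topology
open Pool.Agent.TH881
open Pool.Agent.H373R2.T7

lemma mem_cls {w : ℕ} {E : Finset ℕ} {t : ZMod (Wp w)} {n : ℕ} :
    n ∈ cls w E t ↔ n ∈ E ∧ (n : ZMod (Wp w)) = t := by
  classical
  unfold cls
  rw [mem_filter]

lemma cls_mono {w : ℕ} {E F : Finset ℕ} (h : E ⊆ F) (t : ZMod (Wp w)) : cls w E t ⊆ cls w F t := by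
  intro n hn
  rw [mem_cls] at hn ⊢
  exact ⟨h hn.1, hn.2⟩

lemma sum_cls (w : ℕ) (E : Finset ℕ) : ∑ t : ZMod (Wp w), ((cls w E t).card : ℝ) = E.card := by
  classical
  have h1 : E.card = ∑ t : ZMod (Wp w), (cls w E t).card := by
    rw [card_eq_sum_card_fiberwise (f := fun n : ℕ => (n : ZMod (Wp w))) (t := univ) (fun _ _ => mem_coe.2 (mem_univ _))]
    apply sum_congr rfl
    intro t _
    congr 1
  rw [h1]
  push_cast
  rfl

lemma sum_cls_UU (w : ℕ) (E : Finset ℕ) : ∑ t ∈ UU w, ((cls w E t).card : ℝ) ≤ E.card := by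
  rw [← sum_cls w E]
  apply sum_le_sum_of_subset_of_nonneg (subset_univ _)
  intro _ _ _
  exact Nat.cast_nonneg _

lemma exists_rep (w M : ℕ) (t : ZMod (Wp w)) :
    ∃ t' : ℕ, M < t' ∧ t' ≤ M + Wp w ∧ (t' : ZMod (Wp w)) = t := by
  have hW := Wp_pos w
  obtain ⟨r, hr⟩ : ∃ r : ℕ, (r : ZMod (Wp w)) = t - ((M + 1 : ℕ) : ZMod (Wp w)) ∧ r < Wp w :=
    ⟨(t - ((M + 1 : ℕ) : ZMod (Wp w))).val, ZMod.natCast_zmod_val _, ZMod.val_lt _⟩
  refine ⟨M + 1 + r, by omega, by omega, ?_⟩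
  rw [Nat.cast_add, hr.1]
  ring

lemma cls_card_le (w M H : ℕ) (E : Finset ℕ) (hE : E ⊆ Ioc M (M + H)) (t : ZMod (Wp w)) :
    ((cls w E t).card : ℝ) ≤ (H : ℝ) / Wp w + 1 := by
  obtain ⟨t', h1, h2, h3⟩ := exists_rep w M t
  refine le_trans ?_ (card_It_le w M H t' h1 h2)
  have h4 : cls w E t ⊆ It w M H t' := by
    intro n hn
    rw [mem_cls] at hn
    unfold It
    rw [mem_filter]
    refine ⟨hE hn.1, ?_⟩
    rw [← ZMod.natCast_eq_natCast_iff, hn.2, h3]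
  exact_mod_cast card_le_card h4

lemma eef_nonneg (w H : ℕ) (E : Finset ℕ) (t : ZMod (Wp w)) : 0 ≤ eef w H E t := by
  unfold eef
  positivity

lemma eef_le_one (w M H : ℕ) (E : Finset ℕ) (hE : E ⊆ Ioc M (M + H)) (t : ZMod (Wp w)) : eef w H E t ≤ 1 := by
  unfold eef
  rw [div_le_one (by positivity)]
  exact cls_card_le w M H E hE t

lemma eef_zero (w H : ℕ) (E : Finset ℕ) (hE : ∀ n ∈ E, Even n) (t : ZMod (Wp w)) (ht : wt w t = 0) :
    eef w H E t = 0 := by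
  have h1 : cls w E t = ∅ := by
    rw [Finset.eq_empty_iff_forall_notMem]
    intro n hn
    rw [mem_cls] at hn
    have := wt_ne_zero w n (hE n hn.1)
    rw [hn.2] at this
    exact this ht
  unfold eef
  rw [h1]
  simp

lemma sum_eef (w H : ℕ) (h : ℝ) (hh : 0 ≤ h) (E : Finset ℕ) (hH : Wp w ≤ H) (hE : 2 * h * H ≤ E.card) :
    h * Wp w ≤ ∑ t, eef w H E t := by
  have hW : (0 : ℝ) < Wp w := by exact_mod_cast Wp_pos w
  have hHr : (Wp w : ℝ) ≤ H := by exact_mod_cast hH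
  unfold eef
  rw [← sum_div, sum_cls, le_div_iff₀ (by positivity)]
  refine le_trans ?_ hE
  have h1 : h * Wp w * ((H : ℝ) / Wp w + 1) = h * (H + Wp w) := by
    field_simp
  rw [h1]
  nlinarith

lemma pp_nonneg (w M : ℕ) : 0 ≤ pp w M := by
  unfold pp
  have := Real.log_natCast_nonneg M
  positivity

lemma pp_pos (w M : ℕ) (hM : 2 ≤ M) : 0 < pp w M := by
  unfold pp
  have h0 : (2 : ℝ) ≤ M := by exact_mod_cast hM
  have h1 : 0 < Real.log M := Real.log_pos (by linarith)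
  have h2 : (0 : ℝ) < Nat.totient (Wp w) := by exact_mod_cast Nat.totient_pos.2 (Wp_pos w)
  positivity

lemma bbf_nonneg (w M : ℕ) (B : Finset ℕ) (a : ZMod (Wp w)) : 0 ≤ bbf w M B a := by
  unfold bbf
  exact div_nonneg (Nat.cast_nonneg _) (pp_nonneg w M)

lemma bbf_mono (w M : ℕ) {B C : Finset ℕ} (h : B ⊆ C) (a : ZMod (Wp w)) : bbf w M B a ≤ bbf w M C a := by
  unfold bbf
  apply div_le_div_of_nonneg_right _ (pp_nonneg w M)
  exact_mod_cast card_le_card (cls_mono h a)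

lemma sum_bbf (w M : ℕ) (B : Finset ℕ) :
    ∑ a ∈ UU w, bbf w M B a ≤ Nat.totient (Wp w) * ((B.card : ℝ) * Real.log M / M) := by
  unfold bbf
  rw [← sum_div]
  have h1 : (Nat.totient (Wp w) : ℝ) * ((B.card : ℝ) * Real.log M / M) = (B.card : ℝ) / pp w M := by
    unfold pp
    rw [div_div_eq_mul_div]
    ring
  rw [h1]
  exact div_le_div_of_nonneg_right (sum_cls_UU w B) (pp_nonneg w M)

lemma YY_nonneg (w M H : ℕ) : 0 ≤ YY w M H := by
  unfold YY
  have := pp_nonneg w M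
  have h2 := Vz_pos w
  positivity

lemma YY_pos (w M H : ℕ) (hM : 2 ≤ M) (hH : 1 ≤ H) : 0 < YY w M H := by
  unfold YY
  have := pp_pos w M hM
  have h2 := Vz_pos w
  have h3 : (0 : ℝ) < H := by exact_mod_cast hH
  have h4 : (0 : ℝ) < Wp w := by exact_mod_cast Wp_pos w
  positivity

lemma YY_phi (w M H : ℕ) : YY w M H * (Nat.totient (Wp w) : ℝ) ^ 2 = (H : ℝ) * M / Real.log M := by
  unfold YY pp
  have h1 := totient_Wp w
  have h2 := Vz_pos w
  have h4 : (0 : ℝ) < Wp w := by exact_mod_cast Wp_pos w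
  rw [h1]
  have h5 : (M : ℝ) / (Wp w * Vz w * Real.log M) = (M / Real.log M) / (Wp w * Vz w) := by
    rw [div_div, mul_comm (Real.log (M : ℝ))]
  rw [h5]
  field_simp

end Pool.Agent.TH881.RG
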