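import Mathlib
import Pool.Agent.TH881.RG.Fi

/-! The window inequality. -/

set_option autoImplicit false

namespace Pool.Agent.TH881.RG
open Finset Filter Topology
open Pool.Agent.TH881
open Pool.Agent.H373R2.T7

/-- primes in a window and primes below `H` -/
lemma two_primes : ∃ H0 : ℕ, 3 ≤ H0 ∧ ∀ H : ℕ, H0 ≤ H → ∀ M : ℕ,
    (((Ioc M (M + H)).filter Nat.Prime).card : ℝ) ≤ 3 * H / Real.log H ∧
    (((Icc 1 H).filter Nat.Prime).card : ℝ) ≤ 3 * H / Real.log H := by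
  obtain ⟨H0, h3, hbt⟩ := Pool.Agent.H617R3.BT.bt2 1 one_pos
  refine ⟨H0, h3, ?_⟩
  intro H hH M
  have key : ∀ a : ℕ, (((Ioc a (a + H)).filter Nat.Prime).card : ℝ) ≤ 3 * H / Real.log H := by
    intro a
    have h1 := hbt (a + 1) 1 H le_rfl hH
    have h2 : ((Ioc a (a + H)).filter Nat.Prime).card ≤ ((range H).filter (fun t => (a + 1 + t * 1).Prime)).card := by
      apply card_le_card_of_injOn (fun n => n - (a + 1))
      · intro n hn
        rw [mem_coe, mem_filter, mem_Ioc] at hn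
        rw [mem_coe, mem_filter, mem_range]
        have e1 : a + 1 + (n - (a + 1)) * 1 = n := by omega
        simp only
        rw [e1]
        exact ⟨by omega, hn.2⟩
      · intro n hn n' hn' hnn
        rw [mem_coe, mem_filter, mem_Ioc] at hn hn'
        have e1 : n - (a + 1) = n' - (a + 1) := hnn
        omega
    have h3 : (((Ioc a (a + H)).filter Nat.Prime).card : ℝ) ≤
        (((range H).filter (fun t => (a + 1 + t * 1).Prime)).card : ℝ) := by exact_mod_cast h2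
    refine h3.trans (h1.trans (le_of_eq ?_))
    rw [Nat.totient_one]
    norm_num
  refine ⟨key M, ?_⟩
  have h1 := key 0
  have h2 : Ioc 0 (0 + H) = Icc 1 H := by
    ext n
    rw [mem_Ioc, mem_Icc]
    omega
  rwa [h2] at h1

/-- the error terms -/
lemma err_small (s c : ℝ) (hs : 0 < s) (hc : 0 < c) : ∃ N0 : ℕ, 2 ≤ N0 ∧ ∀ N : ℕ, N0 ≤ N →
    4 * √(N : ℝ) * Real.log N + 2 * (N : ℝ) ^ (1 - s) * Real.log N ≤ c * N / Real.log N := by
  have h1 := ((isLittleO_log_rpow_rpow_atTop (2 : ℝ) (show (0 : ℝ) < 1 / 2 by norm_num)).bound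
      (show 0 < c / 8 by positivity))
  have h2 := ((isLittleO_log_rpow_rpow_atTop (2 : ℝ) hs).bound (show 0 < c / 4 by positivity))
  have h3 := (tendsto_natCast_atTop_atTop (R := ℝ)).eventually (h1.and (h2.and (eventually_ge_atTop (3 : ℝ))))
  obtain ⟨N0, hN0⟩ := eventually_atTop.1 h3
  refine ⟨max N0 2, le_max_right _ _, ?_⟩
  intro N hN
  obtain ⟨h4, h5, h6⟩ := hN0 N ((le_max_left _ _).trans hN)
  have hN0r : (0 : ℝ) < N := by linarith
  have hL : 0 < Real.log N := Real.log_pos (by linarith)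
  rw [Real.norm_of_nonneg (Real.rpow_nonneg hL.le _), Real.norm_of_nonneg (Real.rpow_nonneg hN0r.le _)] at h4 h5
  have h7 : Real.log N ^ (2 : ℝ) = Real.log N ^ 2 := by
    rw [← Real.rpow_natCast]; norm_num
  rw [h7] at h4 h5
  rw [← Real.sqrt_eq_rpow] at h4
  rw [le_div_iff₀ hL]
  have h8 : √(N : ℝ) * √(N : ℝ) = N := Real.mul_self_sqrt hN0r.le
  have h9 : (N : ℝ) ^ (1 - s) * (N : ℝ) ^ s = N := by
    rw [← Real.rpow_add hN0r]
    norm_num
  have h10 : √(N : ℝ) * Real.log N ^ 2 ≤ c / 8 * N := by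
    calc √(N : ℝ) * Real.log N ^ 2 ≤ √(N : ℝ) * (c / 8 * √(N : ℝ)) :=
          mul_le_mul_of_nonneg_left h4 (Real.sqrt_nonneg _)
      _ = c / 8 * (√(N : ℝ) * √(N : ℝ)) := by ring
      _ = _ := by rw [h8]
  have h11 : (N : ℝ) ^ (1 - s) * Real.log N ^ 2 ≤ c / 4 * N := by
    calc (N : ℝ) ^ (1 - s) * Real.log N ^ 2 ≤ (N : ℝ) ^ (1 - s) * (c / 4 * (N : ℝ) ^ s) :=
          mul_le_mul_of_nonneg_left h5 (Real.rpow_nonneg hN0r.le _)
      _ = c / 4 * ((N : ℝ) ^ (1 - s) * (N : ℝ) ^ s) := by ring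
      _ = _ := by rw [h9]
  calc (4 * √(N : ℝ) * Real.log N + 2 * (N : ℝ) ^ (1 - s) * Real.log N) * Real.log N =
        4 * (√(N : ℝ) * Real.log N ^ 2) + 2 * ((N : ℝ) ^ (1 - s) * Real.log N ^ 2) := by ring
    _ ≤ 4 * (c / 8 * N) + 2 * (c / 4 * N) := by linarith
    _ = c * N := by ring

/-- the window inequality -/
lemma window_ineq (κ s ε1 ρ : ℝ) (hκ0 : 0 ≤ κ) (hκ1 : κ < 1) (hs0 : 0 < s) (hs1 : s < 1) (hε1 : 0 < ε1)
    (hρ : 0 < ρ) : ∃ N0 : ℕ, ∀ N : ℕ, N0 ≤ N → ∀ M H : ℕ, M + H ≤ N → ρ * N ≤ H → ρ * N ≤ M →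
    (H : ℝ) ≤ ε1 / 72 * M → ∀ A : Set ℕ, ∀ E ⊆ Ioc M (M + H),
    (∀ n ∈ E, (rep A n : ℝ) ≤ κ * rep Set.univ n) →
    (1 - s) * (1 - κ) * ∑ n ∈ E, cv (fun k => ArithmeticFunction.vonMangoldt k) (PN N M) n ≤
      2 * ∑ n ∈ E, cv (fun k => ArithmeticFunction.vonMangoldt k) (BN A N M) n +
        2 * ε1 * ((H : ℝ) * M / Real.log M) := by
  obtain ⟨N1, hN12, hN1⟩ := err_small s (ε1 * ρ) hs0 (by positivity)
  obtain ⟨H0, hH03, hH0⟩ := two_primes
  obtain ⟨N2, hN2⟩ := exists_nat_ge (H0 / ρ)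
  obtain ⟨N3, hN3⟩ := exists_nat_ge (1 / ρ ^ 2)
  obtain ⟨N4, hN4⟩ := exists_nat_ge (2 / ρ)
  refine ⟨N1 + N2 + N3 + N4 + 3, ?_⟩
  intro N hN M H hMH hH hM hHM A E hE hEr
  have hNr : (3 : ℝ) ≤ N := by exact_mod_cast (by omega : 3 ≤ N)
  have hN0r : (0 : ℝ) < N := by linarith
  have hLN : 0 < Real.log N := Real.log_pos (by linarith)
  -- H is large
  have hHH0 : H0 ≤ H := by
    have h1 : (H0 : ℝ) ≤ H := by
      have h2 : (N2 : ℝ) ≤ N := by exact_mod_cast (by omega : N2 ≤ N)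
      have h3 : (H0 : ℝ) / ρ ≤ N := hN2.trans h2
      rw [div_le_iff₀ hρ] at h3
      linarith
    exact_mod_cast h1
  have hH3r : (3 : ℝ) ≤ H := by exact_mod_cast (hH03.trans hHH0)
  have hH0r : (0 : ℝ) < H := by linarith
  have hLH : 0 < Real.log H := Real.log_pos (by linarith)
  have hHN : H ≤ N := by omega
  have hM0 : (0 : ℝ) < M := lt_of_lt_of_le (by positivity) hM
  have hM2r : (2 : ℝ) ≤ M := by
    have h2 : (N4 : ℝ) ≤ N := by exact_mod_cast (by omega : N4 ≤ N)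
    have h3 : (2 : ℝ) / ρ ≤ N := hN4.trans h2
    rw [div_le_iff₀ hρ] at h3
    linarith
  have hMN : M ≤ N := by omega
  have hMNr : (M : ℝ) ≤ N := by exact_mod_cast hMN
  -- log H ≥ (1/2) log N
  have hLHN : Real.log N ≤ 2 * Real.log H := by
    have h1 : (N : ℝ) ≤ (H : ℝ) ^ 2 := by
      have h2 : 1 / ρ ^ 2 ≤ N := hN3.trans (by exact_mod_cast (by omega : N3 ≤ N))
      rw [div_le_iff₀ (by positivity)] at h2
      have h3 : (ρ * N) ^ 2 ≤ (H : ℝ) ^ 2 := pow_le_pow_left₀ (by positivity) hH 2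
      calc (N : ℝ) = N * 1 := by ring
        _ ≤ N * (N * ρ ^ 2) := mul_le_mul_of_nonneg_left h2 hN0r.le
        _ = (ρ * N) ^ 2 := by ring
        _ ≤ _ := h3
    have h2 := Real.log_le_log hN0r h1
    rw [Real.log_pow] at h2
    exact_mod_cast h2
  -- M > 1, log M
  have hLM0 : 0 < Real.log M := Real.log_pos (by linarith)
  have hLMN : Real.log M ≤ Real.log N := Real.log_le_log hM0 hMNr
  -- pointwise
  have hpt : ∀ n ∈ E, (1 - s) * (1 - κ) * cv (fun k => ArithmeticFunction.vonMangoldt k) (PN N M) n ≤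
      2 * cv (fun k => ArithmeticFunction.vonMangoldt k) (BN A N M) n +
        (4 * √(N : ℝ) * Real.log N + 2 * (N : ℝ) ^ (1 - s) * Real.log N + 2 * Real.log N * TT M n) := by
    intro n hn
    have hn1 := mem_Ioc.1 (hE hn)
    have h1 := rep_ge N M n (by omega) (by omega)
    have h2 := bad_le A N M n s hs0 hs1 (by omega) hn1.1
    have h3 := rep_diff A n
    have h4 := hEr n hn
    have h5 : (1 - κ) * (rep Set.univ n : ℝ) ≤ 2 * bad A n := by linarith
    have hsk : (1 - s) * (1 - κ) ≤ 1 := by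
      have h6 : (1 - s) * (1 - κ) ≤ 1 * 1 := mul_le_mul (by linarith) (by linarith) (by linarith) zero_le_one
      linarith
    have h6 : (1 - s) * (1 - κ) * cv (fun k => ArithmeticFunction.vonMangoldt k) (PN N M) n ≤
        (1 - s) * (1 - κ) * (Real.log N * rep Set.univ n + 2 * √(N : ℝ) * Real.log N) :=
      mul_le_mul_of_nonneg_left h1 (mul_nonneg (by linarith) (by linarith))
    have h7 : (1 - s) * (1 - κ) * (2 * √(N : ℝ) * Real.log N) ≤ 2 * √(N : ℝ) * Real.log N :=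
      mul_le_of_le_one_left (by positivity) hsk
    have h8 : (1 - s) * Real.log N * ((1 - κ) * (rep Set.univ n : ℝ)) ≤ (1 - s) * Real.log N * (2 * bad A n) :=
      mul_le_mul_of_nonneg_left h5 (mul_nonneg (by linarith) hLN.le)
    nlinarith [h6, h7, h8, h2]
  have hsum := sum_le_sum hpt
  rw [← mul_sum, sum_add_distrib, ← mul_sum, sum_add_distrib, sum_const, nsmul_eq_mul, ← mul_sum] at hsum
  -- the number of elements of `E`
  have hEc : (E.card : ℝ) ≤ H := by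
    have h1 := card_le_card hE
    rw [Nat.card_Ioc] at h1
    have h2 : E.card ≤ H := by omega
    exact_mod_cast h2
  have hT : ∑ n ∈ E, (TT M n : ℝ) ≤ 36 * H ^ 2 / Real.log N ^ 2 := by
    have h1 : ∑ n ∈ E, (TT M n : ℝ) ≤ ∑ n ∈ Ioc M (M + H), (TT M n : ℝ) :=
      sum_le_sum_of_subset_of_nonneg hE fun _ _ _ => Nat.cast_nonneg _
    have h2 : (∑ n ∈ Ioc M (M + H), (TT M n : ℝ)) ≤
        (((Ioc M (M + H)).filter Nat.Prime).card : ℝ) * (((Icc 1 H).filter Nat.Prime).card : ℝ) := by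
      exact_mod_cast sum_TT M H
    obtain ⟨h3, h4⟩ := hH0 H hHH0 M
    have h5 : (((Ioc M (M + H)).filter Nat.Prime).card : ℝ) * (((Icc 1 H).filter Nat.Prime).card : ℝ) ≤
        (3 * H / Real.log H) * (3 * H / Real.log H) :=
      mul_le_mul h3 h4 (Nat.cast_nonneg _) (by positivity)
    have h6 : (3 * (H : ℝ) / Real.log H) ≤ 6 * H / Real.log N := by
      rw [div_le_div_iff₀ hLH hLN]
      nlinarith
    have h7 : (3 * (H : ℝ) / Real.log H) * (3 * H / Real.log H) ≤ (6 * H / Real.log N) * (6 * H / Real.log N) :=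
      mul_le_mul h6 h6 (by positivity) (by positivity)
    have h8 : (6 * (H : ℝ) / Real.log N) * (6 * H / Real.log N) = 36 * H ^ 2 / Real.log N ^ 2 := by
      field_simp
      norm_num
    linarith
  -- error
  have herr := hN1 N (by omega)
  have hfin1 : (E.card : ℝ) * (4 * √(N : ℝ) * Real.log N + 2 * (N : ℝ) ^ (1 - s) * Real.log N) ≤
      ε1 * ((H : ℝ) * M / Real.log M) := by
    have h1 : (E.card : ℝ) * (4 * √(N : ℝ) * Real.log N + 2 * (N : ℝ) ^ (1 - s) * Real.log N) ≤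
        H * (ε1 * ρ * N / Real.log N) := mul_le_mul hEc herr (by positivity) hH0r.le
    refine h1.trans ?_
    have h2 : ρ * N / Real.log N ≤ M / Real.log M := div_le_div₀ hM0.le hM hLM0 hLMN
    calc (H : ℝ) * (ε1 * ρ * N / Real.log N) = ε1 * (H * (ρ * N / Real.log N)) := by ring
      _ ≤ ε1 * (H * (M / Real.log M)) := by
          apply mul_le_mul_of_nonneg_left _ hε1.le
          exact mul_le_mul_of_nonneg_left h2 hH0r.le
      _ = _ := by ring
  have hfin2 : 2 * Real.log N * ∑ n ∈ E, (TT M n : ℝ) ≤ ε1 * ((H : ℝ) * M / Real.log M) := by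
    calc 2 * Real.log N * ∑ n ∈ E, (TT M n : ℝ) ≤ 2 * Real.log N * (36 * H ^ 2 / Real.log N ^ 2) :=
          mul_le_mul_of_nonneg_left hT (by positivity)
      _ = 72 * H * H / Real.log N := by
          field_simp
          norm_num
      _ ≤ 72 * H * (ε1 / 72 * M) / Real.log M :=
          div_le_div₀ (by positivity) (mul_le_mul_of_nonneg_left hHM (by positivity)) hLM0 hLMN
      _ = ε1 * ((H : ℝ) * M / Real.log M) := by ring
  linarith

end Pool.Agent.TH881.RG
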