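import Mathlib
import Pool.Agent.TH881.RG.Cl
import Pool.Agent.TH881.RG.Fw

/-! The finite window theorem. -/

set_option autoImplicit false

namespace Pool.Agent.TH881.RG
open Finset Filter Topology
open Pool.Agent.TH881
open Pool.Agent.H373R2.T7

/-- the bilinear estimate -/
def StBil : Prop := ∀ (ε ρ : ℝ), 0 < ε → 0 < ρ → ∃ w0 : ℕ, ∀ w : ℕ, w0 ≤ w →
    ∃ N0 : ℕ, ∀ N : ℕ, N0 ≤ N → ∀ M H : ℕ, M + H ≤ N → ρ * N ≤ H → ρ * N ≤ M →
    ∀ E ⊆ Ioc M (M + H), ∀ B : Finset ℕ, (∀ b ∈ B, b.Prime ∧ √(N : ℝ) < b ∧ b ≤ M) →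
    |∑ n ∈ E, cv (fun k => ArithmeticFunction.vonMangoldt k) B n -
        YY w M H * ∑ a ∈ UU w, bbf w M B a * rr w (eef w H E) a| ≤
      ε * (YY w M H * (Nat.totient (Wp w) : ℝ) ^ 2)

lemma C2_nonneg : 0 ≤ C2 := by
  have := Pool.Agent.TH370.J1233.C2_ge
  linarith

lemma C2_le_one : C2 ≤ 1 := by
  refine (Pool.Agent.TH370.J1233.C2_le 0).trans ?_
  unfold Pool.Agent.TH370.J1233.PC
  simp

lemma exp_gamma_le : Real.exp (-Real.eulerMascheroniConstant) ≤ 1 := by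
  have h := Real.one_half_lt_eulerMascheroniConstant
  rw [Real.exp_le_one_iff]
  linarith

lemma D_le : C2 * Real.exp (-Real.eulerMascheroniConstant) ≤ 1 := by
  have h1 := C2_nonneg
  have h2 := C2_le_one
  have h3 := exp_gamma_le
  have h4 := (Real.exp_pos (-Real.eulerMascheroniConstant)).le
  nlinarith

lemma D_pos : 0 < C2 * Real.exp (-Real.eulerMascheroniConstant) := by
  have h1 := Pool.Agent.TH370.J1233.C2_ge
  have h4 := (Real.exp_pos (-Real.eulerMascheroniConstant))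
  positivity

/-- the arithmetic of the finite window theorem -/
lemma arith_window {κ s ε Y R Φ K SP SB CP CB Lam : ℝ} (hκ0 : 0 ≤ κ) (hκ1 : κ < 1) (hs0 : 0 < s) (hs1 : s < 1)
    (hε : 0 < ε) (hY : 0 < Y) (hR : 0 ≤ R) (hK : 0 < K)
    (hKR : K * Φ ≤ R) (hP : (1 - ε) * R ≤ SP)
    (hCP : Y * SP - ε * (Y * Φ) ≤ CP) (hCB : CB ≤ Y * SB + ε * (Y * Φ))
    (hmain : (1 - s) * (1 - κ) * CP ≤ 2 * CB + 2 * ε * (Y * Φ)) (hB : SB ≤ Lam + ε * R) (hΦ : 0 ≤ Φ) :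
    ((1 - κ) - s - 3 * ε - 5 * (ε / K)) * R ≤ 2 * Lam := by
  have h0 : 0 ≤ (1 - s) * (1 - κ) := mul_nonneg (by linarith) (by linarith)
  have h1 : (1 - s) * (1 - κ) ≤ 1 := by
    have h6 : (1 - s) * (1 - κ) ≤ 1 * 1 := mul_le_mul (by linarith) (by linarith) (by linarith) zero_le_one
    linarith
  have h2 : (1 - s) * (1 - κ) * (Y * SP - ε * (Y * Φ)) ≤ 2 * CB + 2 * ε * (Y * Φ) :=
    (mul_le_mul_of_nonneg_left hCP h0).trans hmain
  have h3 : (1 - s) * (1 - κ) * (Y * SP - ε * (Y * Φ)) ≤ 2 * (Y * SB + ε * (Y * Φ)) + 2 * ε * (Y * Φ) := by linarith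
  have h4 : Y * ((1 - s) * (1 - κ) * (SP - ε * Φ)) ≤ Y * (2 * SB + 4 * ε * Φ) := by
    calc Y * ((1 - s) * (1 - κ) * (SP - ε * Φ)) = (1 - s) * (1 - κ) * (Y * SP - ε * (Y * Φ)) := by ring
      _ ≤ _ := h3
      _ = _ := by ring
  have h5 : (1 - s) * (1 - κ) * (SP - ε * Φ) ≤ 2 * SB + 4 * ε * Φ := le_of_mul_le_mul_left h4 hY
  have h6 : (1 - s) * (1 - κ) * SP ≤ 2 * SB + 5 * ε * Φ := by
    have h7 : (1 - s) * (1 - κ) * (ε * Φ) ≤ ε * Φ := mul_le_of_le_one_left (by positivity) h1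
    nlinarith
  have h7 : (1 - s) * (1 - κ) * ((1 - ε) * R) ≤ (1 - s) * (1 - κ) * SP := mul_le_mul_of_nonneg_left hP h0
  have h8 : ε * Φ ≤ ε / K * R := by
    calc ε * Φ = ε / K * (K * Φ) := by field_simp
      _ ≤ _ := mul_le_mul_of_nonneg_left hKR (by positivity)
  have h9 : ((1 - κ) - s - ε) * R ≤ (1 - s) * (1 - κ) * ((1 - ε) * R) := by
    rw [← mul_assoc]
    apply mul_le_mul_of_nonneg_right _ hR
    have e1 : 0 ≤ κ * s := by positivity
    have e2 : (1 - s) * (1 - κ) * (1 - ε) ≥ (1 - s) * (1 - κ) - ε := by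
      have : (1 - s) * (1 - κ) * ε ≤ ε := mul_le_of_le_one_left hε.le h1
      linarith
    nlinarith
  nlinarith

/-- the finite window theorem -/
theorem finite_window (hPC : StPC) (hBil : StBil) (κ δ : ℝ) (hκ0 : 0 ≤ κ) (hκ1 : κ < 1) (hδ : 0 < δ) :
    ∃ h0 : ℝ, 0 < h0 ∧ h0 < 1 / 16 ∧ ∀ h : ℝ, 0 < h → h ≤ h0 → ∃ θ0 : ℝ, 0 < θ0 ∧ ∀ ρ : ℝ, 0 < ρ →
    ∃ N0 : ℕ, ∀ N : ℕ, N0 ≤ N → ∀ M H : ℕ, M + H ≤ N → ρ * N ≤ H → ρ * N ≤ M → (H : ℝ) ≤ θ0 * M →
    ∀ A : Set ℕ, ∀ E ⊆ Ioc M (M + H), (∀ n ∈ E, Even n ∧ (rep A n : ℝ) ≤ κ * rep Set.univ n) →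
    2 * h * H ≤ E.card →
    (1 - κ) * (C2 * Real.exp (-Real.eulerMascheroniConstant)) - δ ≤
      Real.log (Real.log (1 / h)) * (((BN A N M).card : ℝ) * Real.log M / M) := by
  obtain ⟨h0, hh0, hh16, hloc⟩ := local_thm stMI stMB stWL (δ / 2) (by positivity)
  obtain ⟨c, hc0, hWL⟩ := stWL
  refine ⟨h0, hh0, hh16, ?_⟩
  intro h hh hhh0
  obtain ⟨u, hu⟩ : ∃ u : ℝ, u = min δ 1 / 100 := ⟨_, rfl⟩
  have hu0 : 0 < u := by rw [hu]; positivity
  have huδ : u ≤ δ / 100 := by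
    rw [hu]
    exact div_le_div_of_nonneg_right (min_le_left _ _) (by norm_num)
  have hu1 : u ≤ 1 / 100 := by
    rw [hu]
    exact div_le_div_of_nonneg_right (min_le_right _ _) (by norm_num)
  obtain ⟨K, hK⟩ : ∃ K : ℝ, K = c * h ^ 2 := ⟨_, rfl⟩
  have hK0 : 0 < K := by rw [hK]; positivity
  obtain ⟨ε, hε⟩ : ∃ ε : ℝ, ε = u * min K 1 := ⟨_, rfl⟩
  have hε0 : 0 < ε := by rw [hε]; positivity
  have hεu : ε ≤ u := by
    rw [hε]
    exact mul_le_of_le_one_right hu0.le (min_le_right _ _)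
  have hεK : ε / K ≤ u := by
    rw [div_le_iff₀ hK0, hε]
    exact mul_le_mul_of_nonneg_left (min_le_left _ _) hu0.le
  refine ⟨ε / 72, by positivity, ?_⟩
  intro ρ hρ
  obtain ⟨w0, hw0⟩ := hBil ε ρ hε0 hρ
  obtain ⟨w, hw⟩ : ∃ w : ℕ, w = w0 + 2 := ⟨_, rfl⟩
  obtain ⟨N1, hN1⟩ := hw0 w (by omega)
  obtain ⟨N2, hN2⟩ := hPC w ε ρ hε0 hρ
  obtain ⟨N3, hN3⟩ := window_ineq κ u ε ρ hκ0 hκ1 hu0 (by linarith) hε0 hρ
  obtain ⟨N4, hN4⟩ := exists_nat_ge ((Wp w : ℝ) / ρ)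
  obtain ⟨N5, hN5⟩ := exists_nat_ge (2 / ρ)
  refine ⟨N1 + N2 + N3 + N4 + N5, ?_⟩
  intro N hN M H hMH hH hM hHM A E hE hEA hEc
  have hHW : Wp w ≤ H := by
    have h1 : (N4 : ℝ) ≤ N := by exact_mod_cast (by omega : N4 ≤ N)
    have h2 := hN4.trans h1
    rw [div_le_iff₀ hρ] at h2
    have h3 : (Wp w : ℝ) ≤ H := by linarith
    exact_mod_cast h3
  have hM2 : 2 ≤ M := by
    have h1 : (N5 : ℝ) ≤ N := by exact_mod_cast (by omega : N5 ≤ N)
    have h2 := hN5.trans h1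
    rw [div_le_iff₀ hρ] at h2
    have h3 : ((2 : ℕ) : ℝ) ≤ M := by push_cast; linarith
    exact_mod_cast h3
  have hH1 : 1 ≤ H := (Wp_pos w).trans_le hHW
  have hMN : M ≤ N := by omega
  -- the objects
  set e := eef w H E with he
  have he0 : ∀ t, 0 ≤ e t := eef_nonneg w H E
  have he1 : ∀ t, e t ≤ 1 := eef_le_one w M H E hE
  have hez : ∀ t, wt w t = 0 → e t = 0 := fun t ht => eef_zero w H E (fun n hn => (hEA n hn).1) t ht
  have hes : h * Wp w ≤ ∑ t, e t := sum_eef w H h hh.le E hHW hEc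
  obtain ⟨R, hR⟩ : ∃ R : ℝ, R = ∑ a ∈ UU w, rr w e a := ⟨_, rfl⟩
  have hR0 : 0 ≤ R := by
    rw [hR]
    exact sum_nonneg fun a _ => rr_nonneg he0 a
  have hφ : (0 : ℝ) < Nat.totient (Wp w) := totient_Wp_pos w
  have hW : (0 : ℝ) < Wp w := by exact_mod_cast Wp_pos w
  obtain ⟨Φ, hΦ⟩ : ∃ Φ : ℝ, Φ = (Nat.totient (Wp w) : ℝ) ^ 2 := ⟨_, rfl⟩
  have hΦ0 : 0 < Φ := by rw [hΦ]; positivity
  have hKR : K * Φ ≤ R := by
    have h1 := hWL w (by omega) e he0 he1 hez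
    have h2 : h ≤ (∑ t, e t) / Wp w := by
      rw [le_div_iff₀ hW]
      exact hes
    have h3 : h ^ 2 ≤ ((∑ t, e t) / Wp w) ^ 2 := pow_le_pow_left₀ hh.le h2 2
    have h4 : K ≤ (∑ t, e t * wt w t) / Nat.totient (Wp w) := by
      rw [hK]
      exact (mul_le_mul_of_nonneg_left h3 hc0.le).trans h1
    rw [le_div_iff₀ hφ] at h4
    rw [hR, sum_rr, hΦ]
    calc K * (Nat.totient (Wp w) : ℝ) ^ 2 = Nat.totient (Wp w) * (K * Nat.totient (Wp w)) := by ring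
      _ ≤ _ := mul_le_mul_of_nonneg_left h4 hφ.le
  -- the two bilinear estimates
  have hPp : ∀ b ∈ PN N M, b.Prime ∧ √(N : ℝ) < b ∧ b ≤ M := by
    intro b hb
    rw [mem_PN] at hb
    exact ⟨hb.2.1, hb.2.2, hb.1⟩
  have hBP : BN A N M ⊆ PN N M := fun b hb => (mem_BN.1 hb).1
  have hb1 := hN1 N (by omega) M H hMH hH hM E hE (PN N M) hPp
  have hb2 := hN1 N (by omega) M H hMH hH hM E hE (BN A N M) (fun b hb => hPp b (hBP hb))
  rw [abs_le] at hb1 hb2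
  have hwin := hN3 N (by omega) M H hMH hH hM hHM A E hE (fun n hn => (hEA n hn).2)
  rw [← YY_phi w M H] at hwin
  have hYpos := YY_pos w M H hM2 hH1
  -- classes
  have hbP : ∀ a ∈ UU w, |bbf w M (PN N M) a - 1| ≤ ε := by
    intro a ha
    exact hN2 N (by omega) M hMN hM a (mem_UU.1 ha)
  obtain ⟨β, hβ⟩ : ∃ β : ZMod (Wp w) → ℝ, β = fun a => min (bbf w M (BN A N M) a) 1 := ⟨_, rfl⟩
  have hβ0 : ∀ a, 0 ≤ β a := by
    intro a
    rw [hβ]
    exact le_min (bbf_nonneg _ _ _ _) zero_le_one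
  have hβ1 : ∀ a, β a ≤ 1 := by
    intro a
    rw [hβ]
    exact min_le_right _ _
  have hSB : ∑ a ∈ UU w, bbf w M (BN A N M) a * rr w e a ≤ ∑ a ∈ UU w, β a * rr w e a + ε * R := by
    rw [hR, mul_sum, ← sum_add_distrib]
    apply sum_le_sum
    intro a ha
    have h1 := bbf_mono w M hBP a
    have h2 := abs_le.1 (hbP a ha)
    have h3 : bbf w M (BN A N M) a ≤ β a + ε := by
      rw [hβ]
      simp only
      rcases le_total (bbf w M (BN A N M) a) 1 with h4 | h4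
      · rw [min_eq_left h4]
        linarith
      · rw [min_eq_right h4]
        linarith
    have h4 := rr_nonneg he0 a
    nlinarith
  have hSP : (1 - ε) * R ≤ ∑ a ∈ UU w, bbf w M (PN N M) a * rr w e a := by
    rw [hR, mul_sum]
    apply sum_le_sum
    intro a ha
    have h2 := abs_le.1 (hbP a ha)
    exact mul_le_mul_of_nonneg_right (by linarith) (rr_nonneg he0 a)
  rw [← hΦ] at hb1 hb2 hwin
  have hCP : YY w M H * (∑ a ∈ UU w, bbf w M (PN N M) a * rr w e a) - ε * (YY w M H * Φ) ≤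
      ∑ n ∈ E, cv (fun k => ArithmeticFunction.vonMangoldt k) (PN N M) n := by linarith [hb1.1]
  have hCB : ∑ n ∈ E, cv (fun k => ArithmeticFunction.vonMangoldt k) (BN A N M) n ≤
      YY w M H * (∑ a ∈ UU w, bbf w M (BN A N M) a * rr w e a) + ε * (YY w M H * Φ) := by linarith [hb2.2]
  have harith := arith_window (Lam := ∑ a ∈ UU w, β a * rr w e a) hκ0 hκ1 hu0 (by linarith) hε0 hYpos
    hR0 hK0 hKR hSP hCP hCB hwin hSB hΦ0.le
  obtain ⟨lam, hlam⟩ : ∃ lam : ℝ, lam = max 0 ((1 - κ) / 2 - 5 * u) := ⟨_, rfl⟩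
  have hlam0 : 0 ≤ lam := by rw [hlam]; exact le_max_left _ _
  have hlam1 : lam ≤ 1 := by
    rw [hlam]
    apply max_le zero_le_one
    linarith
  have hlam2 : lam * ∑ a ∈ UU w, rr w e a ≤ ∑ a ∈ UU w, β a * rr w e a := by
    rw [← hR, hlam]
    rcases le_total 0 ((1 - κ) / 2 - 5 * u) with h1 | h1
    · rw [max_eq_right h1]
      have h2 : ((1 - κ) - 10 * u) * R ≤ ((1 - κ) - u - 3 * ε - 5 * (ε / K)) * R := by
        apply mul_le_mul_of_nonneg_right _ hR0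
        linarith
      linarith
    · rw [max_eq_left h1, zero_mul]
      exact sum_nonneg fun a _ => mul_nonneg (hβ0 a) (rr_nonneg he0 a)
  have hfin := hloc h hh hhh0 w (by omega) e he0 he1 hez hes β hβ0 hβ1 lam hlam0 hlam1 hlam2
  have hll : 0 ≤ Real.log (Real.log (1 / h)) := by
    apply Real.log_nonneg
    have h1 : (16 : ℝ) ≤ 1 / h := by
      rw [le_div_iff₀ hh]
      linarith
    have h2 : Real.exp 1 ≤ 1 / h := by
      have := Real.exp_one_lt_d9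
      linarith
    have h3 := Real.log_le_log (Real.exp_pos _) h2
    rwa [Real.log_exp] at h3
  have hs1 : ∑ a ∈ UU w, β a ≤ Nat.totient (Wp w) * (((BN A N M).card : ℝ) * Real.log M / M) := by
    refine le_trans ?_ (sum_bbf w M (BN A N M))
    apply sum_le_sum
    intro a _
    rw [hβ]
    exact min_le_left _ _
  have h2 : (lam * (2 * C2 * Real.exp (-Real.eulerMascheroniConstant)) - δ / 2) * Nat.totient (Wp w) ≤
      (Real.log (Real.log (1 / h)) * (((BN A N M).card : ℝ) * Real.log M / M)) * Nat.totient (Wp w) := by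
    calc (lam * (2 * C2 * Real.exp (-Real.eulerMascheroniConstant)) - δ / 2) * Nat.totient (Wp w) ≤
        Real.log (Real.log (1 / h)) * ∑ a ∈ UU w, β a := hfin
      _ ≤ Real.log (Real.log (1 / h)) * (Nat.totient (Wp w) * (((BN A N M).card : ℝ) * Real.log M / M)) :=
          mul_le_mul_of_nonneg_left hs1 hll
      _ = _ := by ring
  have h3 := le_of_mul_le_mul_right h2 hφ
  refine le_trans ?_ h3
  have h4 : (1 - κ) / 2 - 5 * u ≤ lam := by rw [hlam]; exact le_max_right _ _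
  have h5 := D_pos
  have h6 := D_le
  have h7 : ((1 - κ) / 2 - 5 * u) * (2 * (C2 * Real.exp (-Real.eulerMascheroniConstant))) ≤
      lam * (2 * (C2 * Real.exp (-Real.eulerMascheroniConstant))) := mul_le_mul_of_nonneg_right h4 (by positivity)
  have h8 : 10 * u * (C2 * Real.exp (-Real.eulerMascheroniConstant)) ≤ 10 * u := by
    apply mul_le_of_le_one_right (by positivity) h6
  calc (1 - κ) * (C2 * Real.exp (-Real.eulerMascheroniConstant)) - δ ≤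
      ((1 - κ) / 2 - 5 * u) * (2 * (C2 * Real.exp (-Real.eulerMascheroniConstant))) - δ / 2 := by linarith
    _ ≤ lam * (2 * (C2 * Real.exp (-Real.eulerMascheroniConstant))) - δ / 2 := by linarith
    _ = _ := by ring

end Pool.Agent.TH881.RG
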