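import Mathlib
import Pool.Agent.TH881.RG.Fx

/-! Choice of the window and the theorem on deleted primes. -/

set_option autoImplicit false

namespace Pool.Agent.TH881.RG
open Finset Filter Topology
open Pool.Agent.TH881
open Pool.Agent.H373R2.T7

open Classical in
/-- the elements of `S` in a window -/
noncomputable def win (S : Set ℕ) (M H : ℕ) : Finset ℕ := (Ioc M (M + H)).filter (fun n => n ∈ S)

lemma mem_win {S : Set ℕ} {M H n : ℕ} : n ∈ win S M H ↔ (M < n ∧ n ≤ M + H) ∧ n ∈ S := by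
  classical
  unfold win
  rw [mem_filter, mem_Ioc]

lemma win_subset (S : Set ℕ) (M H : ℕ) : win S M H ⊆ Ioc M (M + H) := by
  intro n hn
  rw [mem_win] at hn
  rw [mem_Ioc]
  exact hn.1

open Classical in
/-- the elements counted by `cnt` -/
noncomputable def cntS (A : Set ℕ) (n : ℕ) : Finset ℕ := (Icc 1 n).filter (fun a => a ∈ A)

lemma cnt_eq (A : Set ℕ) (n : ℕ) : cnt A n = (cntS A n).card := rfl

lemma mem_cntS {A : Set ℕ} {n m : ℕ} : m ∈ cntS A n ↔ (1 ≤ m ∧ m ≤ n) ∧ m ∈ A := by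
  classical
  unfold cntS
  rw [mem_filter, mem_Icc]

lemma cnt_add (S : Set ℕ) (M H : ℕ) : cnt S (M + H) = cnt S M + (win S M H).card := by
  rw [cnt_eq, cnt_eq, ← card_union_of_disjoint]
  · congr 1
    ext n
    rw [mem_union, mem_cntS, mem_cntS, mem_win]
    constructor
    · rintro ⟨⟨h1, h2⟩, h3⟩
      by_cases h : n ≤ M
      · exact Or.inl ⟨⟨h1, h⟩, h3⟩
      · exact Or.inr ⟨⟨by omega, h2⟩, h3⟩
    · rintro (⟨⟨h1, h2⟩, h3⟩ | ⟨⟨h1, h2⟩, h3⟩)
      · exact ⟨⟨h1, by omega⟩, h3⟩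
      · exact ⟨⟨by omega, h2⟩, h3⟩
  · rw [Finset.disjoint_left]
    intro n h1 h2
    rw [mem_cntS] at h1
    rw [mem_win] at h2
    omega

lemma exists_window (S : Set ℕ) (h θ : ℝ) (hh : 0 < h) (hh1 : h ≤ 1) (hθ : 0 < θ) (hθh : θ ≤ h / 8) :
    ∃ x0 : ℕ, ∀ x : ℕ, x0 ≤ x → h * x ≤ cnt S x → ∃ M H : ℕ, (H : ℝ) ≤ θ * x ∧ θ * x - 1 ≤ H ∧
      h / 4 * x - 1 ≤ M ∧ M ≤ x ∧ h / 2 * H ≤ (win S M H).card := by
  obtain ⟨x0, hx0⟩ := exists_nat_ge (1 / θ)
  refine ⟨x0 + 1, ?_⟩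
  intro x hx hcnt
  have hxr : (1 : ℝ) ≤ x := by exact_mod_cast (by omega : 1 ≤ x)
  have hθx : 1 ≤ θ * x := by
    have h1 : (x0 : ℝ) ≤ x := by exact_mod_cast (by omega : x0 ≤ x)
    have h2 := hx0.trans h1
    rw [div_le_iff₀ hθ] at h2
    linarith
  obtain ⟨H, hH⟩ : ∃ H : ℕ, H = ⌊θ * x⌋₊ := ⟨_, rfl⟩
  obtain ⟨M0, hM0⟩ : ∃ M0 : ℕ, M0 = ⌊h / 4 * x⌋₊ := ⟨_, rfl⟩
  have hH1 : (H : ℝ) ≤ θ * x := by
    rw [hH]
    exact Nat.floor_le (by positivity)
  have hH2 : θ * x - 1 ≤ H := by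
    rw [hH]
    exact (Nat.sub_one_lt_floor _).le
  have hH3 : 1 ≤ H := by
    rw [hH]
    exact Nat.le_floor (by push_cast; linarith)
  have hM1 : (M0 : ℝ) ≤ h / 4 * x := by
    rw [hM0]
    exact Nat.floor_le (by positivity)
  have hM2 : h / 4 * x - 1 ≤ M0 := by
    rw [hM0]
    exact (Nat.sub_one_lt_floor _).le
  have hM0x : M0 ≤ x := by
    have h1 : (M0 : ℝ) ≤ x := by nlinarith
    exact_mod_cast h1
  by_contra hcon
  push Not at hcon
  have hind : ∀ j : ℕ, M0 + j * H ≤ x + H → (cnt S (M0 + j * H) : ℝ) ≤ M0 + j * (h / 2 * H) := by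
    intro j
    induction j with
    | zero =>
      intro _
      have h1 : (cnt S M0 : ℝ) ≤ M0 := by exact_mod_cast cnt_le S M0
      simpa using h1
    | succ j ih =>
      intro hj
      have e1 : M0 + (j + 1) * H = (M0 + j * H) + H := by ring
      rw [e1] at hj ⊢
      have h1 := ih (by omega)
      have h2 : M0 + j * H ≤ x := by omega
      have h3 := hcon (M0 + j * H) H hH1 hH2 (by
        push_cast
        have : (0 : ℝ) ≤ (j : ℝ) * H := by positivity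
        linarith) h2
      rw [cnt_add]
      push_cast at h3 ⊢
      linarith
  obtain ⟨j, hj⟩ : ∃ j : ℕ, j = (x - M0) / H + 1 := ⟨_, rfl⟩
  have hdiv1 : (x - M0) / H * H ≤ x - M0 := Nat.div_mul_le_self _ _
  have hdiv2 : x - M0 < ((x - M0) / H + 1) * H := by
    have h1 := Nat.lt_div_mul_add (a := x - M0) (b := H) hH3
    have h2 : ((x - M0) / H + 1) * H = (x - M0) / H * H + H := by ring
    omega
  have hj1 : j * H = (x - M0) / H * H + H := by rw [hj]; ring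
  have h1 := hind j (by omega)
  have h2 : x ≤ M0 + j * H := by rw [hj]; omega
  have h3 : (cnt S x : ℝ) ≤ cnt S (M0 + j * H) := by exact_mod_cast cnt_mono S h2
  have h4 : (j : ℝ) * H ≤ x + H := by
    have h5 : j * H ≤ x + H := by omega
    exact_mod_cast h5
  have h5 : (j : ℝ) * (h / 2 * H) ≤ h / 2 * (x + H) := by
    calc (j : ℝ) * (h / 2 * H) = h / 2 * (j * H) := by ring
      _ ≤ _ := mul_le_mul_of_nonneg_left h4 (by positivity)
  have h6 : θ * (x : ℝ) ≤ h / 8 * x := mul_le_mul_of_nonneg_right hθh (by linarith)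
  have h7 : (H : ℝ) ≤ 1 / 8 * x := by nlinarith
  have h8 : h / 2 * (x + H) ≤ h / 2 * (x + 1 / 8 * x) := mul_le_mul_of_nonneg_left (by linarith) (by positivity)
  have h9 : h * (x : ℝ) ≤ h / 4 * x + h / 2 * (x + 1 / 8 * x) := by linarith
  have h10 : 0 < h * (x : ℝ) := by positivity
  nlinarith

/-- upper bound for the number of primes -/
lemma pi_upper (hPC : StPC) (ε : ℝ) (hε : 0 < ε) : ∃ M0 : ℕ, ∀ M : ℕ, M0 ≤ M →
    (cnt {p | p.Prime} M : ℝ) ≤ (1 + ε) * (M / Real.log M) := by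
  obtain ⟨N0, hN0⟩ := hPC 0 (ε / 2) 1 (by positivity) one_pos
  have hlit := ((isLittleO_log_rpow_atTop (show (0 : ℝ) < 1 / 2 by norm_num)).bound (show 0 < ε / 2 by positivity))
  have h3 := (tendsto_natCast_atTop_atTop (R := ℝ)).eventually (hlit.and (eventually_ge_atTop (3 : ℝ)))
  obtain ⟨N1, hN1⟩ := eventually_atTop.1 h3
  refine ⟨N0 + N1, ?_⟩
  intro M hM
  obtain ⟨h1, h2⟩ := hN1 M (by omega)
  have hM0 : (0 : ℝ) < M := by linarith
  have hL : 0 < Real.log M := Real.log_pos (by linarith)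
  rw [Real.norm_of_nonneg hL.le, Real.norm_of_nonneg (Real.rpow_nonneg hM0.le _), ← Real.sqrt_eq_rpow] at h1
  have hW0 : Wp 0 = 1 := by
    unfold Wp
    apply prod_eq_one
    intro p hp
    rw [mem_pz] at hp
    exact absurd hp.2.pos (by omega)
  have hP : (((Icc 1 M).filter (fun p : ℕ => p.Prime ∧ √(M : ℝ) < p)).card : ℝ) ≤ (1 + ε / 2) * (M / Real.log M) := by
    rw [← sum_cls 0]
    have hunit : ∀ t : ZMod (Wp 0), IsUnit t := by
      intro t
      rw [← ZMod.natCast_zmod_val t, ZMod.isUnit_iff_coprime]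
      exact Nat.Coprime.coprime_dvd_right (by rw [hW0]) (Nat.coprime_one_right _)
    have hpp : pp 0 M = M / Real.log M := by
      unfold pp
      rw [hW0, Nat.totient_one]
      norm_num
    have hpos : 0 < pp 0 M := by rw [hpp]; positivity
    have h4 : ∀ t ∈ (univ : Finset (ZMod (Wp 0))),
        ((cls 0 ((Icc 1 M).filter (fun p : ℕ => p.Prime ∧ √(M : ℝ) < p)) t).card : ℝ) ≤ (1 + ε / 2) * (M / Real.log M) := by
      intro t _
      have h5 := (abs_le.1 (hN0 M (by omega) M le_rfl (by linarith) t (hunit t))).2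
      unfold bbf at h5
      have h6 : ((cls 0 ((Icc 1 M).filter (fun p : ℕ => p.Prime ∧ √(M : ℝ) < p)) t).card : ℝ) / pp 0 M ≤ 1 + ε / 2 := by
        linarith
      rw [div_le_iff₀ hpos, hpp] at h6
      exact h6
    refine (sum_le_sum h4).trans ?_
    rw [sum_const, card_univ, ZMod.card, hW0]
    simp
  have hsplit : cnt {p | p.Prime} M ≤ ((Icc 1 M).filter (fun p : ℕ => p.Prime ∧ √(M : ℝ) < p)).card + ⌊√(M : ℝ)⌋₊ := by
    rw [cnt_eq]
    have h4 : cntS {p : ℕ | p.Prime} M ⊆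
        (Icc 1 M).filter (fun p : ℕ => p.Prime ∧ √(M : ℝ) < p) ∪ Icc 1 ⌊√(M : ℝ)⌋₊ := by
      intro p hp
      rw [mem_cntS] at hp
      rw [mem_union, mem_filter, mem_Icc, mem_Icc]
      by_cases c : √(M : ℝ) < p
      · exact Or.inl ⟨hp.1, hp.2, c⟩
      · exact Or.inr ⟨hp.1.1, Nat.le_floor (by linarith)⟩
    have h5 := (card_le_card h4).trans (card_union_le _ _)
    rw [Nat.card_Icc] at h5
    simpa using h5
  have h4 : (cnt {p | p.Prime} M : ℝ) ≤
      (((Icc 1 M).filter (fun p : ℕ => p.Prime ∧ √(M : ℝ) < p)).card : ℝ) + ⌊√(M : ℝ)⌋₊ := by exact_mod_cast hsplit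
  have h5 : (⌊√(M : ℝ)⌋₊ : ℝ) ≤ √(M : ℝ) := Nat.floor_le (Real.sqrt_nonneg _)
  have h6 : √(M : ℝ) ≤ ε / 2 * (M / Real.log M) := by
    rw [← mul_div_assoc, le_div_iff₀ hL]
    have h8 : √(M : ℝ) * √(M : ℝ) = M := Real.mul_self_sqrt hM0.le
    calc √(M : ℝ) * Real.log M ≤ √(M : ℝ) * (ε / 2 * √(M : ℝ)) := mul_le_mul_of_nonneg_left h1 (Real.sqrt_nonneg _)
      _ = ε / 2 * (√(M : ℝ) * √(M : ℝ)) := by ring
      _ = _ := by rw [h8]
  linarith

/-- the missing primes -/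
lemma missing (hPC : StPC) (A : Set ℕ) (η ε : ℝ) (hη : 0 < η) (hε : 0 < ε) (hA : 1 - η ≤ relLower A) :
    ∃ M0 : ℕ, ∀ M : ℕ, M0 ≤ M → ∀ N : ℕ, ((BN A N M).card : ℝ) * Real.log M / M ≤ η + ε := by
  classical
  obtain ⟨τ, hτ⟩ : ∃ τ : ℝ, τ = min (ε / (2 * (η + 1))) (min (ε / 4) 1) := ⟨_, rfl⟩
  have hτ0 : 0 < τ := by rw [hτ]; positivity
  obtain ⟨M1, hM1⟩ := pi_upper hPC τ hτ0
  have hr0 : ∀ n : ℕ, 0 ≤ (cnt {p | p.Prime ∧ p ∈ A} n : ℝ) / (cnt {p | p.Prime} n : ℝ) := fun n => by positivity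
  have hr1 : ∀ n : ℕ, (cnt {p | p.Prime ∧ p ∈ A} n : ℝ) / (cnt {p | p.Prime} n : ℝ) ≤ 1 := by
    intro n
    apply div_le_one_of_le₀ _ (Nat.cast_nonneg _)
    have h1 : {p : ℕ | p.Prime ∧ p ∈ A} ⊆ {p | p.Prime} := fun p hp => hp.1
    exact_mod_cast cnt_subset h1 n
  have h1 : 1 - η - τ < relLower A := by linarith
  unfold relLower at h1
  have h2 := eventually_lt_of_lt_liminf h1 (isBoundedUnder_of ⟨0, hr0⟩)
  obtain ⟨M2, hM2⟩ := eventually_atTop.1 h2
  refine ⟨M1 + M2 + 3, ?_⟩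
  intro M hM N
  have h3 := hM2 M (by omega)
  have h4 := hM1 M (by omega)
  have hMr : (3 : ℝ) ≤ M := by exact_mod_cast (by omega : 3 ≤ M)
  have hL : 0 < Real.log M := Real.log_pos (by linarith)
  have hπ0 : 0 < cnt {p | p.Prime} M := by
    rw [cnt_eq]
    apply card_pos.2
    refine ⟨2, ?_⟩
    rw [mem_cntS]
    exact ⟨⟨by norm_num, by omega⟩, Nat.prime_two⟩
  have hπ : (0 : ℝ) < cnt {p | p.Prime} M := by exact_mod_cast hπ0
  rw [lt_div_iff₀ hπ] at h3
  -- |BN| ≤ π - cnt A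
  have h5 : (BN A N M).card + cnt {p | p.Prime ∧ p ∈ A} M ≤ cnt {p | p.Prime} M := by
    rw [cnt_eq, cnt_eq, ← card_union_of_disjoint]
    · apply card_le_card
      intro p hp
      rw [mem_union, mem_BN, mem_PN, mem_cntS] at hp
      rw [mem_cntS]
      rcases hp with hp | hp
      · exact ⟨⟨hp.1.2.1.pos, hp.1.1⟩, hp.1.2.1⟩
      · exact ⟨hp.1, hp.2.1⟩
    · rw [Finset.disjoint_left]
      intro p hp1 hp2
      rw [mem_BN] at hp1
      rw [mem_cntS] at hp2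
      exact hp1.2 hp2.2.2
  have h6 : ((BN A N M).card : ℝ) + cnt {p | p.Prime ∧ p ∈ A} M ≤ cnt {p | p.Prime} M := by exact_mod_cast h5
  have h7 : ((BN A N M).card : ℝ) ≤ (η + τ) * cnt {p | p.Prime} M := by linarith
  have h8 : ((BN A N M).card : ℝ) ≤ (η + τ) * ((1 + τ) * (M / Real.log M)) :=
    h7.trans (mul_le_mul_of_nonneg_left h4 (by linarith))
  have hM0 : (0 : ℝ) < M := by linarith
  calc ((BN A N M).card : ℝ) * Real.log M / M ≤ (η + τ) * ((1 + τ) * (M / Real.log M)) * Real.log M / M := by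
        apply div_le_div_of_nonneg_right _ hM0.le
        exact mul_le_mul_of_nonneg_right h8 hL.le
    _ = (η + τ) * (1 + τ) := by field_simp
    _ = η + η * τ + τ + τ * τ := by ring
    _ ≤ η + ε := by
        have e1 : τ ≤ ε / (2 * (η + 1)) := by rw [hτ]; exact min_le_left _ _
        have e2 : τ ≤ ε / 4 := by rw [hτ]; exact (min_le_right _ _).trans (min_le_left _ _)
        have e3 : τ ≤ 1 := by rw [hτ]; exact (min_le_right _ _).trans (min_le_right _ _)
        rw [le_div_iff₀ (by positivity)] at e1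
        nlinarith

/-- deleted primes: the upper bound -/
theorem deleted_upper (hPC : StPC) (hBil : StBil) (κ δ : ℝ) (hκ0 : 0 ≤ κ) (hκ1 : κ < 1) (hδ : 0 < δ) :
    ∃ η0 : ℝ, 0 < η0 ∧ ∀ η : ℝ, 0 < η → η ≤ η0 → ∀ A : Set ℕ, 1 - η ≤ relLower A →
    upperDensity {n | Even n ∧ (rep A n : ℝ) ≤ κ * rep Set.univ n} ≤
      Real.exp (-Real.exp (((1 - κ) * (C2 * Real.exp (-Real.eulerMascheroniConstant)) - δ) / η)) := by
  -- it is enough to treat small `δ`
  obtain ⟨D, hD⟩ : ∃ D : ℝ, D = C2 * Real.exp (-Real.eulerMascheroniConstant) := ⟨_, rfl⟩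
  have hD0 : 0 < D := by rw [hD]; exact D_pos
  obtain ⟨δ', hδ'⟩ : ∃ δ' : ℝ, δ' = min δ ((1 - κ) * D / 2) := ⟨_, rfl⟩
  have hκ' : 0 < 1 - κ := by linarith
  have hδ'0 : 0 < δ' := by rw [hδ']; positivity
  have hδ'1 : δ' ≤ δ := by rw [hδ']; exact min_le_left _ _
  have hδ'2 : δ' ≤ (1 - κ) * D / 2 := by rw [hδ']; exact min_le_right _ _
  obtain ⟨X, hX⟩ : ∃ X : ℝ, X = (1 - κ) * D - δ' := ⟨_, rfl⟩
  have hX0 : 0 < X := by
    have : 0 < (1 - κ) * D := by positivity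
    rw [hX]
    linarith
  obtain ⟨h0, hh0, hh16, hfw⟩ := finite_window hPC hBil κ (δ' / 4) hκ0 hκ1 (by positivity)
  rw [← hD] at hfw ⊢
  -- choice of `η0`
  obtain ⟨Q, hQ⟩ : ∃ Q : ℝ, Q = Real.log (1 / h0) + 1 := ⟨_, rfl⟩
  have hQ1 : 1 < Q := by
    have h1 : (1 : ℝ) < 1 / h0 := by
      rw [lt_div_iff₀ hh0]
      linarith
    have := Real.log_pos h1
    rw [hQ]
    linarith
  refine ⟨min (δ' / 16) (X / Q), by positivity, ?_⟩
  intro η hη hη0 A hA
  have hη1 : η ≤ δ' / 16 := hη0.trans (min_le_left _ _)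
  have hη2 : η ≤ X / Q := hη0.trans (min_le_right _ _)
  obtain ⟨h, hh⟩ : ∃ h : ℝ, h = Real.exp (-Real.exp (X / η)) := ⟨_, rfl⟩
  have hh_pos : 0 < h := by rw [hh]; exact Real.exp_pos _
  have hXη : Q ≤ X / η := by
    rw [le_div_iff₀ hη]
    rw [le_div_iff₀ (by linarith)] at hη2
    linarith
  have hhle : h ≤ h0 := by
    have h1 : Real.log (1 / h0) ≤ Real.exp (X / η) := by
      have h2 := Real.add_one_le_exp (X / η)
      linarith
    have h2 : -Real.exp (X / η) ≤ Real.log h0 := by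
      rw [one_div, Real.log_inv] at h1
      linarith
    rw [hh]
    calc Real.exp (-Real.exp (X / η)) ≤ Real.exp (Real.log h0) := Real.exp_le_exp.2 h2
      _ = h0 := Real.exp_log hh0
  have hgoal : h ≤ Real.exp (-Real.exp (((1 - κ) * D - δ) / η)) := by
    rw [hh]
    apply Real.exp_le_exp.2
    apply neg_le_neg
    apply Real.exp_le_exp.2
    apply div_le_div_of_nonneg_right _ hη.le
    rw [hX]
    linarith
  refine le_trans ?_ hgoal
  by_contra hcon
  push Not at hcon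
  obtain ⟨S, hS⟩ : ∃ S : Set ℕ, S = {n | Even n ∧ (rep A n : ℝ) ≤ κ * rep Set.univ n} := ⟨_, rfl⟩
  rw [← hS] at hcon
  -- parameters
  obtain ⟨θ0, hθ0, hfw2⟩ := hfw (h / 4) (by positivity) (by linarith)
  obtain ⟨θ, hθ⟩ : ∃ θ : ℝ, θ = h / 8 * min θ0 1 := ⟨_, rfl⟩
  have hθ0' : 0 < θ := by rw [hθ]; positivity
  have hθ1 : θ ≤ h / 8 := by
    rw [hθ]
    exact mul_le_of_le_one_right (by positivity) (min_le_right _ _)
  have hθ2 : θ ≤ h / 8 * θ0 := by
    rw [hθ]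
    exact mul_le_mul_of_nonneg_left (min_le_left _ _) (by positivity)
  obtain ⟨N0, hN0⟩ := hfw2 (θ / 4) (by positivity)
  obtain ⟨x0, hx0⟩ := exists_window S h θ hh_pos (by linarith) hθ0' hθ1
  obtain ⟨ε, hε⟩ : ∃ ε : ℝ, ε = η ^ 2 / (X + 2 * η) := ⟨_, rfl⟩
  have hε0 : 0 < ε := by rw [hε]; positivity
  obtain ⟨M1, hM1⟩ := missing hPC A η ε hη hε0 hA
  obtain ⟨x1, hx1⟩ := exists_nat_ge (8 * (M1 + 2) / h)
  obtain ⟨x2, hx2⟩ := exists_nat_ge (2 / θ)
  -- frequently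
  have hfreq : ∃ᶠ n : ℕ in atTop, h * n ≤ cnt S n := by
    unfold upperDensity at hcon
    have h1 := frequently_lt_of_lt_limsup (ratio_bdd_below S).isCoboundedUnder_le hcon
    have h2 := h1.and_eventually (eventually_ge_atTop 1)
    refine h2.mono ?_
    rintro n ⟨h3, h4⟩
    have h5 : (0 : ℝ) < n := by exact_mod_cast h4
    rw [lt_div_iff₀ h5] at h3
    exact h3.le
  obtain ⟨x, hxc, hxg⟩ := (hfreq.and_eventually (eventually_ge_atTop (N0 + x0 + x1 + x2 + 1))).exists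
  obtain ⟨M, H, hH1, hH2, hM1', hM2, hcard⟩ := hx0 x (by omega) hxc
  have hxr : (0 : ℝ) < x := by exact_mod_cast (by omega : 0 < x)
  have hhx : 8 * ((M1 : ℝ) + 2) ≤ h * x := by
    have h1 : (x1 : ℝ) ≤ x := by exact_mod_cast (by omega : x1 ≤ x)
    have h2 := hx1.trans h1
    rw [div_le_iff₀ hh_pos] at h2
    linarith
  have hθx : 2 ≤ θ * x := by
    have h1 : (x2 : ℝ) ≤ x := by exact_mod_cast (by omega : x2 ≤ x)
    have h2 := hx2.trans h1
    rw [div_le_iff₀ hθ0'] at h2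
    linarith
  have hM1r : (0 : ℝ) ≤ M1 := Nat.cast_nonneg _
  have hMlow : h / 8 * x ≤ M := by linarith
  have hMM1 : M1 ≤ M := by
    have h1 : (M1 : ℝ) ≤ M := by linarith
    exact_mod_cast h1
  have hθle : θ * (x : ℝ) ≤ h / 8 * x := mul_le_mul_of_nonneg_right hθ1 hxr.le
  have hHx : H ≤ x := by
    have h1 : (H : ℝ) ≤ x := by nlinarith
    exact_mod_cast h1
  have hres := hN0 (2 * x) (by omega) M H (by omega) (by push_cast; linarith) (by push_cast; linarith) (by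
    calc (H : ℝ) ≤ θ * x := hH1
      _ ≤ h / 8 * θ0 * x := mul_le_mul_of_nonneg_right hθ2 hxr.le
      _ = θ0 * (h / 8 * x) := by ring
      _ ≤ θ0 * M := mul_le_mul_of_nonneg_left hMlow hθ0.le) A (win S M H) (win_subset S M H) (by
    intro n hn
    rw [mem_win, hS] at hn
    exact hn.2) (by linarith)
  have hmiss := hM1 M hMM1 (2 * x)
  -- the final inequality
  have hlog : Real.log (Real.log (1 / (h / 4))) ≤ X / η + 2 := by
    have h1 : Real.log (1 / (h / 4)) = Real.log 4 + Real.exp (X / η) := by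
      rw [one_div_div, Real.log_div (by norm_num) hh_pos.ne', hh, Real.log_exp]
      ring
    rw [h1]
    have h2 : Real.log 4 ≤ 2 := by
      have h3 : Real.log 4 = 2 * Real.log 2 := by
        rw [show (4 : ℝ) = 2 ^ 2 by norm_num, Real.log_pow]
        norm_num
      have := Real.log_two_lt_d9
      linarith
    have h4 : 1 ≤ Real.exp (X / η) := Real.one_le_exp (by positivity)
    have h5 : Real.log 4 + Real.exp (X / η) ≤ Real.exp (X / η + 2) := by
      rw [Real.exp_add]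
      have h6 : 3 ≤ Real.exp 2 := by
        have := Real.add_one_le_exp (2 : ℝ)
        linarith
      nlinarith
    have h6 : 0 < Real.log 4 := Real.log_pos (by norm_num)
    calc Real.log (Real.log 4 + Real.exp (X / η)) ≤ Real.log (Real.exp (X / η + 2)) :=
          Real.log_le_log (by positivity) h5
      _ = _ := Real.log_exp _
  have hll0 : 0 ≤ X / η + 2 := by positivity
  have h9 : (0 : ℝ) ≤ ((BN A (2 * x) M).card : ℝ) * Real.log M / M := by
    have := Real.log_natCast_nonneg M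
    positivity
  have h10 : Real.log (Real.log (1 / (h / 4))) * (((BN A (2 * x) M).card : ℝ) * Real.log M / M) ≤
      (X / η + 2) * (η + ε) :=
    (mul_le_mul_of_nonneg_right hlog h9).trans (mul_le_mul_of_nonneg_left hmiss hll0)
  have h11 : (X / η + 2) * (η + ε) = X + 3 * η := by
    rw [hε]
    field_simp
    ring
  rw [h11] at h10
  linarith

end Pool.Agent.TH881.RG
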