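import Mathlib
import Pool.Agent.TH881.RG.MixG

/-! Mixing for differences. -/

set_option autoImplicit false

namespace Pool.Agent.TH881.RG
open Finset
open Pool.Agent.TH881
open Pool.Agent.H373R2.T7

lemma dist_refl (M a b : ℕ) (ha : a ≤ M) (hb : b ≤ M) : Nat.dist (M - a) (M - b) = Nat.dist a b := by
  simp only [Nat.dist]
  omega

/-- **Mixing for differences.** -/
theorem mixD (hPM : StPM) (κ ε ρ : ℝ) (hκ : 0 < κ) (hκ1 : κ ≤ 1) (hε : 0 < ε) (hε1 : ε < 1) (hρ : 0 < ρ) :
    ∃ w0 : ℕ, ∀ w : ℕ, w0 ≤ w → ∃ N0 : ℕ, ∀ N : ℕ, N0 ≤ N → ∀ M M' H t : ℕ, M' < t → t ≤ M' + Wp w →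
    M' + M + H ≤ N → ρ * N ≤ H → ρ * N ≤ M →
    ∀ B : Finset ℕ, (∀ b ∈ B, b ≤ M) → (∀ b ∈ B, b.Prime) → (∀ b ∈ B, √(N : ℝ) < b) →
    (∀ b ∈ B, ∀ b' ∈ B, b ≡ b' [MOD Wp w]) → (∀ b ∈ B, (t + b).Coprime (Wp w)) →
    κ * ((M : ℝ) / (Nat.totient (Wp w) * Real.log M)) ≤ B.card →
    ∀ E ⊆ It w M' H t,
      |∑ n ∈ E, ∑ b ∈ B, ArithmeticFunction.vonMangoldt (n + b) - E.card * ((Vz w)⁻¹ * B.card)| ≤
        ε * (((H : ℝ) / Wp w) * ((Vz w)⁻¹ * B.card)) := by
  classical
  obtain ⟨κ', hκ'⟩ : ∃ κ' : ℝ, κ' = κ * min ρ 1 := ⟨_, rfl⟩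
  have hκ'0 : 0 < κ' := by rw [hκ']; positivity
  have hκ'1 : κ' ≤ 1 := by
    rw [hκ']
    calc κ * min ρ 1 ≤ 1 * 1 := mul_le_mul hκ1 (min_le_right _ _) (by positivity) zero_le_one
      _ = 1 := one_mul 1
  obtain ⟨J, hJ, hJ2⟩ := root_close (100 / κ) (ε ^ 2 / 100) (by positivity) (by positivity)
  obtain ⟨E0, hmixG⟩ := mixG κ' ε ρ hκ'0 hκ'1 hε hε1 hρ
  obtain ⟨w0, havg⟩ := avg_prime hPM J E0 hJ
  refine ⟨w0, fun w hw => ?_⟩
  obtain ⟨N1, h1⟩ := hmixG w
  obtain ⟨N2, h2⟩ := havg w hw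
  obtain ⟨N3, hN3⟩ := exists_nat_ge (2 / ρ)
  refine ⟨N1 + N2 + N3 + 1, ?_⟩
  intro N hN M M' H t hMt htM hMH hH hM B hB hBp hBz hcls hcop hcard E hE
  have hN1r : (1 : ℝ) ≤ N := by exact_mod_cast (by omega : 1 ≤ N)
  have hN0 : (0 : ℝ) < N := by linarith
  have hM2 : (2 : ℝ) ≤ M := by
    have a1 : (N3 : ℝ) ≤ N := by exact_mod_cast (by omega : N3 ≤ N)
    have a2 := hN3.trans a1
    rw [div_le_iff₀ hρ] at a2
    linarith
  have hM0 : (0 : ℝ) < M := by linarith
  have hφ : (0 : ℝ) < Nat.totient (Wp w) := by exact_mod_cast Nat.totient_pos.2 (Wp_pos w)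
  -- reflection
  obtain ⟨f, hf⟩ : ∃ f : ℕ → ℕ, f = fun b => M - b := ⟨_, rfl⟩
  have hinj : Set.InjOn f (B : Set ℕ) := by
    intro a ha b hb hab
    rw [mem_coe] at ha hb
    have e1 := hB a ha
    have e2 := hB b hb
    rw [hf] at hab
    have e3 : M - a = M - b := hab
    omega
  have hBc : (B.image f).card = B.card := card_image_of_injOn hinj
  have hE' : E.image (fun n => n + M) ⊆ It w (M' + M) H (t + M) := by
    intro m hm
    rw [mem_image] at hm
    obtain ⟨n, hn, rfl⟩ := hm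
    have h3 := hE hn
    unfold It at h3 ⊢
    rw [mem_filter, mem_Ioc] at h3 ⊢
    exact ⟨by omega, h3.2.add_right M⟩
  have hres := h1 N (by omega) (M' + M) H (t + M) (by omega) (by omega) (by omega) hH
    (by push_cast; have : (0 : ℝ) ≤ M' := Nat.cast_nonneg _; linarith) (B.image f)
    (by
      intro b hb
      rw [mem_image] at hb
      obtain ⟨c, hc, rfl⟩ := hb
      rw [hf]
      have : M - c ≤ M' + M := by omega
      exact this)
    (by
      intro b hb
      rw [mem_image] at hb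
      obtain ⟨c, hc, rfl⟩ := hb
      have e1 := hB c hc
      have e2 : t + M - f c = t + c := by
        rw [hf]
        have : t + M - (M - c) = t + c := by omega
        exact this
      rw [e2]
      exact hcop c hc)
    (by
      rw [hBc]
      refine le_trans ?_ hcard
      rw [hκ', mul_assoc]
      apply mul_le_mul_of_nonneg_left _ hκ.le
      rw [← mul_div_assoc]
      have hMM : (M : ℝ) ≤ (M' + M : ℕ) := by push_cast; have : (0 : ℝ) ≤ M' := Nat.cast_nonneg _; linarith
      have hlM : 0 < Real.log M := Real.log_pos (by linarith)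
      have hlog : Real.log M ≤ Real.log ((M' + M : ℕ) : ℝ) := Real.log_le_log hM0 hMM
      have hMN : ((M' + M : ℕ) : ℝ) ≤ N := by exact_mod_cast (by omega : M' + M ≤ N)
      apply div_le_div₀ hM0.le _ (by positivity) (mul_le_mul_of_nonneg_left hlog hφ.le)
      calc min ρ 1 * ((M' + M : ℕ) : ℝ) ≤ ρ * N := mul_le_mul (min_le_left _ _) hMN (Nat.cast_nonneg _) hρ.le
        _ ≤ M := hM)
    (by
      intro z hz1 hz2 b hb
      rw [mem_image] at hb
      obtain ⟨c, hc, rfl⟩ := hb
      rw [hBc]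
      have e1 : (B.image f).erase (f c) = (B.erase c).image f := by
        ext x
        rw [mem_erase, mem_image, mem_image]
        constructor
        · rintro ⟨hx, y, hy, rfl⟩
          refine ⟨y, ?_, rfl⟩
          rw [mem_erase]
          exact ⟨fun h => hx (by rw [h]), hy⟩
        · rintro ⟨y, hy, rfl⟩
          rw [mem_erase] at hy
          refine ⟨fun h => hy.1 (hinj (mem_coe.2 hy.2) (mem_coe.2 hc) h), y, hy.2, rfl⟩
      rw [e1, sum_image (fun x hx y hy h => hinj (mem_coe.2 (mem_of_mem_erase hx)) (mem_coe.2 (mem_of_mem_erase hy)) h)]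
      have e2 : ∑ x ∈ B.erase c, gw w z (Nat.dist (f c) (f x)) = ∑ x ∈ B.erase c, gw w z (Nat.dist c x) := by
        apply sum_congr rfl
        intro x hx
        rw [hf]
        have := dist_refl M c x (hB c hc) (hB x (mem_of_mem_erase hx))
        simp only
        rw [this]
      rw [e2]
      have e3 : √(N : ℝ) ≤ M := by
        have a1 := hBz c hc
        have a2 : (c : ℝ) ≤ M := by exact_mod_cast hB c hc
        linarith
      have e4 : ∀ b ∈ B, z < b := by
        intro b hb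
        have a1 := hBz b hb
        have a2 : (z : ℝ) < b := by linarith
        exact_mod_cast a2
      exact (h2 N (by omega) z hz1 M (by omega) e3 B hB hBp e4 hcls κ hκ hcard c hc).trans
        (mul_le_mul_of_nonneg_left hJ2 (Nat.cast_nonneg _)))
    (E.image (fun n => n + M)) hE'
  rw [hBc, card_image_of_injective _ (add_left_injective M), sum_image (fun x _ y _ h => add_left_injective M h)] at hres
  have e5 : ∀ n ∈ E, cv (fun k => ArithmeticFunction.vonMangoldt k) (B.image f) (n + M) =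
      ∑ b ∈ B, ArithmeticFunction.vonMangoldt (n + b) := by
    intro n hn
    have hn0 : 1 ≤ n := by
      have h3 := hE hn
      unfold It at h3
      rw [mem_filter, mem_Ioc] at h3
      omega
    unfold cv
    rw [filter_true_of_mem, sum_image (fun x hx y hy h => hinj (mem_coe.2 hx) (mem_coe.2 hy) h)]
    · apply sum_congr rfl
      intro b hb
      have e1 := hB b hb
      have e2 : n + M - f b = n + b := by
        rw [hf]
        have : n + M - (M - b) = n + b := by omega
        exact this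
      rw [e2]
    · intro x hx
      rw [mem_image] at hx
      obtain ⟨c, hc, rfl⟩ := hx
      rw [hf]
      have : M - c < n + M := by omega
      exact this
  rw [sum_congr rfl e5] at hres
  exact hres

end Pool.Agent.TH881.RG
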