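import Mathlib
import Pool.Agent.TH881.RG.MixD

/-! Mixing for differences, the elements of the window being subtracted. -/

set_option autoImplicit false

namespace Pool.Agent.TH881.RG
open Finset
open Pool.Agent.TH881
open Pool.Agent.H373R2.T7

/-- **Mixing for differences**, second form. -/
theorem mixD2 (hPM : StPM) (κ ε ρ : ℝ) (hκ : 0 < κ) (hκ1 : κ ≤ 1) (hε : 0 < ε) (hε1 : ε < 1) (hρ : 0 < ρ) :
    ∃ w0 : ℕ, ∀ w : ℕ, w0 ≤ w → ∃ N0 : ℕ, ∀ N : ℕ, N0 ≤ N → ∀ M M' H t : ℕ, M' < t → t ≤ M' + Wp w →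
    M ≤ N → ρ * N ≤ H → ρ * N ≤ (M : ℝ) - M' - H - 1 →
    ∀ B : Finset ℕ, (∀ b ∈ B, M' + H < b ∧ b ≤ M) → (∀ b ∈ B, b.Prime) → (∀ b ∈ B, √(N : ℝ) < b) →
    (∀ b ∈ B, ∀ b' ∈ B, b ≡ b' [MOD Wp w]) → (∀ b ∈ B, (b + Wp w * t - t).Coprime (Wp w)) →
    κ * ((M : ℝ) / (Nat.totient (Wp w) * Real.log M)) ≤ B.card →
    ∀ E ⊆ It w M' H t,
      |∑ n ∈ E, ∑ b ∈ B, ArithmeticFunction.vonMangoldt (b - n) - E.card * ((Vz w)⁻¹ * B.card)| ≤
        ε * (((H : ℝ) / Wp w) * ((Vz w)⁻¹ * B.card)) := by
  classical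
  obtain ⟨J, hJ, hJ2⟩ := root_close (100 / κ) (ε ^ 2 / 100) (by positivity) (by positivity)
  obtain ⟨E0, hmixG⟩ := mixG (κ / 2) ε ρ (by positivity) (by linarith) hε hε1 hρ
  obtain ⟨w0, havg⟩ := avg_prime hPM J E0 hJ
  refine ⟨w0, fun w hw => ?_⟩
  obtain ⟨N1, h1⟩ := hmixG w
  obtain ⟨N2, h2⟩ := havg w hw
  obtain ⟨N3, hN3⟩ := exists_nat_ge (2 / ρ)
  obtain ⟨N4, hN4⟩ := exists_nat_ge (1 / ρ ^ 2)
  refine ⟨N1 + N2 + N3 + N4 + 1, ?_⟩
  intro N hN M M' H t hMt htM hMN hH hM B hB hBp hBz hcls hcop hcard E hE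
  have hN1r : (1 : ℝ) ≤ N := by exact_mod_cast (by omega : 1 ≤ N)
  have hN0 : (0 : ℝ) < N := by linarith
  have hρN : 2 ≤ ρ * N := by
    have a1 : (N3 : ℝ) ≤ N := by exact_mod_cast (by omega : N3 ≤ N)
    have a2 := hN3.trans a1
    rw [div_le_iff₀ hρ] at a2
    linarith
  have hW := Wp_pos w
  have hφ : (0 : ℝ) < Nat.totient (Wp w) := by exact_mod_cast Nat.totient_pos.2 (Wp_pos w)
  have hlt : M' + H + 1 ≤ M := by
    have a1 : ((M' + H + 1 : ℕ) : ℝ) ≤ M := by push_cast; linarith
    exact_mod_cast a1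
  obtain ⟨G, hG⟩ : ∃ G : ℕ, G = M - M' - H - 1 := ⟨_, rfl⟩
  have hGr : (G : ℝ) = (M : ℝ) - M' - H - 1 := by
    have : G + M' + H + 1 = M := by omega
    have h3 : ((G + M' + H + 1 : ℕ) : ℝ) = M := by rw [this]
    push_cast at h3
    linarith
  have hG2 : (2 : ℝ) ≤ G := by rw [hGr]; linarith
  have hGM : (G : ℝ) ≤ M := by exact_mod_cast (by omega : G ≤ M)
  have hM0 : (0 : ℝ) < M := by linarith
  -- representative of the reflected class
  have htt : M' < t ∧ t ≤ M' + Wp w := ⟨hMt, htM⟩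
  -- `M - n` for `n ∈ E` lies in `(G, G + H]`
  obtain ⟨f, hf⟩ : ∃ f : ℕ → ℕ, f = fun b => M - b := ⟨_, rfl⟩
  have hinj : Set.InjOn f (B : Set ℕ) := by
    intro a ha b hb hab
    rw [mem_coe] at ha hb
    have e1 := hB a ha
    have e2 := hB b hb
    rw [hf] at hab
    have e3 : M - a = M - b := hab
    omega
  have hEn : ∀ n ∈ E, M' < n ∧ n ≤ M' + H ∧ n ≡ t [MOD Wp w] := by
    intro n hn
    have h3 := hE hn
    unfold It at h3
    rw [mem_filter, mem_Ioc] at h3
    exact ⟨h3.1.1, h3.1.2, h3.2⟩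
  have hinjE : Set.InjOn f (E : Set ℕ) := by
    intro a ha b hb hab
    rw [mem_coe] at ha hb
    have e1 := hEn a ha
    have e2 := hEn b hb
    rw [hf] at hab
    have e3 : M - a = M - b := hab
    omega
  have hBc : (B.image f).card = B.card := card_image_of_injOn hinj
  -- the class of `M - t`
  obtain ⟨t', ht1, ht2, ht3⟩ : ∃ t' : ℕ, G < t' ∧ t' ≤ G + Wp w ∧ t' + t ≡ M [MOD Wp w] := by
    obtain ⟨s, hs⟩ : ∃ s : ℕ, s = (M + Wp w * t - t + Wp w * (G + 1) - (G + 1)) % Wp w := ⟨_, rfl⟩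
    refine ⟨G + 1 + s, by omega, ?_, ?_⟩
    · have := Nat.mod_lt (M + Wp w * t - t + Wp w * (G + 1) - (G + 1)) hW
      omega
    · have e1 : s ≡ M + Wp w * t - t + Wp w * (G + 1) - (G + 1) [MOD Wp w] := by
        rw [hs]
        exact Nat.mod_modEq _ _
      have e2 : t ≤ Wp w * t := Nat.le_mul_of_pos_left t hW
      have e3 : G + 1 ≤ Wp w * (G + 1) := Nat.le_mul_of_pos_left _ hW
      have e4 : G + 1 + s + t ≡ G + 1 + (M + Wp w * t - t + Wp w * (G + 1) - (G + 1)) + t [MOD Wp w] :=
        (e1.add_left (G + 1)).add_right t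
      have e5 : G + 1 + (M + Wp w * t - t + Wp w * (G + 1) - (G + 1)) + t = M + Wp w * (t + (G + 1)) := by
        have e6 : Wp w * (t + (G + 1)) = Wp w * t + Wp w * (G + 1) := by ring
        rw [e6]
        generalize Wp w * t = X at *
        generalize Wp w * (G + 1) = Y at *
        omega
      rw [e5] at e4
      refine e4.trans ?_
      have : M + Wp w * (t + (G + 1)) ≡ M + 0 [MOD Wp w] :=
        Nat.ModEq.add_left M ((Nat.modEq_zero_iff_dvd).2 (dvd_mul_right _ _))
      rwa [add_zero] at this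
  have hE' : E.image f ⊆ It w G H t' := by
    intro m hm
    rw [mem_image] at hm
    obtain ⟨n, hn, rfl⟩ := hm
    have h3 := hEn n hn
    unfold It
    rw [mem_filter, mem_Ioc, hf]
    have e0 : (fun b => M - b) n = M - n := rfl
    rw [e0]
    refine ⟨by omega, ?_⟩
    have e1 : M - n + n ≡ t' + t [MOD Wp w] := by
      have : M - n + n = M := by omega
      rw [this]
      exact ht3.symm
    exact Nat.ModEq.add_right_cancel h3.2.2 e1
  have hcardG : κ / 2 * ((G : ℝ) / (Nat.totient (Wp w) * Real.log G)) ≤ B.card := by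
    refine le_trans ?_ hcard
    have hlG : 0 < Real.log G := Real.log_pos (by linarith)
    have hlM : 0 < Real.log M := Real.log_pos (by linarith)
    -- log M ≤ 2 log G
    have h5 : Real.log M ≤ 2 * Real.log G := by
      have a1 : (N4 : ℝ) ≤ N := by exact_mod_cast (by omega : N4 ≤ N)
      have a2 := hN4.trans a1
      rw [div_le_iff₀ (by positivity)] at a2
      have a3 : ρ * N ≤ G := by rw [hGr]; exact hM
      have a4 : (M : ℝ) ≤ N := by exact_mod_cast hMN
      have a5 : (M : ℝ) ≤ (G : ℝ) ^ 2 := by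
        calc (M : ℝ) ≤ N := a4
          _ = N * 1 := by ring
          _ ≤ N * (N * ρ ^ 2) := mul_le_mul_of_nonneg_left a2 hN0.le
          _ = (ρ * N) ^ 2 := by ring
          _ ≤ (G : ℝ) ^ 2 := pow_le_pow_left₀ (by positivity) a3 2
      have a6 := Real.log_le_log hM0 a5
      rw [Real.log_pow] at a6
      exact_mod_cast a6
    rw [div_mul_div_comm, ← mul_div_assoc, div_le_div_iff₀ (by positivity) (by positivity)]
    calc κ * (G : ℝ) * (Nat.totient (Wp w) * Real.log M) ≤ κ * (M : ℝ) * (Nat.totient (Wp w) * (2 * Real.log G)) := by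
          apply mul_le_mul (mul_le_mul_of_nonneg_left hGM hκ.le) (mul_le_mul_of_nonneg_left h5 hφ.le)
            (by positivity) (by positivity)
      _ = κ * M * (2 * (Nat.totient (Wp w) * Real.log G)) := by ring
  have hres := h1 N (by omega) G H t' ht1 ht2 (by omega) hH (by rw [hGr]; exact hM) (B.image f)
    (by
      intro b hb
      rw [mem_image] at hb
      obtain ⟨c, hc, rfl⟩ := hb
      have e1 := hB c hc
      rw [hf]
      have : M - c ≤ G := by omega
      exact this)
    (by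
      intro b hb
      rw [mem_image] at hb
      obtain ⟨c, hc, rfl⟩ := hb
      have e1 := hB c hc
      -- t' - (M - c) ≡ c - t
      have e2 : f c = M - c := by rw [hf]
      rw [e2]
      have e3 : M - c ≤ t' := by omega
      have e4 : t ≤ Wp w * t := Nat.le_mul_of_pos_left t hW
      have e5 : t' - (M - c) ≡ c + Wp w * t - t [MOD Wp w] := by
        have e6 : t' - (M - c) + (M - c + t) ≡ (c + Wp w * t - t) + (M - c + t) [MOD Wp w] := by
          have e7 : t' - (M - c) + (M - c + t) = t' + t := by omega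
          have e8 : (c + Wp w * t - t) + (M - c + t) = M + Wp w * t := by omega
          rw [e7, e8]
          refine ht3.trans ?_
          have : M + 0 ≡ M + Wp w * t [MOD Wp w] :=
            Nat.ModEq.add_left M ((Nat.modEq_zero_iff_dvd).2 (dvd_mul_right _ _)).symm
          rwa [add_zero] at this
        exact Nat.ModEq.add_right_cancel' _ e6
      have e9 := hcop c hc
      have e10 : Nat.gcd (t' - (M - c)) (Wp w) = Nat.gcd (c + Wp w * t - t) (Wp w) := e5.gcd_eq
      unfold Nat.Coprime at e9 ⊢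
      rw [e10]
      exact e9)
    (by rw [hBc]; exact hcardG)
    (by
      intro z hz1 hz2 b hb
      rw [mem_image] at hb
      obtain ⟨c, hc, rfl⟩ := hb
      rw [hBc]
      have e1 : (B.image f).erase (f c) = (B.erase c).image f := by
        ext x
        rw [mem_erase, mem_image, mem_image]
        constructor
        · rintro ⟨hx, y, hy, rfl⟩
          refine ⟨y, ?_, rfl⟩
          rw [mem_erase]
          exact ⟨fun h => hx (by rw [h]), hy⟩
        · rintro ⟨y, hy, rfl⟩
          rw [mem_erase] at hy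
          refine ⟨fun h => hy.1 (hinj (mem_coe.2 hy.2) (mem_coe.2 hc) h), y, hy.2, rfl⟩
      rw [e1, sum_image (fun x hx y hy h => hinj (mem_coe.2 (mem_of_mem_erase hx)) (mem_coe.2 (mem_of_mem_erase hy)) h)]
      have e2 : ∑ x ∈ B.erase c, gw w z (Nat.dist (f c) (f x)) = ∑ x ∈ B.erase c, gw w z (Nat.dist c x) := by
        apply sum_congr rfl
        intro x hx
        rw [hf]
        have := dist_refl M c x (hB c hc).2 (hB x (mem_of_mem_erase hx)).2
        simp only
        rw [this]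
      rw [e2]
      have e3 : √(N : ℝ) ≤ M := by
        have a1 := hBz c hc
        have a2 : (c : ℝ) ≤ M := by exact_mod_cast (hB c hc).2
        linarith
      have e4 : ∀ b ∈ B, z < b := by
        intro b hb
        have a1 := hBz b hb
        have a2 : (z : ℝ) < b := by linarith
        exact_mod_cast a2
      exact (h2 N (by omega) z hz1 M hMN e3 B (fun b hb => (hB b hb).2) hBp e4 hcls κ hκ hcard c hc).trans
        (mul_le_mul_of_nonneg_left hJ2 (Nat.cast_nonneg _)))
    (E.image f) hE'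
  rw [hBc, card_image_of_injOn hinjE, sum_image (fun x hx y hy h => hinjE (mem_coe.2 hx) (mem_coe.2 hy) h)] at hres
  have e5 : ∀ n ∈ E, cv (fun k => ArithmeticFunction.vonMangoldt k) (B.image f) (f n) =
      ∑ b ∈ B, ArithmeticFunction.vonMangoldt (b - n) := by
    intro n hn
    have hn0 := hEn n hn
    unfold cv
    rw [filter_true_of_mem, sum_image (fun x hx y hy h => hinj (mem_coe.2 hx) (mem_coe.2 hy) h)]
    · apply sum_congr rfl
      intro b hb
      have e1 := hB b hb
      have e2 : f n - f b = b - n := by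
        rw [hf]
        have : M - n - (M - b) = b - n := by omega
        exact this
      rw [e2]
    · intro x hx
      rw [mem_image] at hx
      obtain ⟨c, hc, rfl⟩ := hx
      have e1 := hB c hc
      rw [hf]
      have : M - c < M - n := by omega
      exact this
  rw [sum_congr rfl e5] at hres
  exact hres

end Pool.Agent.TH881.RG
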