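import Mathlib
import Pool.Agent.TH881.RG.MixD2
import Pool.Agent.TH881.RG.Fz

/-! Statements for differences and for sums with one restricted summand. -/

set_option autoImplicit false

namespace Pool.Agent.TH881.RG
open Finset Filter Topology
open Pool.Agent.TH881
open Pool.Agent.H373R2.T7

/-- the bilinear estimate for differences -/
def StBD : Prop := ∀ (ε ρ : ℝ), 0 < ε → 0 < ρ → ∃ w0 : ℕ, ∀ w : ℕ, w0 ≤ w →
    ∃ N0 : ℕ, ∀ N : ℕ, N0 ≤ N → ∀ M M' H : ℕ, M' + M + H ≤ N → ρ * N ≤ H → ρ * N ≤ M →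
    ∀ E ⊆ Ioc M' (M' + H), ∀ B : Finset ℕ, (∀ b ∈ B, b.Prime ∧ √(N : ℝ) < b ∧ b ≤ M) →
    |∑ n ∈ E, ∑ b ∈ B, ArithmeticFunction.vonMangoldt (n + b) -
        YY w M H * ∑ a ∈ UU w, bbf w M B a * rr w (eef w H E) (-a)| ≤
      ε * (YY w M H * (Nat.totient (Wp w) : ℝ) ^ 2)

/-- the bilinear estimate for differences, second form -/
def StBD2 : Prop := ∀ (ε ρ : ℝ), 0 < ε → 0 < ρ → ∃ w0 : ℕ, ∀ w : ℕ, w0 ≤ w →
    ∃ N0 : ℕ, ∀ N : ℕ, N0 ≤ N → ∀ M M' H : ℕ, M ≤ N → ρ * N ≤ H → ρ * N ≤ (M : ℝ) - M' - H - 1 →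
    ∀ E ⊆ Ioc M' (M' + H), ∀ B : Finset ℕ, (∀ b ∈ B, b.Prime ∧ √(N : ℝ) < b ∧ M' + H < b ∧ b ≤ M) →
    |∑ n ∈ E, ∑ b ∈ B, ArithmeticFunction.vonMangoldt (b - n) -
        YY w M H * ∑ a ∈ UU w, bbf w M B a * rr w (eef w H E) a| ≤
      ε * (YY w M H * (Nat.totient (Wp w) : ℝ) ^ 2)

/-- the even numbers which are not differences of two primes of `A` -/
def nodiff (A : Set ℕ) : Set ℕ :=
  {n | Even n ∧ ¬ ∃ p q : ℕ, (p.Prime ∧ p ∈ A) ∧ (q.Prime ∧ q ∈ A) ∧ p = q + n}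

/-- the sums of a prime of `A` and a prime -/
def oneSum (A : Set ℕ) : Set ℕ := {n | ∃ p q : ℕ, (p.Prime ∧ p ∈ A) ∧ q.Prime ∧ p + q = n}

open Classical in
/-- the classes `t` for which `t - a` is a unit for some `a ∈ B` -/
noncomputable def sums (w : ℕ) (B : Finset (ZMod (Wp w))) : Finset (ZMod (Wp w)) :=
  univ.filter (fun t => ∃ a ∈ B, IsUnit (t - a))

/-- the least possible lower density of the sums of a set of primes of relative lower density at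
least `β` with all primes -/
noncomputable def FF (β : ℝ) : ℝ := sInf {d | ∃ A : Set ℕ, β ≤ relLower A ∧ d = lowerDensity (oneSum A)}

/-- the local version of `FF` -/
noncomputable def Floc (β : ℝ) : ℝ := sInf {d | ∃ w : ℕ, ∃ B ⊆ UU w,
  β * Nat.totient (Wp w) ≤ B.card ∧ d = ((sums w B).card : ℝ) / Wp w}

end Pool.Agent.TH881.RG
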