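import Mathlib
import Pool.Agent.TH881.RG.Un

/-! The local theorem for differences. -/

set_option autoImplicit false

namespace Pool.Agent.TH881.RG
open Finset
open Pool.Agent.TH881
open Pool.Agent.H373R2.T7

lemma exists_split (w : ℕ) (hw : 3 ≤ w) :
    ∃ m : ℕ, Nonempty (ZMod (Wp w) ≃+* ZMod 3 × ZMod m) := by
  have h3 : 3 ∣ Wp w := (prime_dvd_Wp Nat.prime_three).2 hw
  obtain ⟨m, hm⟩ := h3
  have hpz : Wp w = 3 * ∏ p ∈ (pz w).erase 3, p := by
    unfold Wp
    rw [mul_prod_erase (pz w) (fun p => p)]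
    rw [mem_pz]
    exact ⟨hw, Nat.prime_three⟩
  have hmm : m = ∏ p ∈ (pz w).erase 3, p := by
    have : 3 * m = 3 * ∏ p ∈ (pz w).erase 3, p := by rw [← hm, ← hpz]
    omega
  have hco : Nat.Coprime 3 m := by
    rw [hmm]
    apply Nat.Coprime.prod_right
    intro p hp
    rw [mem_erase, mem_pz] at hp
    exact (Nat.coprime_primes Nat.prime_three hp.2.2).2 (fun h => hp.1 h.symm)
  exact ⟨m, ⟨(ZMod.ringEquivCongr hm).trans (ZMod.chineseRemainder hco)⟩⟩

lemma unit_iff {w m : ℕ} (E : ZMod (Wp w) ≃+* ZMod 3 × ZMod m) (x : ZMod (Wp w)) :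
    IsUnit x ↔ (E x).1 ≠ 0 ∧ IsUnit (E x).2 := by
  have : Fact (Nat.Prime 3) := ⟨Nat.prime_three⟩
  have h1 : IsUnit (E x) ↔ IsUnit x := MulEquiv.isUnit_map E
  rw [← h1, Prod.isUnit_iff, isUnit_iff_ne_zero]

lemma three_cases (x : ZMod 3) : x = 0 ∨ x = 1 ∨ x = 2 := by
  revert x
  decide

lemma sum_UU_neg (w : ℕ) (g : ZMod (Wp w) → ℝ) : ∑ a ∈ UU w, g (-a) = ∑ a ∈ UU w, g a := by
  apply sum_bij (fun a _ => -a)
  · intro a ha
    rw [mem_UU] at ha ⊢
    exact ha.neg
  · intro a _ b _ h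
    exact neg_injective h
  · intro a ha
    refine ⟨-a, ?_, neg_neg a⟩
    rw [mem_UU] at ha ⊢
    exact ha.neg
  · intro a _
    rfl

open Classical in
/-- the weight transported to the class `1` modulo `3` -/
noncomputable def e1 {w m : ℕ} (E : ZMod (Wp w) ≃+* ZMod 3 × ZMod m) (f : ZMod (Wp w) → ℝ) (t : ZMod (Wp w)) : ℝ :=
  if (E t).1 = 1 then (f t + f (-t) + (f (t - E.symm (1, 0)) + f (-(t - E.symm (1, 0))))) / 4 else 0

lemma rr_symm {w : ℕ} (f : ZMod (Wp w) → ℝ) (a : ZMod (Wp w)) :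
    rr w f (-a) = rr w (fun t => f (-t)) a := by
  classical
  unfold rr
  rw [← Equiv.sum_comp (Equiv.neg (ZMod (Wp w)))]
  apply sum_congr rfl
  intro t _
  simp only [Equiv.neg_apply]
  have h1 : (-t - -a) = -(t - a) := by ring
  rw [h1]
  by_cases hu : IsUnit (t - a)
  · rw [if_pos hu.neg, if_pos hu]
  · rw [if_neg (fun h => hu ((IsUnit.neg_iff _).1 h)), if_neg hu]

lemma rr_add {w : ℕ} (f g : ZMod (Wp w) → ℝ) (a : ZMod (Wp w)) :
    rr w f a + rr w g a = rr w (fun t => f t + g t) a := by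
  classical
  unfold rr
  rw [← sum_add_distrib]
  apply sum_congr rfl
  intro t _
  split_ifs
  · rfl
  · ring

/-- the key identity -/
lemma rr_e1 {w m : ℕ} (E : ZMod (Wp w) ≃+* ZMod 3 × ZMod m) (f : ZMod (Wp w) → ℝ) (a : ZMod (Wp w))
    (ha : IsUnit a) : rr w (e1 E f) a = if (E a).1 = 2 then (rr w f a + rr w f (-a)) / 4 else 0 := by
  classical
  have hsub : ∀ x y : ZMod (Wp w), (E (x - y)).1 = (E x).1 - (E y).1 := by
    intro x y
    rw [map_sub]
    rfl
  have hsub2 : ∀ x y : ZMod (Wp w), (E (x - y)).2 = (E x).2 - (E y).2 := by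
    intro x y
    rw [map_sub]
    rfl
  have hc1 : (E (E.symm ((1 : ZMod 3), (0 : ZMod m)))).1 = 1 := by rw [RingEquiv.apply_symm_apply]
  have hc2 : (E (E.symm ((1 : ZMod 3), (0 : ZMod m)))).2 = 0 := by rw [RingEquiv.apply_symm_apply]
  by_cases h2 : (E a).1 = 2
  · rw [if_pos h2, rr_symm, rr_add]
    obtain ⟨g, hg⟩ : ∃ g : ZMod (Wp w) → ℝ, g = fun t => f t + f (-t) := ⟨_, rfl⟩
    rw [← hg]
    -- split the sum for `g`
    have h3 : rr w g a = ∑ t, (if IsUnit (t - a) ∧ (E t).1 = 1 then g t else 0) +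
        ∑ t, (if IsUnit (t - a) ∧ (E t).1 = 0 then g t else 0) := by
      unfold rr
      rw [← sum_add_distrib]
      apply sum_congr rfl
      intro t _
      by_cases hu : IsUnit (t - a)
      · have h4 := ((unit_iff E (t - a)).1 hu).1
        rw [hsub, h2] at h4
        rcases three_cases (E t).1 with h5 | h5 | h5
        · rw [if_pos hu, if_neg (by rw [h5]; rintro ⟨_, h⟩; exact absurd h (by decide)), if_pos ⟨hu, h5⟩]
          ring
        · rw [if_pos hu, if_pos ⟨hu, h5⟩, if_neg (by rw [h5]; rintro ⟨_, h⟩; exact absurd h (by decide))]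
          ring
        · exfalso
          apply h4
          rw [h5]
          ring
      · rw [if_neg hu, if_neg (fun h => hu h.1), if_neg (fun h => hu h.1)]
        ring
    have h4 : ∑ t, (if IsUnit (t - a) ∧ (E t).1 = 0 then g t else 0) =
        ∑ t, (if IsUnit (t - a) ∧ (E t).1 = 1 then g (t - E.symm (1, 0)) else 0) := by
      rw [← Equiv.sum_comp (Equiv.subRight (E.symm ((1 : ZMod 3), (0 : ZMod m))))]
      apply sum_congr rfl
      intro t _
      simp only [Equiv.subRight_apply]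
      have h5 : (IsUnit (t - E.symm (1, 0) - a) ∧ (E (t - E.symm (1, 0))).1 = 0) ↔
          (IsUnit (t - a) ∧ (E t).1 = 1) := by
        rw [unit_iff E, unit_iff E (t - a), hsub, hsub, hsub2, hsub2, hsub, hsub2, hc1, hc2, sub_zero, h2]
        constructor
        · rintro ⟨⟨_, h7⟩, h8⟩
          have h9 : (E t).1 = 1 := by
            have : (E t).1 = (E t).1 - 1 + 1 := by ring
            rw [this, h8]
            decide
          refine ⟨⟨?_, h7⟩, h9⟩
          rw [h9]
          decide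
        · rintro ⟨⟨_, h7⟩, h8⟩
          refine ⟨⟨?_, h7⟩, ?_⟩
          · rw [h8]
            decide
          · rw [h8]
            decide
      by_cases h6 : IsUnit (t - a) ∧ (E t).1 = 1
      · rw [if_pos (h5.2 h6), if_pos h6]
      · rw [if_neg (fun h => h6 (h5.1 h)), if_neg h6]
    rw [h3, h4, ← sum_add_distrib, sum_div]
    unfold rr
    apply sum_congr rfl
    intro t _
    unfold e1
    rw [hg]
    by_cases hu : IsUnit (t - a)
    · by_cases h5 : (E t).1 = 1
      · rw [if_pos hu, if_pos h5, if_pos ⟨hu, h5⟩, if_pos ⟨hu, h5⟩]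
      · rw [if_pos hu, if_neg h5, if_neg (fun h => h5 h.2), if_neg (fun h => h5 h.2)]
        ring
    · rw [if_neg hu, if_neg (fun h => hu h.1), if_neg (fun h => hu h.1)]
      ring
  · rw [if_neg h2]
    unfold rr
    apply sum_eq_zero
    intro t _
    by_cases hu : IsUnit (t - a)
    · rw [if_pos hu]
      unfold e1
      have h3 := ((unit_iff E (t - a)).1 hu).1
      have h4 := ((unit_iff E a).1 ha).1
      rw [hsub] at h3
      have h5 : (E a).1 = 1 := by
        rcases three_cases (E a).1 with h | h | h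
        · exact absurd h h4
        · exact h
        · exact absurd h h2
      rw [if_neg]
      intro h6
      apply h3
      rw [h6, h5]
      ring
    · rw [if_neg hu]

lemma sum_e1 {w m : ℕ} (E : ZMod (Wp w) ≃+* ZMod 3 × ZMod m) (f : ZMod (Wp w) → ℝ) (hf : ∀ t, 0 ≤ f t) :
    (∑ t, f t) / 4 ≤ ∑ t, e1 E f t := by
  classical
  have hneg : ∀ x : ZMod (Wp w), (E (-x)).1 = -(E x).1 := by
    intro x
    rw [map_neg]
    rfl
  have hsub : ∀ x y : ZMod (Wp w), (E (x - y)).1 = (E x).1 - (E y).1 := by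
    intro x y
    rw [map_sub]
    rfl
  have hc1 : (E (E.symm ((1 : ZMod 3), (0 : ZMod m)))).1 = 1 := by rw [RingEquiv.apply_symm_apply]
  have h1 : ∑ t, f t = ∑ t, (if (E t).1 = 1 then f t else 0) + ∑ t, (if (E t).1 = 2 then f t else 0) +
      ∑ t, (if (E t).1 = 0 then f t else 0) := by
    rw [← sum_add_distrib, ← sum_add_distrib]
    apply sum_congr rfl
    intro t _
    rcases three_cases (E t).1 with h | h | h
    · rw [h, if_neg (by decide), if_neg (by decide), if_pos rfl]; ring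
    · rw [h, if_pos rfl, if_neg (by decide), if_neg (by decide)]; ring
    · rw [h, if_neg (by decide), if_pos rfl, if_neg (by decide)]; ring
  have h2 : ∑ t, (if (E t).1 = 2 then f t else 0) = ∑ t, (if (E t).1 = 1 then f (-t) else 0) := by
    rw [← Equiv.sum_comp (Equiv.neg (ZMod (Wp w)))]
    apply sum_congr rfl
    intro t _
    simp only [Equiv.neg_apply]
    rw [hneg]
    rcases three_cases (E t).1 with h | h | h
    · rw [h, if_neg (by decide), if_neg (by decide)]
    · rw [h, if_pos (by decide), if_pos rfl]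
    · rw [h, if_neg (by decide), if_neg (by decide)]
  have h3 : ∑ t, (if (E t).1 = 0 then f t else 0) =
      ∑ t, (if (E t).1 = 1 then f (t - E.symm (1, 0)) else 0) := by
    rw [← Equiv.sum_comp (Equiv.subRight (E.symm ((1 : ZMod 3), (0 : ZMod m))))]
    apply sum_congr rfl
    intro t _
    simp only [Equiv.subRight_apply]
    rw [hsub, hc1]
    rcases three_cases (E t).1 with h | h | h
    · rw [h, if_neg (by decide), if_neg (by decide)]
    · rw [h, if_pos (by decide), if_pos rfl]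
    · rw [h, if_neg (by decide), if_neg (by decide)]
  rw [h1, h2, h3, ← sum_add_distrib, ← sum_add_distrib, sum_div]
  apply sum_le_sum
  intro t _
  unfold e1
  by_cases h : (E t).1 = 1
  · rw [if_pos h, if_pos h, if_pos h, if_pos h]
    have := hf (-(t - E.symm (1, 0)))
    linarith
  · rw [if_neg h, if_neg h, if_neg h, if_neg h]
    norm_num

lemma even_iff (w : ℕ) (t : ZMod (Wp w)) :
    (∃ n : ℕ, Even n ∧ (n : ZMod (Wp w)) = t) ↔ ∃ s : ZMod (Wp w), t = 2 * s := by
  constructor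
  · rintro ⟨n, ⟨k, hk⟩, rfl⟩
    refine ⟨(k : ZMod (Wp w)), ?_⟩
    rw [hk]
    push_cast
    ring
  · rintro ⟨s, rfl⟩
    refine ⟨2 * s.val, even_two_mul _, ?_⟩
    push_cast
    rw [ZMod.natCast_zmod_val]

/-- **the local theorem for differences** -/
theorem local_thmD (hMI : StMI) (hMB : StMB) (hWL : StWL) (δ : ℝ) (hδ : 0 < δ) :
    ∃ h0 : ℝ, 0 < h0 ∧ h0 < 1 / 16 ∧ ∀ h : ℝ, 0 < h → h ≤ h0 → ∀ w : ℕ, 3 ≤ w →
    ∀ f : ZMod (Wp w) → ℝ, (∀ t, 0 ≤ f t) → (∀ t, f t ≤ 1) →
    (∀ t, f t ≠ 0 → ∃ n : ℕ, Even n ∧ (n : ZMod (Wp w)) = t) →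
    h * Wp w ≤ ∑ t, f t → ∀ β : ZMod (Wp w) → ℝ, (∀ a, 0 ≤ β a) → (∀ a, β a ≤ 1) →
    ∀ lam : ℝ, 0 ≤ lam → lam ≤ 1 →
    lam * ∑ a ∈ UU w, rr w f a ≤ ∑ a ∈ UU w, β a * (rr w f a + rr w f (-a)) →
    (lam * (2 * C2 * Real.exp (-Real.eulerMascheroniConstant)) - δ) * Nat.totient (Wp w) ≤
      Real.log (Real.log (1 / (h / 4))) * ∑ a ∈ UU w, β a := by
  classical
  obtain ⟨h0, hh0, hh16, hloc⟩ := local_thm hMI hMB hWL (δ / 2) (by positivity)
  refine ⟨h0, hh0, hh16, ?_⟩
  intro h hh hhh w hw f hf0 hf1 hfe hfs β hβ0 hβ1 lam hlam0 hlam1 hmain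
  obtain ⟨m, ⟨E⟩⟩ := exists_split w hw
  obtain ⟨g, hg⟩ : ∃ g : ZMod (Wp w) → ℝ, g = e1 E f := ⟨_, rfl⟩
  have hg0 : ∀ t, 0 ≤ g t := by
    intro t
    rw [hg]
    unfold e1
    split_ifs
    · have h1 := hf0 t
      have h2 := hf0 (-t)
      have h3 := hf0 (t - E.symm (1, 0))
      have h4 := hf0 (-(t - E.symm (1, 0)))
      positivity
    · exact le_rfl
  have hg1 : ∀ t, g t ≤ 1 := by
    intro t
    rw [hg]
    unfold e1
    split_ifs
    · have h1 := hf1 t
      have h2 := hf1 (-t)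
      have h3 := hf1 (t - E.symm (1, 0))
      have h4 := hf1 (-(t - E.symm (1, 0)))
      linarith
    · exact zero_le_one
  have hc : ∃ s : ZMod (Wp w), E.symm ((1 : ZMod 3), (0 : ZMod m)) = 2 * s := by
    refine ⟨E.symm (2, 0), ?_⟩
    apply E.injective
    rw [map_mul, map_ofNat, RingEquiv.apply_symm_apply, RingEquiv.apply_symm_apply]
    ext
    · change (1 : ZMod 3) = (2 : ZMod 3) * 2
      decide
    · change (0 : ZMod m) = (2 : ZMod m) * 0
      ring
  obtain ⟨c, hc⟩ := hc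
  have hgz : ∀ t, wt w t = 0 → g t = 0 := by
    intro t ht
    by_contra hne
    have heven : ∃ s : ZMod (Wp w), t = 2 * s := by
      rw [hg] at hne
      unfold e1 at hne
      split_ifs at hne with h1
      · by_contra hcon
        apply hne
        have k1 : f t = 0 := by
          by_contra h2
          exact hcon ((even_iff w t).1 (hfe t h2))
        have k2 : f (-t) = 0 := by
          by_contra h2
          obtain ⟨s, hs⟩ := (even_iff w (-t)).1 (hfe _ h2)
          apply hcon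
          refine ⟨-s, ?_⟩
          rw [mul_neg, ← hs, neg_neg]
        have k3 : f (t - E.symm (1, 0)) = 0 := by
          by_contra h2
          obtain ⟨s, hs⟩ := (even_iff w _).1 (hfe _ h2)
          apply hcon
          refine ⟨s + c, ?_⟩
          rw [mul_add, ← hs, ← hc]
          ring
        have k4 : f (-(t - E.symm (1, 0))) = 0 := by
          by_contra h2
          obtain ⟨s, hs⟩ := (even_iff w _).1 (hfe _ h2)
          apply hcon
          refine ⟨-s + c, ?_⟩
          rw [mul_add, mul_neg, ← hs, ← hc]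
          ring
        rw [k1, k2, k3, k4]
        norm_num
      · exact absurd rfl hne
    obtain ⟨n, hn, hnt⟩ := (even_iff w t).2 heven
    have := wt_ne_zero w n hn
    rw [hnt] at this
    exact this ht
  have hgs : h / 4 * Wp w ≤ ∑ t, g t := by
    have h1 := sum_e1 E f hf0
    rw [hg]
    linarith
  -- the sums
  obtain ⟨r, hr⟩ : ∃ r : ZMod (Wp w) → ℝ, r = fun a => rr w f a + rr w f (-a) := ⟨_, rfl⟩
  have hr0 : ∀ a, 0 ≤ r a := by
    intro a
    rw [hr]
    exact add_nonneg (rr_nonneg hf0 a) (rr_nonneg hf0 (-a))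
  have hrneg : ∀ a, r (-a) = r a := by
    intro a
    rw [hr]
    simp only
    rw [neg_neg]
    ring
  have hrg : ∀ a ∈ UU w, rr w g a = if (E a).1 = 2 then r a / 4 else 0 := by
    intro a ha
    rw [hg, hr]
    exact rr_e1 E f a (mem_UU.1 ha)
  have hneg : ∀ x : ZMod (Wp w), (E (-x)).1 = -(E x).1 := by
    intro x
    rw [map_neg]
    rfl
  have hcase : ∀ a ∈ UU w, (E a).1 = 1 ∨ (E a).1 = 2 := by
    intro a ha
    have h1 := ((unit_iff E a).1 (mem_UU.1 ha)).1
    rcases three_cases (E a).1 with h | h | h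
    · exact absurd h h1
    · exact Or.inl h
    · exact Or.inr h
  -- splitting a sum over the units
  have hsplit : ∀ F : ZMod (Wp w) → ℝ, ∑ a ∈ UU w, F a =
      ∑ a ∈ UU w, (if (E a).1 = 2 then F a else 0) + ∑ a ∈ UU w, (if (E a).1 = 2 then F (-a) else 0) := by
    intro F
    have h1 : ∑ a ∈ UU w, (if (E a).1 = 2 then F (-a) else 0) = ∑ a ∈ UU w, (if (E a).1 = 1 then F a else 0) := by
      rw [← sum_UU_neg w (fun a => if (E a).1 = 1 then F a else 0)]
      apply sum_congr rfl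
      intro a ha
      rw [hneg]
      rcases hcase a ha with h | h
      · rw [h, if_neg (by decide), if_neg (by decide)]
      · rw [h, if_pos rfl, if_pos (by decide)]
    rw [h1, ← sum_add_distrib]
    apply sum_congr rfl
    intro a ha
    rcases hcase a ha with h | h
    · rw [h, if_neg (by decide), if_pos rfl]; ring
    · rw [h, if_pos rfl, if_neg (by decide)]; ring
  obtain ⟨R, hR⟩ : ∃ R : ℝ, R = ∑ a ∈ UU w, rr w f a := ⟨_, rfl⟩
  obtain ⟨Q, hQ⟩ : ∃ Q : ℝ, Q = ∑ a ∈ UU w, rr w g a := ⟨_, rfl⟩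
  have hQR : Q = R / 4 := by
    have h1 : ∑ a ∈ UU w, r a = 2 * R := by
      rw [hr, sum_add_distrib, sum_UU_neg w (fun a => rr w f a), hR]
      ring
    have h2 := hsplit r
    have h3 : ∑ a ∈ UU w, (if (E a).1 = 2 then r (-a) else 0) = ∑ a ∈ UU w, (if (E a).1 = 2 then r a else 0) := by
      apply sum_congr rfl
      intro a _
      rw [hrneg]
    rw [h3] at h2
    have h4 : Q = (∑ a ∈ UU w, (if (E a).1 = 2 then r a else 0)) / 4 := by
      rw [hQ, sum_div]
      apply sum_congr rfl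
      intro a ha
      rw [hrg a ha]
      split_ifs
      · rfl
      · norm_num
    rw [h4]
    linarith
  have hR0 : 0 ≤ R := by
    rw [hR]
    exact sum_nonneg fun a _ => rr_nonneg hf0 a
  obtain ⟨β1, hβ1d⟩ : ∃ b : ZMod (Wp w) → ℝ, b = fun a => if (E a).1 = 2 then β a else 0 := ⟨_, rfl⟩
  obtain ⟨β2, hβ2d⟩ : ∃ b : ZMod (Wp w) → ℝ, b = fun a => if (E a).1 = 2 then β (-a) else 0 := ⟨_, rfl⟩
  have b10 : ∀ a, 0 ≤ β1 a := by
    intro a
    rw [hβ1d]
    simp only
    split_ifs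
    · exact hβ0 a
    · exact le_rfl
  have b20 : ∀ a, 0 ≤ β2 a := by
    intro a
    rw [hβ2d]
    simp only
    split_ifs
    · exact hβ0 (-a)
    · exact le_rfl
  have b11 : ∀ a, β1 a ≤ 1 := by
    intro a
    rw [hβ1d]
    simp only
    split_ifs
    · exact hβ1 a
    · exact zero_le_one
  have b21 : ∀ a, β2 a ≤ 1 := by
    intro a
    rw [hβ2d]
    simp only
    split_ifs
    · exact hβ1 (-a)
    · exact zero_le_one
  have hβsum : ∑ a ∈ UU w, β1 a + ∑ a ∈ UU w, β2 a = ∑ a ∈ UU w, β a := by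
    rw [hsplit β, hβ1d, hβ2d]
  obtain ⟨P1, hP1⟩ : ∃ P : ℝ, P = ∑ a ∈ UU w, β1 a * rr w g a := ⟨_, rfl⟩
  obtain ⟨P2, hP2⟩ : ∃ P : ℝ, P = ∑ a ∈ UU w, β2 a * rr w g a := ⟨_, rfl⟩
  have hP10 : 0 ≤ P1 := by
    rw [hP1]
    exact sum_nonneg fun a _ => mul_nonneg (b10 a) (rr_nonneg hg0 a)
  have hP20 : 0 ≤ P2 := by
    rw [hP2]
    exact sum_nonneg fun a _ => mul_nonneg (b20 a) (rr_nonneg hg0 a)
  have hP1Q : P1 ≤ Q := by
    rw [hP1, hQ]
    apply sum_le_sum
    intro a _
    exact mul_le_of_le_one_left (rr_nonneg hg0 a) (b11 a)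
  have hP2Q : P2 ≤ Q := by
    rw [hP2, hQ]
    apply sum_le_sum
    intro a _
    exact mul_le_of_le_one_left (rr_nonneg hg0 a) (b21 a)
  have hPP : lam * Q ≤ P1 + P2 := by
    have h1 : P1 + P2 = (∑ a ∈ UU w, β a * r a) / 4 := by
      rw [hsplit (fun a => β a * r a), hP1, hP2, ← sum_add_distrib, ← sum_add_distrib, sum_div]
      apply sum_congr rfl
      intro a ha
      rw [hrg a ha, hβ1d, hβ2d]
      simp only
      rw [hrneg]
      split_ifs
      · ring
      · ring
    rw [h1, hQR]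
    have h2 : lam * R ≤ ∑ a ∈ UU w, β a * r a := by
      rw [hR, hr]
      exact hmain
    linarith
  have hφ := totient_Wp_pos w
  have hLL : 0 ≤ Real.log (Real.log (1 / (h / 4))) := by
    apply Real.log_nonneg
    have h1 : (16 : ℝ) ≤ 1 / (h / 4) := by
      rw [le_div_iff₀ (by positivity)]
      linarith
    have h2 : Real.exp 1 ≤ 1 / (h / 4) := by
      have := Real.exp_one_lt_d9
      linarith
    have h3 := Real.log_le_log (Real.exp_pos _) h2
    rwa [Real.log_exp] at h3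
  have hD : 0 ≤ 2 * C2 * Real.exp (-Real.eulerMascheroniConstant) := by
    have hC2 : 0 ≤ C2 := by
      unfold C2
      apply Real.iInf_nonneg
      intro z
      apply prod_nonneg
      intro p hp
      rw [mem_filter, mem_Icc] at hp
      have hp3 : (3 : ℝ) ≤ p := by exact_mod_cast hp.1.1
      have h1 : 1 / ((p : ℝ) - 1) ^ 2 ≤ 1 := by
        rw [div_le_one (by nlinarith)]
        nlinarith
      linarith
    positivity
  have hQ0 : 0 ≤ Q := by rw [hQR]; positivity
  have happ : ∀ b : ZMod (Wp w) → ℝ, (∀ a, 0 ≤ b a) → (∀ a, b a ≤ 1) → ∀ l : ℝ, 0 ≤ l → l ≤ 1 →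
      l * Q ≤ ∑ a ∈ UU w, b a * rr w g a →
      (l * (2 * C2 * Real.exp (-Real.eulerMascheroniConstant)) - δ / 2) * Nat.totient (Wp w) ≤
      Real.log (Real.log (1 / (h / 4))) * ∑ a ∈ UU w, b a := by
    intro b hb0 hb1 l hl0 hl1 hle
    rw [hQ] at hle
    exact hloc (h / 4) (by positivity) (by linarith) w (by omega) g hg0 hg1 hgz hgs b hb0 hb1 l hl0 hl1 hle
  rcases eq_or_lt_of_le hQ0 with hQz | hQpos
  · have h1 := happ β hβ0 hβ1 lam hlam0 hlam1 (by
      rw [← hQz, mul_zero]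
      exact sum_nonneg fun a _ => mul_nonneg (hβ0 a) (rr_nonneg hg0 a))
    refine le_trans ?_ h1
    apply mul_le_mul_of_nonneg_right _ hφ.le
    linarith
  · have h1 := happ β1 b10 b11 (P1 / Q) (by positivity) (by rw [div_le_one hQpos]; exact hP1Q) (by
      rw [div_mul_cancel₀ _ hQpos.ne', hP1])
    have h2 := happ β2 b20 b21 (P2 / Q) (by positivity) (by rw [div_le_one hQpos]; exact hP2Q) (by
      rw [div_mul_cancel₀ _ hQpos.ne', hP2])
    have h3 : lam ≤ P1 / Q + P2 / Q := by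
      rw [← add_div, le_div_iff₀ hQpos]
      exact hPP
    have h4 : lam * (2 * C2 * Real.exp (-Real.eulerMascheroniConstant)) ≤
        (P1 / Q + P2 / Q) * (2 * C2 * Real.exp (-Real.eulerMascheroniConstant)) :=
      mul_le_mul_of_nonneg_right h3 hD
    rw [← hβsum, mul_add]
    calc (lam * (2 * C2 * Real.exp (-Real.eulerMascheroniConstant)) - δ) * Nat.totient (Wp w) ≤
        ((P1 / Q + P2 / Q) * (2 * C2 * Real.exp (-Real.eulerMascheroniConstant)) - δ) * Nat.totient (Wp w) :=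
          mul_le_mul_of_nonneg_right (by linarith) hφ.le
      _ = (P1 / Q * (2 * C2 * Real.exp (-Real.eulerMascheroniConstant)) - δ / 2) * Nat.totient (Wp w) +
          (P2 / Q * (2 * C2 * Real.exp (-Real.eulerMascheroniConstant)) - δ / 2) * Nat.totient (Wp w) := by ring
      _ ≤ _ := add_le_add h1 h2

end Pool.Agent.TH881.RG
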