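import Mathlib
import Pool.Agent.TH881.RG.LTD
import Pool.Agent.TH881.RG.StD
import Pool.Agent.TH881.RG.Fx

/-! Finite inequalities for differences. -/

set_option autoImplicit false

namespace Pool.Agent.TH881.RG
open Finset Filter Topology
open Pool.Agent.TH881
open Pool.Agent.H373R2.T7

/-- prime powers carry little mass -/
lemma powers_small (B : Finset ℕ) (N n : ℕ) (hN : 1 ≤ N) (hB : ∀ b ∈ B, n + b ≤ N) (h : ∀ b ∈ B, ¬ (n + b).Prime) :
    ∑ b ∈ B, ArithmeticFunction.vonMangoldt (n + b) ≤ 2 * √(N : ℝ) * Real.log N := by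
  have hN1 : (1 : ℝ) ≤ N := by exact_mod_cast hN
  have h1 := Chebyshev.psi_sub_theta_eq_sum_not_prime (N : ℝ)
  have h2 := Chebyshev.psi_sub_theta_le hN1
  rw [h1, Nat.floor_natCast] at h2
  refine le_trans ?_ h2
  have hinj : Set.InjOn (fun b => n + b) ((B : Finset ℕ) : Set ℕ) := by
    intro a _ b _ hab
    simp only at hab
    omega
  rw [← sum_image (f := fun k => ArithmeticFunction.vonMangoldt k) hinj]
  have h5 : ∑ k ∈ B.image (fun b => n + b), ArithmeticFunction.vonMangoldt k =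
      ∑ k ∈ (B.image (fun b => n + b)).filter (fun k => 1 ≤ k), ArithmeticFunction.vonMangoldt k := by
    rw [sum_filter]
    apply sum_congr rfl
    intro k _
    split_ifs with hk
    · rfl
    · have : k = 0 := by omega
      rw [this]
      simp
  rw [h5]
  apply sum_le_sum_of_subset_of_nonneg
  · intro k hk
    rw [mem_filter, mem_image] at hk
    obtain ⟨⟨b, hb, rfl⟩, hk1⟩ := hk
    rw [mem_filter, mem_Ioc]
    exact ⟨⟨by omega, hB b hb⟩, h b hb⟩
  · intro _ _ _
    exact ArithmeticFunction.vonMangoldt_nonneg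

/-- the primes in `(max (√N) L, M]` -/
noncomputable def PS (N M L : ℕ) : Finset ℕ := (PN N M).filter (fun p => L < p)

/-- the primes in `(max (√N) L, M]` outside `A` -/
noncomputable def BS (A : Set ℕ) (N M L : ℕ) : Finset ℕ := (BN A N M).filter (fun p => L < p)

lemma mem_PS {N M L p : ℕ} : p ∈ PS N M L ↔ (p ≤ M ∧ p.Prime ∧ √(N : ℝ) < p) ∧ L < p := by
  unfold PS
  rw [mem_filter, mem_PN]

lemma mem_BS {A : Set ℕ} {N M L p : ℕ} : p ∈ BS A N M L ↔ ((p ≤ M ∧ p.Prime ∧ √(N : ℝ) < p) ∧ p ∉ A) ∧ L < p := by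
  unfold BS
  rw [mem_filter, mem_BN, mem_PN]

/-- the basic inequality for one difference -/
lemma diff_point (A : Set ℕ) (N M M' H n : ℕ) (τ : ℝ) (hN : 1 ≤ N) (hn2 : n ≤ M' + H)
    (hMN : M' + M + H ≤ N) (hno : n ∈ nodiff A)
    (hτ : ∀ b q : ℕ, M' + H < b → q ≤ N → b ≤ q → Real.log q ≤ (1 + τ) * Real.log b) (hτ0 : 0 ≤ τ) :
    ∑ b ∈ PS N M (M' + H), ArithmeticFunction.vonMangoldt (n + b) ≤
      ∑ b ∈ BN A N M, ArithmeticFunction.vonMangoldt (n + b) +
      (1 + τ) * ∑ b ∈ BS A N (M + M' + H) (M' + H), ArithmeticFunction.vonMangoldt (b - n) +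
      2 * √(N : ℝ) * Real.log N := by
  classical
  rw [← sum_filter_add_sum_filter_not (PS N M (M' + H)) (fun b => (n + b).Prime)]
  have h1 : ∑ b ∈ (PS N M (M' + H)).filter (fun b => ¬ (n + b).Prime), ArithmeticFunction.vonMangoldt (n + b) ≤
      2 * √(N : ℝ) * Real.log N := by
    apply powers_small _ N n hN
    · intro b hb
      rw [mem_filter, mem_PS] at hb
      omega
    · intro b hb
      rw [mem_filter] at hb
      exact hb.2
  rw [← sum_filter_add_sum_filter_not ((PS N M (M' + H)).filter (fun b => (n + b).Prime)) (fun b => b ∉ A)]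
  have h2 : ∑ b ∈ ((PS N M (M' + H)).filter (fun b => (n + b).Prime)).filter (fun b => b ∉ A),
      ArithmeticFunction.vonMangoldt (n + b) ≤ ∑ b ∈ BN A N M, ArithmeticFunction.vonMangoldt (n + b) := by
    apply sum_le_sum_of_subset_of_nonneg
    · intro b hb
      rw [mem_filter, mem_filter, mem_PS] at hb
      rw [mem_BN, mem_PN]
      exact ⟨hb.1.1.1, hb.2⟩
    · intro _ _ _
      exact ArithmeticFunction.vonMangoldt_nonneg
  have h3 : ∑ b ∈ ((PS N M (M' + H)).filter (fun b => (n + b).Prime)).filter (fun b => ¬ b ∉ A),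
      ArithmeticFunction.vonMangoldt (n + b) ≤
      (1 + τ) * ∑ b ∈ BS A N (M + M' + H) (M' + H), ArithmeticFunction.vonMangoldt (b - n) := by
    have hinj : Set.InjOn (fun b => n + b)
        ((((PS N M (M' + H)).filter (fun b => (n + b).Prime)).filter (fun b => ¬ b ∉ A) : Finset ℕ) : Set ℕ) := by
      intro a _ b _ hab
      simp only at hab
      omega
    have h4 : ∑ b ∈ ((PS N M (M' + H)).filter (fun b => (n + b).Prime)).filter (fun b => ¬ b ∉ A),
        (1 + τ) * (ArithmeticFunction.vonMangoldt (n + b - n) : ℝ) ≤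
        (1 + τ) * ∑ b ∈ BS A N (M + M' + H) (M' + H), ArithmeticFunction.vonMangoldt (b - n) := by
      rw [← mul_sum]
      apply mul_le_mul_of_nonneg_left _ (by linarith)
      rw [← sum_image (f := fun k => (ArithmeticFunction.vonMangoldt (k - n) : ℝ)) hinj]
      apply sum_le_sum_of_subset_of_nonneg
      · intro k hk
        rw [mem_image] at hk
        obtain ⟨b, hb, rfl⟩ := hk
        rw [mem_filter, mem_filter, mem_PS, not_not] at hb
        obtain ⟨⟨⟨⟨g1, g2, g3⟩, g4⟩, g5⟩, g6⟩ := hb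
        rw [mem_BS]
        refine ⟨⟨⟨by omega, g5, ?_⟩, ?_⟩, by omega⟩
        · push_cast
          have : (0 : ℝ) ≤ n := Nat.cast_nonneg _
          linarith
        · intro hA
          exact hno.2 ⟨n + b, b, ⟨g5, hA⟩, ⟨g2, g6⟩, by omega⟩
      · intro _ _ _
        exact ArithmeticFunction.vonMangoldt_nonneg
    refine le_trans (sum_le_sum ?_) h4
    intro b hb
    rw [mem_filter, mem_filter, mem_PS] at hb
    obtain ⟨⟨⟨⟨g1, g2, g3⟩, g4⟩, g5⟩, g6⟩ := hb
    have e1 : n + b - n = b := by omega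
    rw [e1, ArithmeticFunction.vonMangoldt_apply_prime g5, ArithmeticFunction.vonMangoldt_apply_prime g2]
    exact hτ b (n + b) g4 (by omega) (by omega)
  linarith

end Pool.Agent.TH881.RG
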