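import Mathlib
import Pool.Agent.TH881.RG.FiD

/-! The finite window theorem for differences. -/

set_option autoImplicit false

namespace Pool.Agent.TH881.RG
open Finset Filter Topology
open Pool.Agent.TH881
open Pool.Agent.H373R2.T7

lemma arithD {u τ ε c Y R Φ K SPS SB1 SB2 T0 T1 T2 Lm Lp : ℝ} (hu0 : 0 < u) (hu1 : u ≤ 1 / 200)
    (hτ0 : 0 ≤ τ) (hτ : τ ≤ u) (hε : 0 < ε) (hεu : ε ≤ u) (hεK : ε / K ≤ u) (hc0 : 0 ≤ c) (hc : c ≤ 6 * u)
    (hY : 0 < Y) (hR : 0 ≤ R) (hK : 0 < K) (hKR : K * Φ ≤ R)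
    (h0 : Y * SPS - ε * (Y * Φ) ≤ T0) (h1 : T1 ≤ Y * SB1 + ε * (Y * Φ)) (h2 : T2 ≤ Y * SB2 + 2 * (ε * (Y * Φ)))
    (hmain : T0 ≤ T1 + (1 + τ) * T2 + ε * (Y * Φ))
    (hSP : (1 - c) * R ≤ SPS) (hS1 : SB1 ≤ Lm + ε * R) (hS2 : SB2 ≤ Lp + c * R) (hLp : Lp ≤ R)
    (hΦ : 0 ≤ Φ) :
    (1 - 30 * u) * R ≤ Lm + Lp := by
  have h3 : Y * SPS - ε * (Y * Φ) ≤ (Y * SB1 + ε * (Y * Φ)) + (1 + τ) * (Y * SB2 + 2 * (ε * (Y * Φ))) + ε * (Y * Φ) := by
    have := mul_le_mul_of_nonneg_left h2 (show 0 ≤ 1 + τ by linarith)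
    linarith
  have h4 : Y * SPS ≤ Y * (SB1 + (1 + τ) * SB2 + (3 + 2 * (1 + τ)) * (ε * Φ)) := by
    calc Y * SPS ≤ ε * (Y * Φ) + ((Y * SB1 + ε * (Y * Φ)) + (1 + τ) * (Y * SB2 + 2 * (ε * (Y * Φ))) + ε * (Y * Φ)) := by linarith
      _ = _ := by ring
  have h5 : SPS ≤ SB1 + (1 + τ) * SB2 + (3 + 2 * (1 + τ)) * (ε * Φ) := le_of_mul_le_mul_left h4 hY
  have h6 : ε * Φ ≤ u * R := by
    calc ε * Φ = ε / K * (K * Φ) := by field_simp
      _ ≤ u * R := mul_le_mul hεK hKR (by positivity) hu0.le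
  have h7 : (3 + 2 * (1 + τ)) * (ε * Φ) ≤ 6 * (u * R) := by
    have : 0 ≤ ε * Φ := by positivity
    calc (3 + 2 * (1 + τ)) * (ε * Φ) ≤ 6 * (ε * Φ) := mul_le_mul_of_nonneg_right (by linarith) this
      _ ≤ 6 * (u * R) := by linarith
  have h8 : (1 + τ) * SB2 ≤ Lp + τ * R + 2 * (c * R) := by
    have h9 : (1 + τ) * SB2 ≤ (1 + τ) * (Lp + c * R) := mul_le_mul_of_nonneg_left hS2 (by linarith)
    have h10 : τ * Lp ≤ τ * R := mul_le_mul_of_nonneg_left hLp hτ0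
    have h11 : (1 + τ) * (c * R) ≤ 2 * (c * R) := mul_le_mul_of_nonneg_right (by linarith) (by positivity)
    linarith
  have h12 : τ * R ≤ u * R := mul_le_mul_of_nonneg_right hτ hR
  have h13 : ε * R ≤ u * R := mul_le_mul_of_nonneg_right hεu hR
  have h14 : c * R ≤ 6 * u * R := mul_le_mul_of_nonneg_right hc hR
  have h15 : 0 ≤ u * R := by positivity
  linarith

/-- parameters for large `N` -/
lemma large_diff (w : ℕ) (ρ τ ε : ℝ) (hρ : 0 < ρ) (hτ : 0 < τ) (hε : 0 < ε) : ∃ N0 : ℕ, 3 ≤ N0 ∧ ∀ N : ℕ, N0 ≤ N →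
    (∀ b q : ℕ, ρ * N ≤ b → q ≤ N → b ≤ q → Real.log q ≤ (1 + τ) * Real.log b) ∧
    (Wp w : ℝ) ≤ ρ * N ∧ 4 ≤ ρ * N ∧ 1 ≤ N * ρ ^ 2 ∧
    2 * √(N : ℝ) * Real.log N ≤ ε * ((ρ * N) / Real.log N) := by
  have hlim : Tendsto (fun N : ℕ => Real.log (N : ℝ)) atTop atTop :=
    Real.tendsto_log_atTop.comp (tendsto_natCast_atTop_atTop (R := ℝ))
  have hlin : ∀ C : ℝ, ∀ᶠ N : ℕ in atTop, C ≤ (N : ℝ) := fun C =>
    (tendsto_natCast_atTop_atTop (R := ℝ)).eventually_ge_atTop C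
  have h1 := ((isLittleO_log_rpow_rpow_atTop (2 : ℝ) (show (0 : ℝ) < 1 / 2 by norm_num)).bound
      (show 0 < ε * ρ / 2 by positivity))
  have h1' := (tendsto_natCast_atTop_atTop (R := ℝ)).eventually h1
  obtain ⟨N0, hN0⟩ := eventually_atTop.1 (((hlim.eventually_ge_atTop ((1 + τ) / τ * |Real.log ρ|)).and
    (hlin (Wp w / ρ))).and (((hlin (4 / ρ)).and (hlin (1 / ρ ^ 2))).and h1'))
  refine ⟨N0 + 3, by omega, ?_⟩
  intro N hN
  obtain ⟨⟨a1, a2⟩, ⟨a3, a4⟩, a5⟩ := hN0 N (by omega)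
  have hNr : (3 : ℝ) ≤ N := by exact_mod_cast (by omega : 3 ≤ N)
  have hN0r : (0 : ℝ) < N := by linarith
  have hL : 0 < Real.log N := Real.log_pos (by linarith)
  refine ⟨?_, ?_, ?_, ?_, ?_⟩
  · intro b q hb hq hbq
    have hb0 : (0 : ℝ) < b := lt_of_lt_of_le (by positivity) hb
    have hq0 : (0 : ℝ) < q := lt_of_lt_of_le hb0 (by exact_mod_cast hbq)
    have h2 : Real.log q ≤ Real.log N := Real.log_le_log hq0 (by exact_mod_cast hq)
    have h3 : Real.log ρ + Real.log N ≤ Real.log b := by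
      rw [← Real.log_mul hρ.ne' hN0r.ne']
      exact Real.log_le_log (by positivity) hb
    have h4 : -|Real.log ρ| ≤ Real.log ρ := neg_abs_le _
    have h5 : (1 + τ) * |Real.log ρ| ≤ τ * Real.log N := by
      rw [div_mul_eq_mul_div, div_le_iff₀ hτ] at a1
      linarith
    nlinarith
  · rw [div_le_iff₀ hρ] at a2
    linarith
  · rw [div_le_iff₀ hρ] at a3
    linarith
  · rw [div_le_iff₀ (by positivity)] at a4
    exact a4
  · rw [Real.norm_of_nonneg (Real.rpow_nonneg hL.le _), Real.norm_of_nonneg (Real.rpow_nonneg hN0r.le _),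
      ← Real.sqrt_eq_rpow] at a5
    have h7 : Real.log N ^ (2 : ℝ) = Real.log N ^ 2 := by
      rw [← Real.rpow_natCast]; norm_num
    rw [h7] at a5
    rw [← mul_div_assoc, le_div_iff₀ hL]
    have h8 : √(N : ℝ) * √(N : ℝ) = N := Real.mul_self_sqrt hN0r.le
    calc 2 * √(N : ℝ) * Real.log N * Real.log N = 2 * (√(N : ℝ) * Real.log N ^ 2) := by ring
      _ ≤ 2 * (√(N : ℝ) * (ε * ρ / 2 * √(N : ℝ))) :=
          mul_le_mul_of_nonneg_left (mul_le_mul_of_nonneg_left a5 (Real.sqrt_nonneg _)) (by norm_num)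
      _ = ε * ρ * (√(N : ℝ) * √(N : ℝ)) := by ring
      _ = ε * (ρ * N) := by rw [h8]; ring

/-- counting primes of a class in different ranges -/
lemma class_counts (w N M L : ℕ) (A : Set ℕ) (ρ ε θ : ℝ) (hε0 : 0 < ε) (hε1 : ε ≤ 1) (hθ0 : 0 < θ)
    (hρN4 : 4 ≤ ρ * N) (hρ2 : 1 ≤ (N : ℝ) * ρ ^ 2) (hρ : 0 < ρ)
    (hLM : M + L ≤ N) (hL : ρ * N ≤ L) (hM : ρ * N ≤ M) (hθ : (L : ℝ) ≤ θ * M)
    (hPC : ∀ M' : ℕ, M' ≤ N → ρ * N ≤ M' → ∀ a : ZMod (Wp w), IsUnit a →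
      |bbf w M' ((Icc 1 M').filter (fun p : ℕ => p.Prime ∧ √(N : ℝ) < p)) a - 1| ≤ ε)
    (a : ZMod (Wp w)) (ha : IsUnit a) :
    1 - (ε + 4 * θ) ≤ bbf w M (PS N M L) a ∧ bbf w M (BN A N M) a ≤ 1 + ε ∧
    ((cls w (BS A N (M + L) L) a).card : ℝ) / pp w M ≤ bbf w M (BN A N M) a + (2 * ε + 2 * θ) := by
  classical
  have hMr : (4 : ℝ) ≤ M := by linarith
  have hLr : (4 : ℝ) ≤ L := by linarith
  have hNr : (4 : ℝ) ≤ N := by
    have : (M : ℝ) ≤ N := by exact_mod_cast (by omega : M ≤ N)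
    linarith
  have hM2 : 2 ≤ M := by
    have : ((2 : ℕ) : ℝ) ≤ M := by push_cast; linarith
    exact_mod_cast this
  have hL2 : 2 ≤ L := by
    have : ((2 : ℕ) : ℝ) ≤ L := by push_cast; linarith
    exact_mod_cast this
  have hppM := pp_pos w M hM2
  have hppL := pp_pos w L hL2
  have hppML := pp_pos w (M + L) (by omega)
  have hM' := hPC M (by omega) hM a ha
  have hL' := hPC L (by omega) hL a ha
  have hML' := hPC (M + L) hLM (by push_cast; have : (0 : ℝ) ≤ L := Nat.cast_nonneg _; linarith) a ha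
  rw [abs_le] at hM' hL' hML'
  change -ε ≤ bbf w M (PN N M) a - 1 ∧ bbf w M (PN N M) a - 1 ≤ ε at hM'
  change -ε ≤ bbf w L (PN N L) a - 1 ∧ bbf w L (PN N L) a - 1 ≤ ε at hL'
  change -ε ≤ bbf w (M + L) (PN N (M + L)) a - 1 ∧ bbf w (M + L) (PN N (M + L)) a - 1 ≤ ε at hML'
  have cM1 : (1 - ε) * pp w M ≤ (cls w (PN N M) a).card := by
    have h1 : 1 - ε ≤ bbf w M (PN N M) a := by linarith [hM'.1]
    unfold bbf at h1
    rwa [le_div_iff₀ hppM] at h1
  have cM2 : ((cls w (PN N M) a).card : ℝ) ≤ (1 + ε) * pp w M := by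
    have h1 : bbf w M (PN N M) a ≤ 1 + ε := by linarith [hM'.2]
    unfold bbf at h1
    rwa [div_le_iff₀ hppM] at h1
  have cL2 : ((cls w (PN N L) a).card : ℝ) ≤ (1 + ε) * pp w L := by
    have h1 : bbf w L (PN N L) a ≤ 1 + ε := by linarith [hL'.2]
    unfold bbf at h1
    rwa [div_le_iff₀ hppL] at h1
  have cML2 : ((cls w (PN N (M + L)) a).card : ℝ) ≤ (1 + ε) * pp w (M + L) := by
    have h1 : bbf w (M + L) (PN N (M + L)) a ≤ 1 + ε := by linarith [hML'.2]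
    unfold bbf at h1
    rwa [div_le_iff₀ hppML] at h1
  have hφ : (0 : ℝ) < Nat.totient (Wp w) := totient_Wp_pos w
  have hlM : 0 < Real.log M := Real.log_pos (by linarith)
  have hlL : 0 < Real.log L := Real.log_pos (by linarith)
  have hlML : Real.log M ≤ 2 * Real.log L := by
    have h2 : (M : ℝ) ≤ (L : ℝ) ^ 2 := by
      have h3 : (M : ℝ) ≤ N := by exact_mod_cast (by omega : M ≤ N)
      have hN0 : (0 : ℝ) < N := by linarith
      calc (M : ℝ) ≤ N := h3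
        _ = N * 1 := by ring
        _ ≤ N * (N * ρ ^ 2) := mul_le_mul_of_nonneg_left hρ2 hN0.le
        _ = (ρ * N) ^ 2 := by ring
        _ ≤ (L : ℝ) ^ 2 := pow_le_pow_left₀ (by positivity) hL 2
    have h3 := Real.log_le_log (by linarith) h2
    rw [Real.log_pow] at h3
    exact_mod_cast h3
  have ppL : pp w L ≤ 2 * θ * pp w M := by
    unfold pp
    rw [← mul_div_assoc, div_le_div_iff₀ (by positivity) (by positivity)]
    calc (L : ℝ) * (Nat.totient (Wp w) * Real.log M) ≤ (θ * M) * (Nat.totient (Wp w) * (2 * Real.log L)) := by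
          apply mul_le_mul hθ (mul_le_mul_of_nonneg_left hlML hφ.le) (by positivity) (by positivity)
      _ = 2 * θ * M * (Nat.totient (Wp w) * Real.log L) := by ring
  have ppML : pp w (M + L) ≤ (1 + θ) * pp w M := by
    unfold pp
    have hlog : Real.log M ≤ Real.log ((M + L : ℕ) : ℝ) := by
      apply Real.log_le_log (by linarith)
      push_cast
      linarith
    rw [← mul_div_assoc]
    apply div_le_div₀ (by positivity) _ (by positivity) (mul_le_mul_of_nonneg_left hlog hφ.le)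
    push_cast
    linarith
  refine ⟨?_, ?_, ?_⟩
  · -- PS
    have h1 : (cls w (PN N M) a).card ≤ (cls w (PS N M L) a).card + (cls w (PN N L) a).card := by
      rw [← card_union_add_card_inter]
      refine (card_le_card ?_).trans (Nat.le_add_right _ _)
      intro p hp
      rw [mem_cls, mem_PN] at hp
      rw [mem_union, mem_cls, mem_cls, mem_PS, mem_PN]
      by_cases h : L < p
      · exact Or.inl ⟨⟨hp.1, h⟩, hp.2⟩
      · exact Or.inr ⟨⟨by omega, hp.1.2⟩, hp.2⟩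
    have h2 : ((cls w (PN N M) a).card : ℝ) ≤ (cls w (PS N M L) a).card + (cls w (PN N L) a).card := by exact_mod_cast h1
    unfold bbf
    rw [le_div_iff₀ hppM]
    have h3 : (1 + ε) * pp w L ≤ 2 * (2 * θ * pp w M) := mul_le_mul (by linarith) ppL hppL.le (by norm_num)
    linarith
  · unfold bbf
    rw [div_le_iff₀ hppM]
    have h1 : ((cls w (BN A N M) a).card : ℝ) ≤ (cls w (PN N M) a).card := by
      exact_mod_cast card_le_card (cls_mono (fun b hb => (mem_BN.1 hb).1) a)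
    linarith
  · unfold bbf
    rw [div_le_iff₀ hppM, add_mul, div_mul_cancel₀ _ hppM.ne']
    have h1 : (cls w (BS A N (M + L) L) a).card + (cls w (PN N M) a).card ≤
        (cls w (BN A N M) a).card + (cls w (PN N (M + L)) a).card := by
      have h2 : cls w (BS A N (M + L) L) a ∪ cls w (PN N M) a ⊆ cls w (PN N (M + L)) a := by
        intro p hp
        rw [mem_union, mem_cls, mem_cls, mem_BS, mem_PN] at hp
        rw [mem_cls, mem_PN]
        rcases hp with hp | hp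
        · exact ⟨hp.1.1.1, hp.2⟩
        · exact ⟨⟨by omega, hp.1.2⟩, hp.2⟩
      have h3 : cls w (BS A N (M + L) L) a ∩ cls w (PN N M) a ⊆ cls w (BN A N M) a := by
        intro p hp
        rw [mem_inter, mem_cls, mem_cls, mem_BS, mem_PN] at hp
        rw [mem_cls, mem_BN, mem_PN]
        exact ⟨⟨hp.2.1, hp.1.1.1.2⟩, hp.1.2⟩
      have h4 := card_union_add_card_inter (cls w (BS A N (M + L) L) a) (cls w (PN N M) a)
      have h5 := card_le_card h2
      have h6 := card_le_card h3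
      omega
    have h2 : ((cls w (BS A N (M + L) L) a).card : ℝ) + (cls w (PN N M) a).card ≤
        (cls w (BN A N M) a).card + (cls w (PN N (M + L)) a).card := by exact_mod_cast h1
    have h3 : (1 + ε) * pp w (M + L) ≤ (1 + ε) * ((1 + θ) * pp w M) := mul_le_mul_of_nonneg_left ppML (by linarith)
    have h4 : (1 + ε) * ((1 + θ) * pp w M) - (1 - ε) * pp w M ≤ (2 * ε + 2 * θ) * pp w M := by
      have h5 : (1 + ε) * ((1 + θ) * pp w M) - (1 - ε) * pp w M = (2 * ε + θ + ε * θ) * pp w M := by ring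
      rw [h5]
      apply mul_le_mul_of_nonneg_right _ hppM.le
      nlinarith
    linarith

end Pool.Agent.TH881.RG
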