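import Mathlib
import Pool.Agent.TH881.RG.FxD

/-! The finite window theorem for differences: assembly. -/

set_option autoImplicit false

namespace Pool.Agent.TH881.RG
open Finset Filter Topology
open Pool.Agent.TH881
open Pool.Agent.H373R2.T7

lemma YY_le (w M L H : ℕ) (hM : 2 ≤ M) (hL : L ≤ M) : YY w (M + L) H ≤ 2 * YY w M H := by
  have h1 : pp w (M + L) ≤ 2 * pp w M := by
    have hMr : (2 : ℝ) ≤ M := by exact_mod_cast hM
    have hLr : (L : ℝ) ≤ M := by exact_mod_cast hL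
    have hφ : (0 : ℝ) < Nat.totient (Wp w) := totient_Wp_pos w
    have hlM : 0 < Real.log M := Real.log_pos (by linarith)
    unfold pp
    have hL0 : (0 : ℝ) ≤ L := Nat.cast_nonneg _
    have hlog : Real.log M ≤ Real.log ((M + L : ℕ) : ℝ) := by
      apply Real.log_le_log (by linarith)
      push_cast
      linarith
    rw [← mul_div_assoc]
    apply div_le_div₀ (by positivity) _ (by positivity) (mul_le_mul_of_nonneg_left hlog hφ.le)
    push_cast
    linarith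
  unfold YY
  have h2 := Vz_pos w
  have h3 : 0 ≤ (Vz w)⁻¹ * ((H : ℝ) / Wp w) := by positivity
  calc (Vz w)⁻¹ * ((H : ℝ) / Wp w) * pp w (M + L) ≤ (Vz w)⁻¹ * ((H : ℝ) / Wp w) * (2 * pp w M) :=
        mul_le_mul_of_nonneg_left h1 h3
    _ = _ := by ring

lemma YY_bbf (w M M2 H : ℕ) (hM : 2 ≤ M) (hM2 : 2 ≤ M2) (B : Finset ℕ) (g : ZMod (Wp w) → ℝ) :
    YY w M2 H * ∑ a ∈ UU w, bbf w M2 B a * g a =
      YY w M H * ∑ a ∈ UU w, ((cls w B a).card : ℝ) / pp w M * g a := by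
  rw [mul_sum, mul_sum]
  apply sum_congr rfl
  intro a _
  unfold YY bbf
  have h1 := (pp_pos w M hM).ne'
  have h2 := (pp_pos w M2 hM2).ne'
  field_simp

/-- the finite window theorem for differences -/
theorem finite_windowD (hPC : StPC) (hBD : StBD) (hBD2 : StBD2) (δ : ℝ) (hδ : 0 < δ) :
    ∃ h0 : ℝ, 0 < h0 ∧ h0 < 1 / 16 ∧ ∀ h : ℝ, 0 < h → h ≤ h0 → ∃ θ0 : ℝ, 0 < θ0 ∧ ∀ ρ : ℝ, 0 < ρ →
    ∃ N0 : ℕ, ∀ N : ℕ, N0 ≤ N → ∀ M M' H : ℕ, M' + M + H ≤ N → ρ * N ≤ H → 2 * (ρ * N) ≤ M →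
    ((M' + H : ℕ) : ℝ) ≤ θ0 * M →
    ∀ A : Set ℕ, ∀ E ⊆ Ioc M' (M' + H), (∀ n ∈ E, n ∈ nodiff A) → 2 * h * H ≤ E.card →
    2 * (C2 * Real.exp (-Real.eulerMascheroniConstant)) - δ ≤
      Real.log (Real.log (1 / (h / 4))) * (((BN A N M).card : ℝ) * Real.log M / M) := by
  classical
  obtain ⟨h0, hh0, hh16, hloc⟩ := local_thmD stMI stMB stWL (δ / 2) (by positivity)
  obtain ⟨c, hc0, hWL⟩ := stWL
  refine ⟨h0, hh0, hh16, ?_⟩
  intro h hh hhh0
  obtain ⟨u, hu⟩ : ∃ u : ℝ, u = min δ 1 / 200 := ⟨_, rfl⟩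
  have hu0 : 0 < u := by rw [hu]; positivity
  have huδ : u ≤ δ / 200 := by
    rw [hu]
    exact div_le_div_of_nonneg_right (min_le_left _ _) (by norm_num)
  have hu1 : u ≤ 1 / 200 := by
    rw [hu]
    exact div_le_div_of_nonneg_right (min_le_right _ _) (by norm_num)
  obtain ⟨K, hK⟩ : ∃ K : ℝ, K = c * h ^ 2 := ⟨_, rfl⟩
  have hK0 : 0 < K := by rw [hK]; positivity
  obtain ⟨ε, hε⟩ : ∃ ε : ℝ, ε = u * min K 1 := ⟨_, rfl⟩
  have hε0 : 0 < ε := by rw [hε]; positivity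
  have hεu : ε ≤ u := by
    rw [hε]
    exact mul_le_of_le_one_right hu0.le (min_le_right _ _)
  have hεK : ε / K ≤ u := by
    rw [div_le_iff₀ hK0, hε]
    exact mul_le_mul_of_nonneg_left (min_le_left _ _) hu0.le
  refine ⟨u, hu0, ?_⟩
  intro ρ hρ
  obtain ⟨w0, hw0⟩ := hBD ε ρ hε0 hρ
  obtain ⟨w1, hw1⟩ := hBD2 ε ρ hε0 hρ
  obtain ⟨w, hw⟩ : ∃ w : ℕ, w = w0 + w1 + 3 := ⟨_, rfl⟩
  obtain ⟨N1, hN1⟩ := hw0 w (by omega)
  obtain ⟨N2, hN2⟩ := hw1 w (by omega)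
  obtain ⟨N3, hN3⟩ := hPC w ε ρ hε0 hρ
  obtain ⟨N4, hN43, hN4⟩ := large_diff w ρ u ε hρ hu0 hε0
  refine ⟨N1 + N2 + N3 + N4, ?_⟩
  intro N hN M M' H hMH hH hM hθ A E hE hEA hEc
  obtain ⟨hlog, hWN, hρ4, hρ2, herr⟩ := hN4 N (by omega)
  have hNpos : (0 : ℝ) < N := by
    have : 0 < N := by omega
    exact_mod_cast this
  have hHW : Wp w ≤ H := by
    have h3 : (Wp w : ℝ) ≤ H := by linarith
    exact_mod_cast h3
  have hH1 : 1 ≤ H := (Wp_pos w).trans_le hHW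
  have hM2 : 2 ≤ M := by
    have h3 : ((2 : ℕ) : ℝ) ≤ M := by push_cast; linarith
    exact_mod_cast h3
  have hLM : M' + H ≤ M := by
    have h3 : ((M' + H : ℕ) : ℝ) ≤ M := by
      have : u * (M : ℝ) ≤ 1 * M := mul_le_mul_of_nonneg_right (by linarith) (Nat.cast_nonneg _)
      linarith
    exact_mod_cast h3
  have hLr : ρ * N ≤ ((M' + H : ℕ) : ℝ) := by
    push_cast
    have : (0 : ℝ) ≤ M' := Nat.cast_nonneg _
    linarith
  have hMadd : M + (M' + H) = M + M' + H := by omega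
  -- the objects
  set f := eef w H E with hf
  have hf0 : ∀ t, 0 ≤ f t := eef_nonneg w H E
  have hf1 : ∀ t, f t ≤ 1 := eef_le_one w M' H E hE
  have hEeven : ∀ n ∈ E, Even n := fun n hn => (hEA n hn).1
  have hfz : ∀ t, wt w t = 0 → f t = 0 := fun t ht => eef_zero w H E hEeven t ht
  have hfe : ∀ t, f t ≠ 0 → ∃ n : ℕ, Even n ∧ (n : ZMod (Wp w)) = t := by
    intro t ht
    by_contra hcon
    apply ht
    have h1 : cls w E t = ∅ := by
      rw [Finset.eq_empty_iff_forall_notMem]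
      intro n hn
      rw [mem_cls] at hn
      exact hcon ⟨n, hEeven n hn.1, hn.2⟩
    rw [hf]
    unfold eef
    rw [h1]
    simp
  have hfs : h * Wp w ≤ ∑ t, f t := sum_eef w H h hh.le E hHW hEc
  obtain ⟨R, hR⟩ : ∃ R : ℝ, R = ∑ a ∈ UU w, rr w f a := ⟨_, rfl⟩
  have hR0 : 0 ≤ R := by
    rw [hR]
    exact sum_nonneg fun a _ => rr_nonneg hf0 a
  have hRm : ∑ a ∈ UU w, rr w f (-a) = R := by
    rw [hR]
    exact sum_UU_neg w (fun a => rr w f a)
  have hφ : (0 : ℝ) < Nat.totient (Wp w) := totient_Wp_pos w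
  have hW : (0 : ℝ) < Wp w := by exact_mod_cast Wp_pos w
  obtain ⟨Φ, hΦ⟩ : ∃ Φ : ℝ, Φ = (Nat.totient (Wp w) : ℝ) ^ 2 := ⟨_, rfl⟩
  have hΦ0 : 0 < Φ := by rw [hΦ]; positivity
  have hKR : K * Φ ≤ R := by
    have h1 := hWL w (by omega) f hf0 hf1 hfz
    have h2 : h ≤ (∑ t, f t) / Wp w := by
      rw [le_div_iff₀ hW]
      exact hfs
    have h3 : h ^ 2 ≤ ((∑ t, f t) / Wp w) ^ 2 := pow_le_pow_left₀ hh.le h2 2
    have h4 : K ≤ (∑ t, f t * wt w t) / Nat.totient (Wp w) := by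
      rw [hK]
      exact (mul_le_mul_of_nonneg_left h3 hc0.le).trans h1
    rw [le_div_iff₀ hφ] at h4
    rw [hR, sum_rr, hΦ]
    calc K * (Nat.totient (Wp w) : ℝ) ^ 2 = Nat.totient (Wp w) * (K * Nat.totient (Wp w)) := by ring
      _ ≤ _ := mul_le_mul_of_nonneg_left h4 hφ.le
  obtain ⟨Y, hY⟩ : ∃ Y : ℝ, Y = YY w M H := ⟨_, rfl⟩
  have hY0 : 0 < Y := by
    rw [hY]
    exact YY_pos w M H hM2 hH1
  -- counts in the classes
  have hcc := class_counts w N M (M' + H) A ρ ε u hε0 (by linarith) hu0 hρ4 hρ2 hρ (by omega) hLr (by linarith)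
    hθ (fun M' hM' hM'' a ha => hN3 N (by omega) M' hM' hM'' a ha)
  rw [hMadd] at hcc
  -- the bilinear estimates
  have hPSp : ∀ b ∈ PS N M (M' + H), b.Prime ∧ √(N : ℝ) < b ∧ b ≤ M := by
    intro b hb
    rw [mem_PS] at hb
    exact ⟨hb.1.2.1, hb.1.2.2, hb.1.1⟩
  have hBNp : ∀ b ∈ BN A N M, b.Prime ∧ √(N : ℝ) < b ∧ b ≤ M := by
    intro b hb
    rw [mem_BN, mem_PN] at hb
    exact ⟨hb.1.2.1, hb.1.2.2, hb.1.1⟩
  have hBSp : ∀ b ∈ BS A N (M + M' + H) (M' + H), b.Prime ∧ √(N : ℝ) < b ∧ M' + H < b ∧ b ≤ M + M' + H := by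
    intro b hb
    rw [mem_BS] at hb
    exact ⟨hb.1.1.2.1, hb.1.1.2.2, hb.2, hb.1.1.1⟩
  have b0 := hN1 N (by omega) M M' H hMH hH (by linarith) E hE (PS N M (M' + H)) hPSp
  have b1 := hN1 N (by omega) M M' H hMH hH (by linarith) E hE (BN A N M) hBNp
  have b2 := hN2 N (by omega) (M + M' + H) M' H (by omega) hH (by push_cast; linarith) E hE
    (BS A N (M + M' + H) (M' + H)) hBSp
  rw [YY_bbf w M (M + M' + H) H hM2 (by omega)] at b2
  rw [← hΦ, ← hY, abs_le] at b0 b1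
  rw [← hΦ, ← hY, abs_le] at b2
  have hY2 : YY w (M + M' + H) H ≤ 2 * Y := by
    rw [hY, ← hMadd]
    exact YY_le w M (M' + H) H hM2 hLM
  obtain ⟨T0, hT0⟩ : ∃ T : ℝ, T = ∑ n ∈ E, ∑ b ∈ PS N M (M' + H), ArithmeticFunction.vonMangoldt (n + b) := ⟨_, rfl⟩
  obtain ⟨T1, hT1⟩ : ∃ T : ℝ, T = ∑ n ∈ E, ∑ b ∈ BN A N M, ArithmeticFunction.vonMangoldt (n + b) := ⟨_, rfl⟩
  obtain ⟨T2, hT2⟩ : ∃ T : ℝ, T = ∑ n ∈ E, ∑ b ∈ BS A N (M + M' + H) (M' + H), ArithmeticFunction.vonMangoldt (b - n) :=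
    ⟨_, rfl⟩
  rw [← hT0] at b0
  rw [← hT1] at b1
  rw [← hT2] at b2
  obtain ⟨SPS, hSPS⟩ : ∃ S : ℝ, S = ∑ a ∈ UU w, bbf w M (PS N M (M' + H)) a * rr w f (-a) := ⟨_, rfl⟩
  obtain ⟨SB1, hSB1⟩ : ∃ S : ℝ, S = ∑ a ∈ UU w, bbf w M (BN A N M) a * rr w f (-a) := ⟨_, rfl⟩
  obtain ⟨SB2, hSB2⟩ : ∃ S : ℝ, S = ∑ a ∈ UU w, ((cls w (BS A N (M + M' + H) (M' + H)) a).card : ℝ) / pp w M * rr w f a :=
    ⟨_, rfl⟩
  rw [← hSPS] at b0
  rw [← hSB1] at b1
  rw [← hSB2] at b2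
  have g0 : Y * SPS - ε * (Y * Φ) ≤ T0 := by linarith [b0.1]
  have g1 : T1 ≤ Y * SB1 + ε * (Y * Φ) := by linarith [b1.2]
  have g2 : T2 ≤ Y * SB2 + 2 * (ε * (Y * Φ)) := by
    have h1 : ε * (YY w (M + M' + H) H * Φ) ≤ 2 * (ε * (Y * Φ)) := by
      have h2 : YY w (M + M' + H) H * Φ ≤ 2 * Y * Φ := mul_le_mul_of_nonneg_right hY2 hΦ0.le
      calc ε * (YY w (M + M' + H) H * Φ) ≤ ε * (2 * Y * Φ) := mul_le_mul_of_nonneg_left h2 hε0.le
        _ = _ := by ring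
    linarith [b2.2]
  -- the main inequality
  have hlM : 0 < Real.log M := Real.log_pos (by linarith)
  have hmain : T0 ≤ T1 + (1 + u) * T2 + ε * (Y * Φ) := by
    have h1 : ∀ n ∈ E, ∑ b ∈ PS N M (M' + H), ArithmeticFunction.vonMangoldt (n + b) ≤
        ∑ b ∈ BN A N M, ArithmeticFunction.vonMangoldt (n + b) +
        (1 + u) * ∑ b ∈ BS A N (M + M' + H) (M' + H), ArithmeticFunction.vonMangoldt (b - n) +
        2 * √(N : ℝ) * Real.log N := by
      intro n hn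
      have hn1 := mem_Ioc.1 (hE hn)
      apply diff_point A N M M' H n u (by omega) hn1.2 hMH (hEA n hn) _ hu0.le
      intro b q hb hq hbq
      apply hlog b q _ hq hbq
      have : ((M' + H : ℕ) : ℝ) ≤ b := by exact_mod_cast hb.le
      linarith
    have h2 := sum_le_sum h1
    rw [sum_add_distrib, sum_add_distrib, ← mul_sum, sum_const, nsmul_eq_mul, ← hT0, ← hT1, ← hT2] at h2
    have h3 : (E.card : ℝ) * (2 * √(N : ℝ) * Real.log N) ≤ ε * (Y * Φ) := by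
      have h4 : (E.card : ℝ) ≤ H := by
        have h5 := card_le_card hE
        rw [Nat.card_Ioc] at h5
        exact_mod_cast (by omega : E.card ≤ H)
      have h6 : Y * Φ = (H : ℝ) * M / Real.log M := by
        rw [hY, hΦ]
        exact YY_phi w M H
      have h7 : (ρ * N) / Real.log N ≤ M / Real.log M := by
        apply div_le_div₀ (Nat.cast_nonneg _) (by linarith) hlM
        apply Real.log_le_log (by linarith)
        exact_mod_cast (by omega : M ≤ N)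
      have h8 : 0 ≤ 2 * √(N : ℝ) * Real.log N := by
        have := Real.log_natCast_nonneg N
        positivity
      calc (E.card : ℝ) * (2 * √(N : ℝ) * Real.log N) ≤ H * (ε * ((ρ * N) / Real.log N)) :=
            mul_le_mul h4 herr h8 (Nat.cast_nonneg _)
        _ ≤ H * (ε * (M / Real.log M)) := by
            apply mul_le_mul_of_nonneg_left _ (Nat.cast_nonneg _)
            exact mul_le_mul_of_nonneg_left h7 hε0.le
        _ = ε * ((H : ℝ) * M / Real.log M) := by ring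
        _ = _ := by rw [h6]
    linarith
  -- the density of the missing primes
  obtain ⟨β, hβ⟩ : ∃ β : ZMod (Wp w) → ℝ, β = fun a => min (bbf w M (BN A N M) a) 1 := ⟨_, rfl⟩
  have hβ0 : ∀ a, 0 ≤ β a := by
    intro a
    rw [hβ]
    exact le_min (bbf_nonneg _ _ _ _) zero_le_one
  have hβ1 : ∀ a, β a ≤ 1 := by
    intro a
    rw [hβ]
    exact min_le_right _ _
  have hβ2 : ∀ a ∈ UU w, bbf w M (BN A N M) a ≤ β a + ε := by
    intro a ha
    have h1 := (hcc a (mem_UU.1 ha)).2.1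
    rw [hβ]
    simp only
    rcases le_total (bbf w M (BN A N M) a) 1 with h4 | h4
    · rw [min_eq_left h4]
      linarith
    · rw [min_eq_right h4]
      linarith
  obtain ⟨Lm, hLm⟩ : ∃ L : ℝ, L = ∑ a ∈ UU w, β a * rr w f (-a) := ⟨_, rfl⟩
  obtain ⟨Lp, hLp⟩ : ∃ L : ℝ, L = ∑ a ∈ UU w, β a * rr w f a := ⟨_, rfl⟩
  have hSP : (1 - 6 * u) * R ≤ SPS := by
    rw [← hRm, mul_sum, hSPS]
    apply sum_le_sum
    intro a ha
    apply mul_le_mul_of_nonneg_right _ (rr_nonneg hf0 _)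
    have h1 := (hcc a (mem_UU.1 ha)).1
    linarith
  have hS1 : SB1 ≤ Lm + ε * R := by
    rw [hSB1, hLm, ← hRm, mul_sum, ← sum_add_distrib]
    apply sum_le_sum
    intro a ha
    have h1 := hβ2 a ha
    have h4 := rr_nonneg hf0 (-a)
    nlinarith
  have hS2 : SB2 ≤ Lp + 6 * u * R := by
    rw [hSB2, hLp, hR, mul_sum, ← sum_add_distrib]
    apply sum_le_sum
    intro a ha
    have h1 := hβ2 a ha
    have h2 := (hcc a (mem_UU.1 ha)).2.2
    have h4 := rr_nonneg hf0 a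
    have h5 : ((cls w (BS A N (M + M' + H) (M' + H)) a).card : ℝ) / pp w M ≤ β a + 6 * u := by linarith
    calc ((cls w (BS A N (M + M' + H) (M' + H)) a).card : ℝ) / pp w M * rr w f a ≤ (β a + 6 * u) * rr w f a :=
          mul_le_mul_of_nonneg_right h5 h4
      _ = _ := by ring
  have hLpR : Lp ≤ R := by
    rw [hLp, hR]
    apply sum_le_sum
    intro a _
    exact mul_le_of_le_one_left (rr_nonneg hf0 a) (hβ1 a)
  have hfin := arithD (c := 6 * u) hu0 hu1 hu0.le le_rfl hε0 hεu hεK (by positivity) le_rfl hY0 hR0 hK0 hKR g0 g1 g2 hmain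
    hSP hS1 hS2 hLpR hΦ0.le
  have happ := hloc h hh hhh0 w (by omega) f hf0 hf1 hfe hfs β hβ0 hβ1 (1 - 30 * u) (by linarith) (by linarith) (by
    have e1 : ∑ a ∈ UU w, β a * (rr w f a + rr w f (-a)) = Lm + Lp := by
      rw [hLm, hLp, ← sum_add_distrib]
      apply sum_congr rfl
      intro a _
      ring
    rw [e1, ← hR]
    exact hfin)
  have hll : 0 ≤ Real.log (Real.log (1 / (h / 4))) := by
    apply Real.log_nonneg
    have h1 : (16 : ℝ) ≤ 1 / (h / 4) := by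
      rw [le_div_iff₀ (by positivity)]
      linarith
    have h2 : Real.exp 1 ≤ 1 / (h / 4) := by
      have := Real.exp_one_lt_d9
      linarith
    have h3 := Real.log_le_log (Real.exp_pos _) h2
    rwa [Real.log_exp] at h3
  have hs1 : ∑ a ∈ UU w, β a ≤ Nat.totient (Wp w) * (((BN A N M).card : ℝ) * Real.log M / M) := by
    refine le_trans ?_ (sum_bbf w M (BN A N M))
    apply sum_le_sum
    intro a _
    rw [hβ]
    exact min_le_left _ _
  have h2 : ((1 - 30 * u) * (2 * C2 * Real.exp (-Real.eulerMascheroniConstant)) - δ / 2) * Nat.totient (Wp w) ≤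
      (Real.log (Real.log (1 / (h / 4))) * (((BN A N M).card : ℝ) * Real.log M / M)) * Nat.totient (Wp w) := by
    refine happ.trans ?_
    calc Real.log (Real.log (1 / (h / 4))) * ∑ a ∈ UU w, β a
      ≤ Real.log (Real.log (1 / (h / 4))) * (Nat.totient (Wp w) * (((BN A N M).card : ℝ) * Real.log M / M)) :=
          mul_le_mul_of_nonneg_left hs1 hll
      _ = _ := by ring
  have h3 := le_of_mul_le_mul_right h2 hφ
  refine le_trans ?_ h3
  have h5 := D_pos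
  have h6 := D_le
  have h8 : 60 * u * (C2 * Real.exp (-Real.eulerMascheroniConstant)) ≤ 60 * u :=
    mul_le_of_le_one_right (by positivity) h6
  calc 2 * (C2 * Real.exp (-Real.eulerMascheroniConstant)) - δ ≤
      2 * (C2 * Real.exp (-Real.eulerMascheroniConstant)) - 60 * u * (C2 * Real.exp (-Real.eulerMascheroniConstant)) - δ / 2 := by
        linarith
    _ = _ := by ring

end Pool.Agent.TH881.RG
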