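import Mathlib
import Pool.Agent.TH881.RG.FyD

/-! Upper bounds for the exceptional densities. -/

set_option autoImplicit false

namespace Pool.Agent.TH881.RG
open Finset Filter Topology
open Pool.Agent.TH881
open Pool.Agent.H373R2.T7

lemma freq_of_upper {S : Set ℕ} {h : ℝ} (hcon : h < upperDensity S) : ∃ᶠ n : ℕ in atTop, h * n ≤ cnt S n := by
  unfold upperDensity at hcon
  have h1 := frequently_lt_of_lt_limsup (ratio_bdd_below S).isCoboundedUnder_le hcon
  have h2 := h1.and_eventually (eventually_ge_atTop 1)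
  refine h2.mono ?_
  rintro n ⟨h3, h4⟩
  have h5 : (0 : ℝ) < n := by exact_mod_cast h4
  rw [lt_div_iff₀ h5] at h3
  exact h3.le

/-- from the window theorems to the densities -/
theorem final_upper (hPC : StPC) (D' : ℝ) (hD' : 0 < D') (F : Set ℕ → Set ℕ)
    (hF : ∀ δ : ℝ, 0 < δ → ∃ h0 : ℝ, 0 < h0 ∧ h0 ≤ 1 ∧ ∀ h : ℝ, 0 < h → h ≤ h0 → ∀ A : Set ℕ,
      (∃ᶠ n : ℕ in atTop, h * n ≤ cnt (F A) n) → ∀ η' : ℝ,
      (∃ M0 : ℕ, ∀ M : ℕ, M0 ≤ M → ∀ N : ℕ, ((BN A N M).card : ℝ) * Real.log M / M ≤ η') →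
      D' - δ ≤ Real.log (Real.log (16 / h)) * η') (δ : ℝ) (hδ : 0 < δ) :
    ∃ η0 : ℝ, 0 < η0 ∧ ∀ η : ℝ, 0 < η → η ≤ η0 → ∀ A : Set ℕ, 1 - η ≤ relLower A →
    upperDensity (F A) ≤ Real.exp (-Real.exp ((D' - δ) / η)) := by
  obtain ⟨δ', hδ'⟩ : ∃ δ' : ℝ, δ' = min δ (D' / 2) := ⟨_, rfl⟩
  have hδ'0 : 0 < δ' := by rw [hδ']; positivity
  have hδ'1 : δ' ≤ δ := by rw [hδ']; exact min_le_left _ _
  have hδ'2 : δ' ≤ D' / 2 := by rw [hδ']; exact min_le_right _ _
  obtain ⟨X, hX⟩ : ∃ X : ℝ, X = D' - δ' := ⟨_, rfl⟩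
  have hX0 : 0 < X := by
    rw [hX]
    linarith
  obtain ⟨h0, hh0, hh1, hfw⟩ := hF (δ' / 4) (by positivity)
  obtain ⟨Q, hQ⟩ : ∃ Q : ℝ, Q = Real.log (1 / h0) + 1 := ⟨_, rfl⟩
  have hQ1 : 0 < Q := by
    have h1 : (1 : ℝ) ≤ 1 / h0 := by
      rw [le_div_iff₀ hh0]
      linarith
    have := Real.log_nonneg h1
    rw [hQ]
    linarith
  refine ⟨min (δ' / 32) (X / Q), by positivity, ?_⟩
  intro η hη hη0 A hA
  have hη1 : η ≤ δ' / 32 := hη0.trans (min_le_left _ _)
  have hη2 : η ≤ X / Q := hη0.trans (min_le_right _ _)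
  obtain ⟨h, hh⟩ : ∃ h : ℝ, h = Real.exp (-Real.exp (X / η)) := ⟨_, rfl⟩
  have hh_pos : 0 < h := by rw [hh]; exact Real.exp_pos _
  have hXη : Q ≤ X / η := by
    rw [le_div_iff₀ hη]
    rw [le_div_iff₀ hQ1] at hη2
    linarith
  have hhle : h ≤ h0 := by
    have h1 : Real.log (1 / h0) ≤ Real.exp (X / η) := by
      have h2 := Real.add_one_le_exp (X / η)
      linarith
    have h2 : -Real.exp (X / η) ≤ Real.log h0 := by
      rw [one_div, Real.log_inv] at h1
      linarith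
    rw [hh]
    calc Real.exp (-Real.exp (X / η)) ≤ Real.exp (Real.log h0) := Real.exp_le_exp.2 h2
      _ = h0 := Real.exp_log hh0
  have hgoal : h ≤ Real.exp (-Real.exp ((D' - δ) / η)) := by
    rw [hh]
    apply Real.exp_le_exp.2
    apply neg_le_neg
    apply Real.exp_le_exp.2
    apply div_le_div_of_nonneg_right _ hη.le
    rw [hX]
    linarith
  refine le_trans ?_ hgoal
  by_contra hcon
  push Not at hcon
  obtain ⟨ε, hε⟩ : ∃ ε : ℝ, ε = η ^ 2 / (X + 3 * η) := ⟨_, rfl⟩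
  have hε0 : 0 < ε := by rw [hε]; positivity
  have hres := hfw h hh_pos hhle A (freq_of_upper hcon) (η + ε) (missing hPC A η ε hη hε0 hA)
  have hlog : Real.log (Real.log (16 / h)) ≤ X / η + 3 := by
    have h1 : Real.log (16 / h) = Real.log 16 + Real.exp (X / η) := by
      rw [Real.log_div (by norm_num) hh_pos.ne', hh, Real.log_exp]
      ring
    rw [h1]
    have h2 : Real.log 16 ≤ 3 := by
      have h3 : Real.log 16 = 4 * Real.log 2 := by
        rw [show (16 : ℝ) = 2 ^ 4 by norm_num, Real.log_pow]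
        norm_num
      have := Real.log_two_lt_d9
      linarith
    have h4 : 1 ≤ Real.exp (X / η) := Real.one_le_exp (by positivity)
    have h5 : Real.log 16 + Real.exp (X / η) ≤ Real.exp (X / η + 3) := by
      rw [Real.exp_add]
      have h6 : 4 ≤ Real.exp 3 := by
        have := Real.add_one_le_exp (3 : ℝ)
        linarith
      nlinarith
    have h6 : 0 < Real.log 16 := Real.log_pos (by norm_num)
    calc Real.log (Real.log 16 + Real.exp (X / η)) ≤ Real.log (Real.exp (X / η + 3)) :=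
          Real.log_le_log (by positivity) h5
      _ = _ := Real.log_exp _
  have h10 : Real.log (Real.log (16 / h)) * (η + ε) ≤ (X / η + 3) * (η + ε) :=
    mul_le_mul_of_nonneg_right hlog (by positivity)
  have h11 : (X / η + 3) * (η + ε) = X + 4 * η := by
    rw [hε]
    field_simp
    ring
  rw [h11] at h10
  linarith

/-- differences: the upper bound -/
theorem diff_upper (hPC : StPC) (hBD : StBD) (hBD2 : StBD2) (δ : ℝ) (hδ : 0 < δ) :
    ∃ η0 : ℝ, 0 < η0 ∧ ∀ η : ℝ, 0 < η → η ≤ η0 → ∀ A : Set ℕ, 1 - η ≤ relLower A →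
    upperDensity (nodiff A) ≤
      Real.exp (-Real.exp ((2 * (C2 * Real.exp (-Real.eulerMascheroniConstant)) - δ) / η)) := by
  apply final_upper hPC (2 * (C2 * Real.exp (-Real.eulerMascheroniConstant))) (by have := D_pos; positivity) nodiff
    _ δ hδ
  intro δ hδ
  obtain ⟨h0, hh0, hh16, hfw⟩ := finite_windowD hPC hBD hBD2 δ hδ
  refine ⟨h0, hh0, by linarith, ?_⟩
  intro h hh hhle A hfreq η' hη'
  obtain ⟨M0, hM0⟩ := hη'
  obtain ⟨θ0, hθ0, hfw2⟩ := hfw (h / 4) (by positivity) (by linarith)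
  obtain ⟨T, hT⟩ := exists_nat_ge (2 / θ0 + 1)
  have hT1 : 1 ≤ T := by
    have h1 : (1 : ℝ) ≤ T := by
      have : 0 < 2 / θ0 := by positivity
      linarith
    exact_mod_cast h1
  have hTr : (1 : ℝ) ≤ T := by exact_mod_cast hT1
  have hθT : 2 ≤ θ0 * T := by
    have h1 : 2 / θ0 ≤ T := by linarith
    rw [div_le_iff₀ hθ0] at h1
    linarith
  obtain ⟨ρ, hρ⟩ : ∃ ρ : ℝ, ρ = h / (16 * (T + 2)) := ⟨_, rfl⟩
  have hρ0 : 0 < ρ := by rw [hρ]; positivity
  obtain ⟨N0, hN0⟩ := hfw2 ρ hρ0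
  obtain ⟨x0, hx0⟩ := exists_window (nodiff A) h (h / 8) hh (by linarith) (by positivity) le_rfl
  obtain ⟨x1, hx1⟩ := exists_nat_ge (16 / h)
  obtain ⟨x, hxc, hxg⟩ := (hfreq.and_eventually (eventually_ge_atTop (N0 + x0 + x1 + M0 + 1))).exists
  obtain ⟨M', H, hH1, hH2, hM1', hM2, hcard⟩ := hx0 x (by omega) hxc
  have hxr : (0 : ℝ) < x := by exact_mod_cast (by omega : 0 < x)
  have hhx : 16 ≤ h * x := by
    have h1 : (x1 : ℝ) ≤ x := by exact_mod_cast (by omega : x1 ≤ x)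
    have h2 := hx1.trans h1
    rw [div_le_iff₀ hh] at h2
    linarith
  have hHx : H ≤ x := by
    have h1 : (H : ℝ) ≤ x := by nlinarith
    exact_mod_cast h1
  have hHxr : (H : ℝ) ≤ x := by exact_mod_cast hHx
  have hM2r : (M' : ℝ) ≤ x := by exact_mod_cast hM2
  have hTx : x ≤ T * x := Nat.le_mul_of_pos_left x hT1
  have e1 : ρ * ((T + 2) * x) = h * x / 16 := by
    rw [hρ]
    field_simp
  have hres := hN0 ((T + 2) * x) (by
      have : x ≤ (T + 2) * x := Nat.le_mul_of_pos_left x (by omega)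
      omega) (T * x) M' H (by
      have : (T + 2) * x = T * x + x + x := by ring
      omega) (by
      push_cast
      rw [e1]
      linarith) (by
      push_cast
      rw [e1]
      have : (x : ℝ) ≤ T * x := by exact_mod_cast hTx
      nlinarith) (by
      push_cast
      calc (M' : ℝ) + H ≤ 2 * x := by linarith
        _ ≤ (θ0 * T) * x := mul_le_mul_of_nonneg_right hθT hxr.le
        _ = _ := by ring) A (win (nodiff A) M' H) (win_subset _ M' H) (by
      intro n hn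
      rw [mem_win] at hn
      exact hn.2) (by linarith)
  have h2 := hM0 (T * x) (by omega) ((T + 2) * x)
  have e2 : (1 : ℝ) / (h / 4 / 4) = 16 / h := by
    field_simp
    norm_num
  rw [e2] at hres
  have hll : 0 ≤ Real.log (Real.log (16 / h)) := by
    apply Real.log_nonneg
    have h1 : (16 : ℝ) ≤ 16 / h := by
      rw [le_div_iff₀ hh]
      linarith
    have h2 : Real.exp 1 ≤ 16 / h := by
      have := Real.exp_one_lt_d9
      linarith
    have h3 := Real.log_le_log (Real.exp_pos _) h2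
    rwa [Real.log_exp] at h3
  exact hres.trans (mul_le_mul_of_nonneg_left h2 hll)

end Pool.Agent.TH881.RG
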