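import Mathlib
import Pool.Agent.TH881.RG.Fz
import Pool.Agent.W276.Link

/-! Representations in residue classes; the formula of Hardy and Littlewood for almost all even numbers. -/

set_option autoImplicit false

namespace Pool.Agent.TH881.RG
open Finset Filter Topology
open Pool.Agent.TH881
open Pool.Agent.H373R2.T7

open Classical in
/-- the representations of `n` as a sum of two primes, the first of which is in the class `a` -/
noncomputable def rcl (y : ℕ) (a : ZMod (Wp y)) (n : ℕ) : ℕ :=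
  ((antidiagonal n).filter (fun q : ℕ × ℕ => q.1.Prime ∧ q.2.Prime ∧ (q.1 : ZMod (Wp y)) = a)).card

/-- the representations of almost all numbers are equidistributed in the possible classes -/
def StEq : Prop := ∀ (y : ℕ) (a0 a b : ZMod (Wp y)), IsUnit a → IsUnit b → IsUnit (a0 - a) → IsUnit (a0 - b) →
  ∀ ε : ℝ, 0 < ε → Tendsto (fun x : ℕ => (cnt {n : ℕ | (n : ZMod (Wp y)) = a0 ∧
    ε * ((n : ℝ) / Real.log n ^ 2) < |(rcl y a n : ℝ) - rcl y b n|} x : ℝ) / x) atTop (𝓝 0)

lemma g_eq (n : ℕ) : Pool.Agent.H560R3.GB.g n = rep Set.univ n := by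
  classical
  rw [rep_eq]
  unfold Pool.Agent.H560R3.GB.g
  congr 1
  ext q
  rw [mem_filter, mem_repS, HasAntidiagonal.mem_antidiagonal]
  simp

/-- almost all even numbers satisfy the formula of Hardy and Littlewood -/
lemma hl_almost (ε : ℝ) (hε : 0 < ε) : Tendsto (fun x : ℕ => (cnt {n : ℕ | Even n ∧
    ¬ |(rep Set.univ n : ℝ) - Pool.Agent.H560R3.GB.HL n| ≤ ε * Pool.Agent.H560R3.GB.HL n} x : ℝ) / x) atTop (𝓝 0) := by
  classical
  obtain ⟨N0, hN0⟩ := Pool.Agent.W93.GB.fam 1 1 1 1 le_rfl ε hε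
  have hlim : Tendsto (fun x : ℕ => 1 / Real.log x) atTop (𝓝 0) := by
    have h1 : Tendsto (fun x : ℕ => Real.log x) atTop atTop := Real.tendsto_log_atTop.comp tendsto_natCast_atTop_atTop
    have h2 := h1.inv_tendsto_atTop
    refine h2.congr (fun x => ?_)
    rw [Pi.inv_apply, one_div]
  refine squeeze_zero' (Eventually.of_forall fun x => by positivity) ?_ hlim
  filter_upwards [eventually_ge_atTop (N0 + 30)] with N hN
  have hNr : (30 : ℝ) ≤ N := by exact_mod_cast (by omega : 30 ≤ N)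
  have hNpos : (0 : ℝ) < N := by linarith
  have hlog : 3 ≤ Real.log N := by
    have h1 : Real.exp 3 ≤ 30 := by
      have h2 := Real.exp_one_lt_d9
      have h3 : Real.exp 3 = Real.exp 1 ^ 3 := by rw [← Real.exp_nat_mul]; norm_num
      rw [h3]
      calc Real.exp 1 ^ 3 ≤ 2.7182818286 ^ 3 := pow_le_pow_left₀ (Real.exp_pos _).le h2.le 3
        _ ≤ 30 := by norm_num
    have h2 := Real.log_le_log (Real.exp_pos 3) (h1.trans hNr)
    rwa [Real.log_exp] at h2
  obtain ⟨x, hx⟩ : ∃ x : ℕ, x = N / 2 := ⟨_, rfl⟩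
  set S := (Finset.Icc 1 x).filter (fun m => ¬ Pool.Agent.W93.GB.Good ε (2 * m)) with hS
  have h1 := hN0 N (by omega) x (fun m => 2 * m) (by
      intro m hm
      have := Finset.mem_Icc.1 hm
      exact ⟨by omega, Dvd.intro m rfl⟩) (by
      have h2 := Pool.Agent.W276.Link.energy_le x
      have h3 : (Pool.Agent.H560R3.GB.energy 1 x (fun m => 2 * m) : ℝ) ≤ x := by exact_mod_cast h2
      have h4 : (N : ℝ) ≤ 3 * x := by
        have : N ≤ 3 * x := by omega
        exact_mod_cast this
      have hx0 : (0 : ℝ) ≤ x := Nat.cast_nonneg _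
      rw [pow_one]
      calc (Pool.Agent.H560R3.GB.energy 1 x (fun m => 2 * m) : ℝ) * N ≤ x * (3 * x) := by
            apply mul_le_mul h3 h4 hNpos.le hx0
        _ = 3 * (x : ℝ) ^ (2 * 1) := by ring
        _ ≤ _ := mul_le_mul_of_nonneg_right hlog (by positivity)) S (Finset.filter_subset _ _) (by
      intro m hm
      exact (Finset.mem_filter.1 hm).2)
  rw [pow_one] at h1
  have h2 : (cnt {n : ℕ | Even n ∧
    ¬ |(rep Set.univ n : ℝ) - Pool.Agent.H560R3.GB.HL n| ≤ ε * Pool.Agent.H560R3.GB.HL n} N : ℝ) ≤ S.card := by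
    have h3 : cnt {n : ℕ | Even n ∧
        ¬ |(rep Set.univ n : ℝ) - Pool.Agent.H560R3.GB.HL n| ≤ ε * Pool.Agent.H560R3.GB.HL n} N ≤ S.card := by
      rw [cnt_eq]
      apply card_le_card_of_injOn (fun n => n / 2)
      · intro n hn
        rw [mem_coe, mem_cntS] at hn
        obtain ⟨⟨h3, h4⟩, h5, h6⟩ := hn
        obtain ⟨k, hk⟩ := h5
        rw [mem_coe, hS, mem_filter, mem_Icc]
        have h7 : n / 2 = k := by omega
        simp only
        rw [h7]
        refine ⟨⟨by omega, by omega⟩, ?_⟩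
        intro hg
        apply h6
        have h8 : 2 * k = n := by omega
        rw [h8] at hg
        have h9 := hg.1
        rwa [g_eq] at h9
      · intro n hn n' hn' hnn
        rw [mem_coe, mem_cntS] at hn hn'
        obtain ⟨_, ⟨k, hk⟩, _⟩ := hn
        obtain ⟨_, ⟨k', hk'⟩, _⟩ := hn'
        have e1 : n / 2 = n' / 2 := hnn
        omega
    exact_mod_cast h3
  have hxN : (x : ℝ) ≤ N := by exact_mod_cast (by omega : x ≤ N)
  calc (cnt {n : ℕ | Even n ∧
    ¬ |(rep Set.univ n : ℝ) - Pool.Agent.H560R3.GB.HL n| ≤ ε * Pool.Agent.H560R3.GB.HL n} N : ℝ) / N ≤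
        (x / Real.log N) / N := div_le_div_of_nonneg_right (h2.trans h1) hNpos.le
    _ ≤ (N / Real.log N) / N := by
        apply div_le_div_of_nonneg_right _ hNpos.le
        exact div_le_div_of_nonneg_right hxN (by linarith)
    _ = 1 / Real.log N := by field_simp

end Pool.Agent.TH881.RG
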