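import Mathlib
import Pool.Agent.TH881.RG.Eq
import Pool.Agent.TH811.J1509
import Pool.Agent.TH698.J1510
import Pool.Agent.TH364.J1815
import Pool.Agent.TH986.J1816

/-! Deleting a proportion of the primes: the theorem. -/

set_option autoImplicit false

namespace Pool.Agent.TH881.RG
open Finset Filter Topology
open Pool.Agent.TH881
open Pool.Agent.H373R2.T7

theorem stPC : StPC := fun w ε ρ hε hρ => Pool.Agent.TH811.J1509.primes_class w ε ρ hε hρ

theorem stBil : StBil := fun ε ρ hε hρ => Pool.Agent.TH698.RGE.bilinear stPC ε ρ hε hρ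

theorem stEq : StEq := Pool.Agent.TH364.J1815.classes_equal stPC stBil

lemma cnt_union_le (S T : Set ℕ) (x : ℕ) : cnt (S ∪ T) x ≤ cnt S x + cnt T x := by
  classical
  rw [cnt_eq, cnt_eq, cnt_eq]
  refine (card_le_card ?_).trans (card_union_le _ _)
  intro n hn
  rw [mem_cntS] at hn
  rw [mem_union, mem_cntS, mem_cntS]
  rcases hn.2 with h | h
  · exact Or.inl ⟨hn.1, h⟩
  · exact Or.inr ⟨hn.1, h⟩

/-- a set of density zero does not matter -/
lemma upper_le_of_null {S S' T : Set ℕ} (h : S ⊆ S' ∪ T)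
    (hT : Tendsto (fun x : ℕ => (cnt T x : ℝ) / x) atTop (𝓝 0)) : upperDensity S ≤ upperDensity S' := by
  apply le_of_forall_pos_le_add
  intro ε hε
  apply limsup_le_of_le (ratio_bdd_below S).isCoboundedUnder_le
  have h1 : upperDensity S' < upperDensity S' + ε / 2 := by linarith
  have h2 := eventually_lt_of_limsup_lt h1 (ratio_bdd_above S')
  have h3 := hT.eventually (gt_mem_nhds (show (0 : ℝ) < ε / 2 by positivity))
  filter_upwards [h2, h3] with x h4 h5
  have h6 : (cnt S x : ℝ) ≤ cnt S' x + cnt T x := by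
    exact_mod_cast (cnt_subset h x).trans (cnt_union_le S' T x)
  calc (cnt S x : ℝ) / x ≤ (cnt S' x + cnt T x) / x := div_le_div_of_nonneg_right h6 (Nat.cast_nonneg _)
    _ = (cnt S' x : ℝ) / x + (cnt T x : ℝ) / x := add_div _ _ _
    _ ≤ _ := by linarith

/-- deleted primes, with the value predicted by Hardy and Littlewood -/
theorem deleted_upper_HL (κ δ : ℝ) (hκ0 : 0 ≤ κ) (hκ1 : κ < 1) (hδ : 0 < δ) :
    ∃ η0 : ℝ, 0 < η0 ∧ ∀ η : ℝ, 0 < η → η ≤ η0 → ∀ A : Set ℕ, 1 - η ≤ relLower A →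
    upperDensity {n | Even n ∧ (rep A n : ℝ) ≤ κ * Pool.Agent.H560R3.GB.HL n} ≤
      Real.exp (-Real.exp (((1 - κ) * (C2 * Real.exp (-Real.eulerMascheroniConstant)) - δ) / η)) := by
  obtain ⟨ε, hε⟩ : ∃ ε : ℝ, ε = min (δ / 8) (min ((1 - κ) / 4) (1 / 2)) := ⟨_, rfl⟩
  have hκ' : 0 < 1 - κ := by linarith
  have hε0 : 0 < ε := by rw [hε]; positivity
  have hε1 : ε ≤ δ / 8 := by rw [hε]; exact min_le_left _ _
  have hε2 : ε ≤ (1 - κ) / 4 := by rw [hε]; exact (min_le_right _ _).trans (min_le_left _ _)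
  have hε3 : ε ≤ 1 / 2 := by rw [hε]; exact (min_le_right _ _).trans (min_le_right _ _)
  -- κ/(1-ε) ≤ κ + 2 ε
  have hk : κ ≤ (κ + 2 * ε) * (1 - ε) := by nlinarith
  obtain ⟨η0, hη0, hup⟩ := deleted_upper stPC stBil (κ + 2 * ε) (δ / 2) (by linarith) (by linarith) (by positivity)
  refine ⟨η0, hη0, ?_⟩
  intro η hη hηle A hA
  have h1 := hup η hη hηle A hA
  refine (upper_le_of_null ?_ (hl_almost ε hε0)).trans (h1.trans ?_)
  · intro n hn
    by_cases hg : |(rep Set.univ n : ℝ) - Pool.Agent.H560R3.GB.HL n| ≤ ε * Pool.Agent.H560R3.GB.HL n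
    · left
      refine ⟨hn.1, ?_⟩
      have h2 := (abs_le.1 hg).1
      have h3 : (rep A n : ℝ) ≤ κ * Pool.Agent.H560R3.GB.HL n := hn.2
      have hHL : 0 ≤ Pool.Agent.H560R3.GB.HL n := by
        have := (abs_nonneg _).trans hg
        by_contra hcon
        push Not at hcon
        nlinarith
      calc (rep A n : ℝ) ≤ κ * Pool.Agent.H560R3.GB.HL n := h3
        _ ≤ (κ + 2 * ε) * (1 - ε) * Pool.Agent.H560R3.GB.HL n := mul_le_mul_of_nonneg_right hk hHL
        _ = (κ + 2 * ε) * ((1 - ε) * Pool.Agent.H560R3.GB.HL n) := by ring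
        _ ≤ (κ + 2 * ε) * rep Set.univ n := mul_le_mul_of_nonneg_left (by linarith) (by linarith)
    · right
      exact ⟨hn.1, hg⟩
  · apply Real.exp_le_exp.2
    apply neg_le_neg
    apply Real.exp_le_exp.2
    apply div_le_div_of_nonneg_right _ hη.le
    have hD := D_le
    have hD0 := D_pos
    have h4 : 2 * ε * (C2 * Real.exp (-Real.eulerMascheroniConstant)) ≤ 2 * ε :=
      mul_le_of_le_one_right (by positivity) hD
    linarith

/-- **deleted primes** -/
theorem deleted_primes (κ δ : ℝ) (hκ0 : 0 ≤ κ) (hκ1 : κ < 1) (hδ : 0 < δ) :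
    ∃ η0 : ℝ, 0 < η0 ∧ ∀ η : ℝ, 0 < η → η ≤ η0 →
    (∀ A : Set ℕ, 1 - η ≤ relLower A →
      upperDensity {n | Even n ∧ (rep A n : ℝ) ≤ κ * Pool.Agent.H560R3.GB.HL n} ≤
        Real.exp (-Real.exp (((1 - κ) * (C2 * Real.exp (-Real.eulerMascheroniConstant)) - δ) / η))) ∧
    ∃ A : Set ℕ, 1 - η ≤ relLower A ∧
      Real.exp (-Real.exp (((1 - κ) * (C2 * Real.exp (-Real.eulerMascheroniConstant)) + δ) / η)) ≤
        lowerDensity {n | Even n ∧ (rep A n : ℝ) ≤ κ * Pool.Agent.H560R3.GB.HL n} := by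
  obtain ⟨η1, h1, hu⟩ := deleted_upper_HL κ δ hκ0 hκ1 hδ
  obtain ⟨η2, h2, hl⟩ := Pool.Agent.TH986.J1816.example_kappa stPC stEq κ δ hκ0 hκ1 hδ
  refine ⟨min η1 η2, by positivity, ?_⟩
  intro η hη hηle
  exact ⟨hu η hη (hηle.trans (min_le_left _ _)), hl η hη (hηle.trans (min_le_right _ _))⟩

end Pool.Agent.TH881.RG
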