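import Mathlib
import Pool.Agent.TH881.RG.R3
import Pool.Agent.TH881.RG.FzD

/-! One restricted summand: the upper bound for the exceptional density. -/

set_option autoImplicit false

namespace Pool.Agent.TH881.RG
open Finset Filter Topology
open Pool.Agent.TH881
open Pool.Agent.H373R2.T7

/-- the finite window theorem for one restricted summand -/
theorem finite_window1 (hPC : StPC) (hBil : StBil) (δ : ℝ) (hδ : 0 < δ) :
    ∃ h0 : ℝ, 0 < h0 ∧ h0 < 1 / 16 ∧ ∀ h : ℝ, 0 < h → h ≤ h0 → ∀ ρ : ℝ, 0 < ρ →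
    ∃ N0 : ℕ, ∀ N : ℕ, N0 ≤ N → ∀ M H : ℕ, M + H ≤ N → ρ * N ≤ H → ρ * N ≤ M →
    ∀ A : Set ℕ, ∀ E ⊆ Ioc M (M + H), (∀ n ∈ E, Even n ∧ n ∉ oneSum A) → 2 * h * H ≤ E.card →
    2 * (C2 * Real.exp (-Real.eulerMascheroniConstant)) - δ ≤
      Real.log (Real.log (1 / h)) * (((BN A N M).card : ℝ) * Real.log M / M) := by
  classical
  obtain ⟨h0, hh0, hh16, hloc⟩ := local_thm stMI stMB stWL (δ / 2) (by positivity)
  obtain ⟨c, hc0, hWL⟩ := stWL
  refine ⟨h0, hh0, hh16, ?_⟩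
  intro h hh hhh0
  obtain ⟨u, hu⟩ : ∃ u : ℝ, u = min δ 1 / 200 := ⟨_, rfl⟩
  have hu0 : 0 < u := by rw [hu]; positivity
  have huδ : u ≤ δ / 200 := by
    rw [hu]
    exact div_le_div_of_nonneg_right (min_le_left _ _) (by norm_num)
  have hu1 : u ≤ 1 / 200 := by
    rw [hu]
    exact div_le_div_of_nonneg_right (min_le_right _ _) (by norm_num)
  obtain ⟨K, hK⟩ : ∃ K : ℝ, K = c * h ^ 2 := ⟨_, rfl⟩
  have hK0 : 0 < K := by rw [hK]; positivity
  obtain ⟨ε, hε⟩ : ∃ ε : ℝ, ε = u * min K 1 := ⟨_, rfl⟩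
  have hε0 : 0 < ε := by rw [hε]; positivity
  have hεu : ε ≤ u := by
    rw [hε]
    exact mul_le_of_le_one_right hu0.le (min_le_right _ _)
  have hεK : ε / K ≤ u := by
    rw [div_le_iff₀ hK0, hε]
    exact mul_le_mul_of_nonneg_left (min_le_left _ _) hu0.le
  intro ρ hρ
  obtain ⟨w0, hw0⟩ := hBil ε ρ hε0 hρ
  obtain ⟨w, hw⟩ : ∃ w : ℕ, w = w0 + 2 := ⟨_, rfl⟩
  obtain ⟨N1, hN1⟩ := hw0 w (by omega)
  obtain ⟨N2, hN2⟩ := hPC w ε ρ hε0 hρ
  obtain ⟨N3, hN33, hN3⟩ := large_diff w ρ u ε hρ hu0 hε0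
  refine ⟨N1 + N2 + N3, ?_⟩
  intro N hN M H hMH hH hM A E hE hEA hEc
  obtain ⟨_, hWN, hρ4, hρ2, herr⟩ := hN3 N (by omega)
  have hHW : Wp w ≤ H := by
    have h3 : (Wp w : ℝ) ≤ H := by linarith
    exact_mod_cast h3
  have hM2 : 2 ≤ M := by
    have h3 : ((2 : ℕ) : ℝ) ≤ M := by push_cast; linarith
    exact_mod_cast h3
  have hH1 : 1 ≤ H := (Wp_pos w).trans_le hHW
  have hMN : M ≤ N := by omega
  -- the objects
  set e := eef w H E with he
  have he0 : ∀ t, 0 ≤ e t := eef_nonneg w H E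
  have he1 : ∀ t, e t ≤ 1 := eef_le_one w M H E hE
  have hez : ∀ t, wt w t = 0 → e t = 0 := fun t ht => eef_zero w H E (fun n hn => (hEA n hn).1) t ht
  have hes : h * Wp w ≤ ∑ t, e t := sum_eef w H h hh.le E hHW hEc
  obtain ⟨R, hR⟩ : ∃ R : ℝ, R = ∑ a ∈ UU w, rr w e a := ⟨_, rfl⟩
  have hR0 : 0 ≤ R := by
    rw [hR]
    exact sum_nonneg fun a _ => rr_nonneg he0 a
  have hφ : (0 : ℝ) < Nat.totient (Wp w) := totient_Wp_pos w
  have hW : (0 : ℝ) < Wp w := by exact_mod_cast Wp_pos w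
  obtain ⟨Φ, hΦ⟩ : ∃ Φ : ℝ, Φ = (Nat.totient (Wp w) : ℝ) ^ 2 := ⟨_, rfl⟩
  have hΦ0 : 0 < Φ := by rw [hΦ]; positivity
  have hKR : K * Φ ≤ R := by
    have h1 := hWL w (by omega) e he0 he1 hez
    have h2 : h ≤ (∑ t, e t) / Wp w := by
      rw [le_div_iff₀ hW]
      exact hes
    have h3 : h ^ 2 ≤ ((∑ t, e t) / Wp w) ^ 2 := pow_le_pow_left₀ hh.le h2 2
    have h4 : K ≤ (∑ t, e t * wt w t) / Nat.totient (Wp w) := by
      rw [hK]
      exact (mul_le_mul_of_nonneg_left h3 hc0.le).trans h1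
    rw [le_div_iff₀ hφ] at h4
    rw [hR, sum_rr, hΦ]
    calc K * (Nat.totient (Wp w) : ℝ) ^ 2 = Nat.totient (Wp w) * (K * Nat.totient (Wp w)) := by ring
      _ ≤ _ := mul_le_mul_of_nonneg_left h4 hφ.le
  -- the bilinear estimates
  have hPp : ∀ b ∈ PN N M, b.Prime ∧ √(N : ℝ) < b ∧ b ≤ M := by
    intro b hb
    rw [mem_PN] at hb
    exact ⟨hb.2.1, hb.2.2, hb.1⟩
  have hBP : BN A N M ⊆ PN N M := fun b hb => (mem_BN.1 hb).1
  have hb1 := hN1 N (by omega) M H hMH hH hM E hE (PN N M) hPp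
  have hb2 := hN1 N (by omega) M H hMH hH hM E hE (BN A N M) (fun b hb => hPp b (hBP hb))
  obtain ⟨Y, hY⟩ : ∃ Y : ℝ, Y = YY w M H := ⟨_, rfl⟩
  have hY0 : 0 < Y := by
    rw [hY]
    exact YY_pos w M H hM2 hH1
  rw [← hΦ, ← hY, abs_le] at hb1 hb2
  -- comparison of the two convolutions
  have hlM : 0 < Real.log M := Real.log_pos (by linarith)
  have hcmp : ∑ n ∈ E, cv (fun k => ArithmeticFunction.vonMangoldt k) (PN N M) n ≤
      ∑ n ∈ E, cv (fun k => ArithmeticFunction.vonMangoldt k) (BN A N M) n + ε * (Y * Φ) := by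
    have h1 : ∀ n ∈ E, cv (fun k => ArithmeticFunction.vonMangoldt k) (PN N M) n ≤
        cv (fun k => ArithmeticFunction.vonMangoldt k) (BN A N M) n + 2 * √(N : ℝ) * Real.log N := by
      intro n hn
      have hn1 := mem_Ioc.1 (hE hn)
      rw [cv_split _ (PN N M) n (fun b => b ∉ A)]
      apply add_le_add
      · unfold BN
        apply le_of_eq
        congr 1
      · apply cv_not_hit _ N n (by omega) (by omega)
        rintro ⟨b, hb, p, hp, hbp⟩
        rw [mem_filter, mem_PN, not_not] at hb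
        exact (hEA n hn).2 ⟨b, p, ⟨hb.1.2.1, hb.2⟩, hp, hbp⟩
    have h2 := sum_le_sum h1
    rw [sum_add_distrib, sum_const, nsmul_eq_mul] at h2
    have h3 : (E.card : ℝ) * (2 * √(N : ℝ) * Real.log N) ≤ ε * (Y * Φ) := by
      have h4 : (E.card : ℝ) ≤ H := by
        have h5 := card_le_card hE
        rw [Nat.card_Ioc] at h5
        exact_mod_cast (by omega : E.card ≤ H)
      have h6 : Y * Φ = (H : ℝ) * M / Real.log M := by
        rw [hY, hΦ]
        exact YY_phi w M H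
      have h7 : (ρ * N) / Real.log N ≤ M / Real.log M := by
        apply div_le_div₀ (Nat.cast_nonneg _) (by linarith) hlM
        apply Real.log_le_log (by linarith)
        exact_mod_cast (by omega : M ≤ N)
      have h8 : 0 ≤ 2 * √(N : ℝ) * Real.log N := by
        have := Real.log_natCast_nonneg N
        positivity
      calc (E.card : ℝ) * (2 * √(N : ℝ) * Real.log N) ≤ H * (ε * ((ρ * N) / Real.log N)) :=
            mul_le_mul h4 herr h8 (Nat.cast_nonneg _)
        _ ≤ H * (ε * (M / Real.log M)) := by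
            apply mul_le_mul_of_nonneg_left _ (Nat.cast_nonneg _)
            exact mul_le_mul_of_nonneg_left h7 hε0.le
        _ = ε * ((H : ℝ) * M / Real.log M) := by ring
        _ = _ := by rw [h6]
    linarith
  -- classes
  have hbP : ∀ a ∈ UU w, |bbf w M (PN N M) a - 1| ≤ ε := by
    intro a ha
    exact hN2 N (by omega) M hMN hM a (mem_UU.1 ha)
  obtain ⟨β, hβ⟩ : ∃ β : ZMod (Wp w) → ℝ, β = fun a => min (bbf w M (BN A N M) a) 1 := ⟨_, rfl⟩
  have hβ0 : ∀ a, 0 ≤ β a := by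
    intro a
    rw [hβ]
    exact le_min (bbf_nonneg _ _ _ _) zero_le_one
  have hβ1 : ∀ a, β a ≤ 1 := by
    intro a
    rw [hβ]
    exact min_le_right _ _
  obtain ⟨SB, hSBd⟩ : ∃ S : ℝ, S = ∑ a ∈ UU w, bbf w M (BN A N M) a * rr w e a := ⟨_, rfl⟩
  obtain ⟨SP, hSPd⟩ : ∃ S : ℝ, S = ∑ a ∈ UU w, bbf w M (PN N M) a * rr w e a := ⟨_, rfl⟩
  obtain ⟨Lam, hLam⟩ : ∃ S : ℝ, S = ∑ a ∈ UU w, β a * rr w e a := ⟨_, rfl⟩
  rw [← hSPd] at hb1
  rw [← hSBd] at hb2
  have hSB : SB ≤ Lam + ε * R := by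
    rw [hSBd, hLam, hR, mul_sum, ← sum_add_distrib]
    apply sum_le_sum
    intro a ha
    have h1 := bbf_mono w M hBP a
    have h2 := abs_le.1 (hbP a ha)
    have h3 : bbf w M (BN A N M) a ≤ β a + ε := by
      rw [hβ]
      simp only
      rcases le_total (bbf w M (BN A N M) a) 1 with h4 | h4
      · rw [min_eq_left h4]
        linarith
      · rw [min_eq_right h4]
        linarith
    have h4 := rr_nonneg he0 a
    nlinarith
  have hSP : (1 - ε) * R ≤ SP := by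
    rw [hSPd, hR, mul_sum]
    apply sum_le_sum
    intro a ha
    have h2 := abs_le.1 (hbP a ha)
    exact mul_le_mul_of_nonneg_right (by linarith) (rr_nonneg he0 a)
  have hfin : (1 - 10 * u) * R ≤ Lam := by
    have h1 : Y * SP ≤ Y * (SB + 3 * (ε * Φ)) := by
      have h2 : Y * (SB + 3 * (ε * Φ)) = Y * SB + 3 * (ε * (Y * Φ)) := by ring
      rw [h2]
      linarith [hb1.1, hb2.2]
    have h3 := le_of_mul_le_mul_left h1 hY0
    have h4 : ε * Φ ≤ u * R := by
      calc ε * Φ = ε / K * (K * Φ) := by field_simp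
        _ ≤ u * R := mul_le_mul hεK hKR (by positivity) hu0.le
    have h5 : ε * R ≤ u * R := mul_le_mul_of_nonneg_right hεu hR0
    have h6 : 0 ≤ u * R := by positivity
    linarith
  have happ := hloc h hh hhh0 w (by omega) e he0 he1 hez hes β hβ0 hβ1 (1 - 10 * u) (by linarith) (by linarith) (by
    rw [← hLam, ← hR]
    exact hfin)
  have hll : 0 ≤ Real.log (Real.log (1 / h)) := by
    apply Real.log_nonneg
    have h1 : (16 : ℝ) ≤ 1 / h := by
      rw [le_div_iff₀ hh]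
      linarith
    have h2 : Real.exp 1 ≤ 1 / h := by
      have := Real.exp_one_lt_d9
      linarith
    have h3 := Real.log_le_log (Real.exp_pos _) h2
    rwa [Real.log_exp] at h3
  have hs1 : ∑ a ∈ UU w, β a ≤ Nat.totient (Wp w) * (((BN A N M).card : ℝ) * Real.log M / M) := by
    refine le_trans ?_ (sum_bbf w M (BN A N M))
    apply sum_le_sum
    intro a _
    rw [hβ]
    exact min_le_left _ _
  have h2 : ((1 - 10 * u) * (2 * C2 * Real.exp (-Real.eulerMascheroniConstant)) - δ / 2) * Nat.totient (Wp w) ≤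
      (Real.log (Real.log (1 / h)) * (((BN A N M).card : ℝ) * Real.log M / M)) * Nat.totient (Wp w) := by
    refine happ.trans ?_
    calc Real.log (Real.log (1 / h)) * ∑ a ∈ UU w, β a
      ≤ Real.log (Real.log (1 / h)) * (Nat.totient (Wp w) * (((BN A N M).card : ℝ) * Real.log M / M)) :=
          mul_le_mul_of_nonneg_left hs1 hll
      _ = _ := by ring
  have h3 := le_of_mul_le_mul_right h2 hφ
  refine le_trans ?_ h3
  have h5 := D_pos
  have h6 := D_le
  have h8 : 20 * u * (C2 * Real.exp (-Real.eulerMascheroniConstant)) ≤ 20 * u :=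
    mul_le_of_le_one_right (by positivity) h6
  calc 2 * (C2 * Real.exp (-Real.eulerMascheroniConstant)) - δ ≤
      2 * (C2 * Real.exp (-Real.eulerMascheroniConstant)) - 20 * u * (C2 * Real.exp (-Real.eulerMascheroniConstant)) - δ / 2 := by
        linarith
    _ = _ := by ring

/-- one restricted summand: the upper bound -/
theorem one_upper (hPC : StPC) (hBil : StBil) (δ : ℝ) (hδ : 0 < δ) :
    ∃ η0 : ℝ, 0 < η0 ∧ ∀ η : ℝ, 0 < η → η ≤ η0 → ∀ A : Set ℕ, 1 - η ≤ relLower A →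
    upperDensity {n | Even n ∧ n ∉ oneSum A} ≤
      Real.exp (-Real.exp ((2 * (C2 * Real.exp (-Real.eulerMascheroniConstant)) - δ) / η)) := by
  apply final_upper hPC (2 * (C2 * Real.exp (-Real.eulerMascheroniConstant))) (by have := D_pos; positivity)
    (fun A => {n | Even n ∧ n ∉ oneSum A}) _ δ hδ
  intro δ hδ
  obtain ⟨h0, hh0, hh16, hfw⟩ := finite_window1 hPC hBil δ hδ
  refine ⟨h0, hh0, by linarith, ?_⟩
  intro h hh hhle A hfreq η' hη'
  obtain ⟨M0, hM0⟩ := hη'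
  obtain ⟨N0, hN0⟩ := hfw (h / 16) (by positivity) (by linarith) (h / 32) (by positivity)
  obtain ⟨x0, hx0⟩ := exists_window {n | Even n ∧ n ∉ oneSum A} h (h / 8) hh (by linarith) (by positivity) le_rfl
  obtain ⟨x1, hx1⟩ := exists_nat_ge (16 / h)
  obtain ⟨x2, hx2⟩ := exists_nat_ge (8 * (M0 + 2) / h)
  obtain ⟨x, hxc, hxg⟩ := (hfreq.and_eventually (eventually_ge_atTop (N0 + x0 + x1 + x2 + M0 + 1))).exists
  obtain ⟨M, H, hH1, hH2, hM1', hM2, hcard⟩ := hx0 x (by omega) hxc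
  have hxr : (0 : ℝ) < x := by exact_mod_cast (by omega : 0 < x)
  have hhx : 16 ≤ h * x := by
    have h1 : (x1 : ℝ) ≤ x := by exact_mod_cast (by omega : x1 ≤ x)
    have h2 := hx1.trans h1
    rw [div_le_iff₀ hh] at h2
    linarith
  have hhx2 : 8 * ((M0 : ℝ) + 2) ≤ h * x := by
    have h1 : (x2 : ℝ) ≤ x := by exact_mod_cast (by omega : x2 ≤ x)
    have h2 := hx2.trans h1
    rw [div_le_iff₀ hh] at h2
    linarith
  have hHx : H ≤ x := by
    have h1 : (H : ℝ) ≤ x := by nlinarith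
    exact_mod_cast h1
  have hM0M : M0 ≤ M := by
    have hM0r : (0 : ℝ) ≤ M0 := Nat.cast_nonneg _
    have h1 : (M0 : ℝ) ≤ M := by linarith
    exact_mod_cast h1
  have hHr : (0 : ℝ) ≤ H := Nat.cast_nonneg _
  have hhH : h / 8 * (H : ℝ) ≤ h / 2 * H := mul_le_mul_of_nonneg_right (by linarith) hHr
  have hres := hN0 (2 * x) (by omega) M H (by omega) (by push_cast; linarith) (by push_cast; linarith) A
    (win {n | Even n ∧ n ∉ oneSum A} M H) (win_subset _ M H) (by
      intro n hn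
      rw [mem_win] at hn
      exact hn.2) (by linarith)
  have h2 := hM0 M hM0M (2 * x)
  have e2 : (1 : ℝ) / (h / 16) = 16 / h := by
    field_simp
  rw [e2] at hres
  have hll : 0 ≤ Real.log (Real.log (16 / h)) := by
    apply Real.log_nonneg
    have h1 : (16 : ℝ) ≤ 16 / h := by
      rw [le_div_iff₀ hh]
      linarith
    have h2 : Real.exp 1 ≤ 16 / h := by
      have := Real.exp_one_lt_d9
      linarith
    have h3 := Real.log_le_log (Real.exp_pos _) h2
    rwa [Real.log_exp] at h3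
  exact hres.trans (mul_le_mul_of_nonneg_left h2 hll)

end Pool.Agent.TH881.RG
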