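import Mathlib
import Pool.Agent.TH881.RG.R1a
import Pool.Agent.TH111.J2027
import Pool.Agent.TH81.J2026

/-! One restricted summand: the exact formula. -/

set_option autoImplicit false

namespace Pool.Agent.TH881.RG
open Finset Filter Topology
open Pool.Agent.TH881
open Pool.Agent.H373R2.T7

lemma exists_window2 (S : Set ℕ) (h τ θ : ℝ) (hτ : 0 < τ) (hτh : τ < h) (hh1 : h ≤ 1) (hθ : 0 < θ) (hθh : θ ≤ τ / 4) :
    ∃ x0 : ℕ, ∀ x : ℕ, x0 ≤ x → h * x ≤ cnt S x → ∃ M H : ℕ, (H : ℝ) ≤ θ * x ∧ θ * x - 1 ≤ H ∧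
      τ / 4 * x - 1 ≤ M ∧ M ≤ x ∧ (h - τ) * H ≤ (win S M H).card := by
  obtain ⟨x0, hx0⟩ := exists_nat_ge (1 / θ)
  refine ⟨x0 + 1, ?_⟩
  intro x hx hcnt
  have hxr : (1 : ℝ) ≤ x := by exact_mod_cast (by omega : 1 ≤ x)
  have hx0' : (0 : ℝ) < x := by linarith
  have hθx : 1 ≤ θ * x := by
    have h1 : (x0 : ℝ) ≤ x := by exact_mod_cast (by omega : x0 ≤ x)
    have h2 := hx0.trans h1
    rw [div_le_iff₀ hθ] at h2
    linarith
  obtain ⟨H, hH⟩ : ∃ H : ℕ, H = ⌊θ * x⌋₊ := ⟨_, rfl⟩
  obtain ⟨M0, hM0⟩ : ∃ M0 : ℕ, M0 = ⌊τ / 4 * x⌋₊ := ⟨_, rfl⟩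
  have hH1 : (H : ℝ) ≤ θ * x := by
    rw [hH]
    exact Nat.floor_le (by positivity)
  have hH2 : θ * x - 1 ≤ H := by
    rw [hH]
    exact (Nat.sub_one_lt_floor _).le
  have hH3 : 1 ≤ H := by
    rw [hH]
    exact Nat.le_floor (by push_cast; linarith)
  have hM1 : (M0 : ℝ) ≤ τ / 4 * x := by
    rw [hM0]
    exact Nat.floor_le (by positivity)
  have hM2 : τ / 4 * x - 1 ≤ M0 := by
    rw [hM0]
    exact (Nat.sub_one_lt_floor _).le
  have hM0x : M0 ≤ x := by
    have h1 : (M0 : ℝ) ≤ x := by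
      have : τ / 4 * (x : ℝ) ≤ 1 * x := mul_le_mul_of_nonneg_right (by linarith) hx0'.le
      linarith
    exact_mod_cast h1
  by_contra hcon
  push Not at hcon
  have hind : ∀ j : ℕ, M0 + j * H ≤ x + H → (cnt S (M0 + j * H) : ℝ) ≤ M0 + j * ((h - τ) * H) := by
    intro j
    induction j with
    | zero =>
      intro _
      have h1 : (cnt S M0 : ℝ) ≤ M0 := by exact_mod_cast cnt_le S M0
      simpa using h1
    | succ j ih =>
      intro hj
      have e1 : M0 + (j + 1) * H = (M0 + j * H) + H := by ring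
      rw [e1] at hj ⊢
      have h1 := ih (by omega)
      have h2 : M0 + j * H ≤ x := by omega
      have h3 := hcon (M0 + j * H) H hH1 hH2 (by
        push_cast
        have : (0 : ℝ) ≤ (j : ℝ) * H := by positivity
        linarith) h2
      rw [cnt_add]
      push_cast at h3 ⊢
      linarith
  obtain ⟨j, hj⟩ : ∃ j : ℕ, j = (x - M0) / H + 1 := ⟨_, rfl⟩
  have hdiv1 : (x - M0) / H * H ≤ x - M0 := Nat.div_mul_le_self _ _
  have hdiv2 : x - M0 < ((x - M0) / H + 1) * H := by
    have h1 := Nat.lt_div_mul_add (a := x - M0) (b := H) hH3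
    have h2 : ((x - M0) / H + 1) * H = (x - M0) / H * H + H := by ring
    omega
  have hj1 : j * H = (x - M0) / H * H + H := by rw [hj]; ring
  have h1 := hind j (by omega)
  have h2 : x ≤ M0 + j * H := by rw [hj]; omega
  have h3 : (cnt S x : ℝ) ≤ cnt S (M0 + j * H) := by exact_mod_cast cnt_mono S h2
  have h4 : (j : ℝ) * H ≤ x + H := by
    have h5 : j * H ≤ x + H := by omega
    exact_mod_cast h5
  have h5 : (j : ℝ) * ((h - τ) * H) ≤ (h - τ) * (x + H) := by
    calc (j : ℝ) * ((h - τ) * H) = (h - τ) * (j * H) := by ring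
      _ ≤ _ := mul_le_mul_of_nonneg_left h4 (by linarith)
  have h6 : θ * (x : ℝ) ≤ τ / 4 * x := mul_le_mul_of_nonneg_right hθh hx0'.le
  have h7 : (h - τ) * (H : ℝ) ≤ 1 * H := mul_le_mul_of_nonneg_right (by linarith) (Nat.cast_nonneg _)
  have h8 : 0 < τ * (x : ℝ) := by positivity
  nlinarith

lemma cnt_compl (S : Set ℕ) (x : ℕ) : cnt S x + cnt Sᶜ x = x := by
  classical
  have h1 : (cntS S x).card + (cntS Sᶜ x).card = (Icc 1 x).card := by
    rw [← card_union_of_disjoint]
    · congr 1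
      ext n
      rw [mem_union, mem_cntS, mem_cntS, mem_Icc]
      constructor
      · rintro (h | h)
        · exact h.1
        · exact h.1
      · intro h
        by_cases hn : n ∈ S
        · exact Or.inl ⟨h, hn⟩
        · exact Or.inr ⟨h, hn⟩
    · rw [Finset.disjoint_left]
      intro n h1 h2
      rw [mem_cntS] at h1 h2
      exact h2.2 h1.2
  rw [cnt_eq, cnt_eq, h1, Nat.card_Icc]
  omega

/-- the elements of `A` among the primes in `(√N, M]` -/
noncomputable def AN (A : Set ℕ) (N M : ℕ) : Finset ℕ := PN N M \ BN A N M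

lemma mem_AN {A : Set ℕ} {N M p : ℕ} : p ∈ AN A N M ↔ (p ≤ M ∧ p.Prime ∧ √(N : ℝ) < p) ∧ p ∈ A := by
  unfold AN
  rw [Finset.mem_sdiff, mem_BN, mem_PN]
  constructor
  · rintro ⟨h1, h2⟩
    refine ⟨h1, ?_⟩
    by_contra h3
    exact h2 ⟨h1, h3⟩
  · rintro ⟨h1, h2⟩
    exact ⟨h1, fun h3 => h3.2 h2⟩

/-- a sum over the units of the number of primes in the classes -/
lemma sum_cls_units (w : ℕ) (B : Finset ℕ) (hB : ∀ b ∈ B, IsUnit (b : ZMod (Wp w))) :
    ∑ t ∈ UU w, ((cls w B t).card : ℝ) = B.card := by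
  rw [← sum_cls w B]
  apply sum_subset (subset_univ _)
  intro t _ ht
  have h1 : cls w B t = ∅ := by
    rw [Finset.eq_empty_iff_forall_notMem]
    intro n hn
    rw [mem_cls] at hn
    apply ht
    rw [mem_UU, ← hn.2]
    exact hB n hn.1
  rw [h1]
  simp

lemma prime_unit (w N b : ℕ) (hw : (w : ℝ) ≤ √(N : ℝ)) (hb : b.Prime) (hbN : √(N : ℝ) < b) :
    IsUnit (b : ZMod (Wp w)) := by
  rw [ZMod.isUnit_iff_coprime, Nat.Prime.coprime_iff_not_dvd hb, prime_dvd_Wp hb]
  intro h3
  have h4 : (b : ℝ) ≤ w := by exact_mod_cast h3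
  linarith

/-- the lower bound for the density of `A + P` -/
theorem ff_lower (β : ℝ) (hβ : 0 < β) (hβ1 : β < 1) (A : Set ℕ) (hA : β ≤ relLower A) :
    Floc β ≤ lowerDensity (oneSum A) := by
  classical
  by_contra hcon
  push Not at hcon
  obtain ⟨d, hd⟩ : ∃ d : ℝ, d = lowerDensity (oneSum A) := ⟨_, rfl⟩
  rw [← hd] at hcon
  have hd0 : 0 ≤ d := by rw [hd]; exact lowerDensity_nonneg _
  have hF1 : Floc β ≤ 1 := by
    apply csInf_le
    · refine ⟨0, ?_⟩
      rintro x ⟨w, B, _, _, rfl⟩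
      positivity
    · refine ⟨0, UU 0, Finset.Subset.refl _, ?_, ?_⟩
      · rw [card_UU]
        have := totient_Wp_pos 0
        nlinarith
      · have hW0 : Wp 0 = 1 := by
          unfold Wp
          apply prod_eq_one
          intro p hp
          rw [mem_pz] at hp
          exact absurd hp.2.pos (by omega)
        have hsub : Subsingleton (ZMod (Wp 0)) := by
          rw [hW0]
          infer_instance
        have hs : sums 0 (UU 0) = univ := by
          rw [Finset.eq_univ_iff_forall]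
          intro t
          unfold sums
          rw [mem_filter]
          refine ⟨mem_univ _, 1, ?_, ?_⟩
          · rw [mem_UU]
            exact isUnit_one
          · rw [Subsingleton.elim (t - 1) 1]
            exact isUnit_one
        rw [hs, card_univ, ZMod.card, hW0]
        norm_num
  obtain ⟨τ, hτ⟩ : ∃ τ : ℝ, τ = (Floc β - d) / 8 := ⟨_, rfl⟩
  have hτ0 : 0 < τ := by rw [hτ]; linarith
  have hτ1 : 8 * τ ≤ 1 - d := by rw [hτ]; linarith
  obtain ⟨ε1, hε1, w1, hcont⟩ := Pool.Agent.TH111.J2027.floc_cont β τ hβ hβ1 hτ0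
  obtain ⟨κ, hκd⟩ : ∃ κ : ℝ, κ = min (ε1 / 4) (1 / 4) := ⟨_, rfl⟩
  have hκ0 : 0 < κ := by rw [hκd]; positivity
  have hκ1 : κ ≤ ε1 / 4 := by rw [hκd]; exact min_le_left _ _
  have hκ2 : κ ≤ 1 / 4 := by rw [hκd]; exact min_le_right _ _
  obtain ⟨θ, hθ⟩ : ∃ θ : ℝ, θ = τ / 4 := ⟨_, rfl⟩
  have hθ0 : 0 < θ := by rw [hθ]; positivity
  obtain ⟨ε2, hε2⟩ : ∃ ε2 : ℝ, ε2 = min τ (1 / 2) := ⟨_, rfl⟩
  have hε20 : 0 < ε2 := by rw [hε2]; positivity
  have hε21 : ε2 ≤ τ := by rw [hε2]; exact min_le_left _ _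
  have hε22 : ε2 ≤ 1 / 2 := by rw [hε2]; exact min_le_right _ _
  obtain ⟨w0, hmix⟩ := mix stPM κ ε2 (θ / 4) hκ0 (by linarith) hε20 (by linarith) (by positivity)
  obtain ⟨w, hw⟩ : ∃ w : ℕ, w = w0 + w1 + 2 := ⟨_, rfl⟩
  obtain ⟨N1, hN1⟩ := hmix w (by omega)
  obtain ⟨N2, hN2⟩ := stPC w κ (θ / 4) hκ0 (by positivity)
  obtain ⟨N3, hN33, hN3⟩ := large_diff w (θ / 4) 1 (κ / (4 * Nat.totient (Wp w))) (by positivity) one_pos
    (by have := totient_Wp_pos w; positivity)
  obtain ⟨M1, hM1⟩ := missing stPC A (1 - β) κ (by linarith) hκ0 (by linarith)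
  obtain ⟨x0, hx0⟩ := exists_window2 (oneSum A)ᶜ (1 - d - τ) τ θ hτ0 (by linarith) (by linarith) hθ0 (by rw [hθ])
  obtain ⟨x1, hx1⟩ := exists_nat_ge ((4 * (M1 + 2) + (Wp w : ℝ) + (w : ℝ) ^ 2) / (τ * θ))
  have hfreq := frequently_of_lt (A := oneSum A) (c := d + τ) (by rw [← hd]; linarith)
  obtain ⟨x, hxc, hxg⟩ := (hfreq.and_eventually (eventually_ge_atTop (N1 + N2 + N3 + x0 + x1 + w ^ 2 + 1))).exists
  have hxr : (1 : ℝ) ≤ x := by exact_mod_cast (by omega : 1 ≤ x)
  have hcnt : (1 - d - τ) * x ≤ cnt (oneSum A)ᶜ x := by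
    have h1 : (cnt (oneSum A) x : ℝ) + cnt (oneSum A)ᶜ x = x := by exact_mod_cast cnt_compl (oneSum A) x
    linarith
  obtain ⟨M, H, hH1, hH2, hM1', hM2, hcard⟩ := hx0 x (by omega) hcnt
  have hx0r : (0 : ℝ) < x := by linarith
  have hbig : 4 * ((M1 : ℝ) + 2) + (Wp w : ℝ) + (w : ℝ) ^ 2 ≤ τ * θ * x := by
    have h1 : (x1 : ℝ) ≤ x := by exact_mod_cast (by omega : x1 ≤ x)
    have h2 := hx1.trans h1
    rw [div_le_iff₀ (by positivity)] at h2
    linarith
  have hM1r : (0 : ℝ) ≤ M1 := Nat.cast_nonneg _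
  have hW1 : (1 : ℝ) ≤ Wp w := by exact_mod_cast Wp_pos w
  have hW : (0 : ℝ) < Wp w := by linarith
  have hw2 : (0 : ℝ) ≤ (w : ℝ) ^ 2 := by positivity
  have hτ8 : τ ≤ 1 / 8 := by linarith
  have hθ32 : θ ≤ 1 / 32 := by rw [hθ]; linarith
  have hττ : τ * θ * x ≤ τ / 32 * x := by
    apply mul_le_mul_of_nonneg_right _ hx0r.le
    nlinarith
  have hθθ : τ * θ * x ≤ θ / 8 * x := by
    apply mul_le_mul_of_nonneg_right _ hx0r.le
    nlinarith
  have hMM1 : M1 ≤ M := by
    have h1 : (M1 : ℝ) ≤ M := by linarith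
    exact_mod_cast h1
  have hWH : (Wp w : ℝ) ≤ τ * H := by
    have h1 : τ * (θ * x - 1) ≤ τ * H := mul_le_mul_of_nonneg_left hH2 hτ0.le
    linarith
  have hHx : H ≤ x := by
    have h1 : (H : ℝ) ≤ x := by nlinarith
    exact_mod_cast h1
  obtain ⟨N, hN⟩ : ∃ N : ℕ, N = 2 * x := ⟨_, rfl⟩
  have hNr : (N : ℝ) = 2 * x := by rw [hN]; push_cast; ring
  have hρH : θ / 4 * N ≤ H := by rw [hNr]; linarith
  have hρM : θ / 4 * N ≤ M := by rw [hNr, hθ]; linarith
  have hMHN : M + H ≤ N := by omega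
  obtain ⟨_, _, hρ4, _, herr⟩ := hN3 N (by omega)
  have hM2' : 2 ≤ M := by
    have h1 : ((2 : ℕ) : ℝ) ≤ M := by push_cast; linarith
    exact_mod_cast h1
  have hH1' : 1 ≤ H := by
    have h1 : ((1 : ℕ) : ℝ) ≤ H := by push_cast; linarith
    exact_mod_cast h1
  have hH0r : (0 : ℝ) < H := by exact_mod_cast hH1'
  have hlM : 0 < Real.log M := Real.log_pos (by exact_mod_cast (by omega : 1 < M))
  have hpp := pp_pos w M hM2'
  have hφ : (0 : ℝ) < Nat.totient (Wp w) := totient_Wp_pos w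
  have hwN : (w : ℝ) ≤ √(N : ℝ) := by
    apply Real.le_sqrt_of_sq_le
    have h1 : w ^ 2 ≤ N := by omega
    exact_mod_cast h1
  have hP : ∀ a ∈ UU w, |bbf w M (PN N M) a - 1| ≤ κ := by
    intro a ha
    exact hN2 N (by omega) M (by omega) hρM a (mem_UU.1 ha)
  have hAP : AN A N M ⊆ PN N M := by
    intro p hp
    rw [mem_AN] at hp
    rw [mem_PN]
    exact hp.1
  -- the number of primes of `A`
  have hφpp : (Nat.totient (Wp w) : ℝ) * pp w M = M / Real.log M := by
    unfold pp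
    field_simp
  have hunit : ∀ b ∈ PN N M, IsUnit (b : ZMod (Wp w)) := by
    intro b hb
    rw [mem_PN] at hb
    exact prime_unit w N b hwN hb.2.1 hb.2.2
  have hANc : (Nat.totient (Wp w) : ℝ) * pp w M * (β - 2 * κ) ≤ (AN A N M).card := by
    have h1 : ((AN A N M).card : ℝ) + (BN A N M).card = (PN N M).card := by
      have h2 : (AN A N M).card + (BN A N M).card = (PN N M).card := by
        unfold AN
        exact card_sdiff_add_card_eq_card (fun b hb => (mem_BN.1 hb).1)
      exact_mod_cast h2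
    have h2 : (Nat.totient (Wp w) : ℝ) * ((1 - κ) * pp w M) ≤ (PN N M).card := by
      rw [← sum_cls_units w (PN N M) hunit, ← card_UU, ← nsmul_eq_mul, ← sum_const]
      apply sum_le_sum
      intro a ha
      have h3 := (abs_le.1 (hP a ha)).1
      have h4 : 1 - κ ≤ bbf w M (PN N M) a := by linarith
      unfold bbf at h4
      rwa [le_div_iff₀ hpp] at h4
    have h3 := hM1 M hMM1 N
    have h4 : ((BN A N M).card : ℝ) ≤ (1 - β + κ) * (Nat.totient (Wp w) * pp w M) := by
      rw [hφpp]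
      rw [div_le_iff₀ (by positivity)] at h3
      rw [← mul_div_assoc, le_div_iff₀ hlM]
      exact h3
    nlinarith
  -- the classes with many primes of `A`
  obtain ⟨B, hB⟩ : ∃ B : Finset (ZMod (Wp w)), B = (UU w).filter (fun a => κ ≤ bbf w M (AN A N M) a) := ⟨_, rfl⟩
  have hBU : B ⊆ UU w := by rw [hB]; exact filter_subset _ _
  have hBc : (β - ε1) * Nat.totient (Wp w) ≤ B.card := by
    have h1 : ((AN A N M).card : ℝ) ≤ pp w M * ((1 + κ) * B.card + κ * Nat.totient (Wp w)) := by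
      rw [← sum_cls_units w (AN A N M) (fun b hb => hunit b (hAP hb)),
        ← sum_filter_add_sum_filter_not (UU w) (fun a => κ ≤ bbf w M (AN A N M) a), ← hB, mul_add]
      apply add_le_add
      · have h2 : pp w M * ((1 + κ) * B.card) = ∑ a ∈ B, (1 + κ) * pp w M := by
          rw [sum_const, nsmul_eq_mul]
          ring
        rw [h2]
        apply sum_le_sum
        intro a ha
        have h3 := (abs_le.1 (hP a (hBU ha))).2
        have h4 : bbf w M (PN N M) a ≤ 1 + κ := by linarith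
        have h5 : ((cls w (AN A N M) a).card : ℝ) ≤ (cls w (PN N M) a).card := by
          exact_mod_cast card_le_card (cls_mono hAP a)
        unfold bbf at h4
        rw [div_le_iff₀ hpp] at h4
        exact h5.trans h4
      · calc ∑ a ∈ (UU w).filter (fun a => ¬ κ ≤ bbf w M (AN A N M) a), ((cls w (AN A N M) a).card : ℝ)
            ≤ ∑ a ∈ (UU w).filter (fun a => ¬ κ ≤ bbf w M (AN A N M) a), κ * pp w M := by
              apply sum_le_sum
              intro a ha
              rw [mem_filter, not_le] at ha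
              have h3 := ha.2
              unfold bbf at h3
              rw [div_lt_iff₀ hpp] at h3
              exact h3.le
          _ ≤ ∑ a ∈ UU w, κ * pp w M := by
              apply sum_le_sum_of_subset_of_nonneg (filter_subset _ _)
              intro _ _ _
              positivity
          _ = _ := by
              rw [sum_const, nsmul_eq_mul, card_UU]
              ring
    have h2 : pp w M * (Nat.totient (Wp w) * (β - 2 * κ)) ≤ pp w M * ((1 + κ) * B.card + κ * Nat.totient (Wp w)) := by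
      calc pp w M * (Nat.totient (Wp w) * (β - 2 * κ)) = (Nat.totient (Wp w) : ℝ) * pp w M * (β - 2 * κ) := by ring
        _ ≤ _ := hANc.trans h1
    have h3 := le_of_mul_le_mul_left h2 hpp
    have h4 : (1 + κ) * ((β - ε1) * Nat.totient (Wp w)) ≤ (1 + κ) * B.card := by
      have h5 : (1 + κ) * (β - ε1) ≤ β - 3 * κ := by nlinarith
      have h6 : (1 + κ) * (β - ε1) * Nat.totient (Wp w) ≤ (β - 3 * κ) * Nat.totient (Wp w) :=
        mul_le_mul_of_nonneg_right h5 hφ.le
      linarith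
    exact le_of_mul_le_mul_left h4 (by linarith)
  have hF := hcont w (by omega) B hBU hBc
  -- the classes in `sums w B` contain few elements of the window
  obtain ⟨E, hE⟩ : ∃ E : Finset ℕ, E = win (oneSum A)ᶜ M H := ⟨_, rfl⟩
  rw [← hE] at hcard
  have hEsub : E ⊆ Ioc M (M + H) := by rw [hE]; exact win_subset _ M H
  have hEno : ∀ n ∈ E, n ∉ oneSum A := by
    intro n hn
    rw [hE, mem_win] at hn
    exact hn.2
  have hfew : ∀ t ∈ sums w B, ((cls w E t).card : ℝ) ≤ 2 * ε2 * ((H : ℝ) / Wp w) := by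
    intro t ht
    unfold sums at ht
    rw [mem_filter] at ht
    obtain ⟨_, a, haB, hta⟩ := ht
    obtain ⟨t', ht1, ht2, ht3⟩ := exists_rep w M t
    have haB' : a ∈ UU w ∧ κ ≤ bbf w M (AN A N M) a := by
      rw [hB, mem_filter] at haB
      exact haB
    obtain ⟨C, hC⟩ : ∃ C : Finset ℕ, C = cls w (AN A N M) a := ⟨_, rfl⟩
    have hCm : ∀ b ∈ C, (b ≤ M ∧ b.Prime ∧ √(N : ℝ) < b) ∧ b ∈ A ∧ (b : ZMod (Wp w)) = a := by
      intro b hb
      rw [hC, mem_cls, mem_AN] at hb
      exact ⟨hb.1.1, hb.1.2, hb.2⟩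
    have hCc : κ * pp w M ≤ C.card := by
      have h1 := haB'.2
      unfold bbf at h1
      rw [le_div_iff₀ hpp, ← hC] at h1
      exact h1
    have hm := hN1 N (by omega) M H t' ht1 ht2 hMHN hρH hρM C (fun b hb => (hCm b hb).1.1)
      (fun b hb => (hCm b hb).1.2.1) (fun b hb => (hCm b hb).1.2.2)
      (fun b hb b' hb' => by rw [← ZMod.natCast_eq_natCast_iff, (hCm b hb).2.2, (hCm b' hb').2.2])
      (fun b hb => by
        rw [← ZMod.isUnit_iff_coprime, Nat.cast_sub (by have := (hCm b hb).1.1; omega), ht3, (hCm b hb).2.2]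
        exact hta) hCc (cls w E t) (by
        intro n hn
        rw [mem_cls] at hn
        unfold It
        rw [mem_filter]
        refine ⟨hEsub hn.1, ?_⟩
        rw [← ZMod.natCast_eq_natCast_iff, hn.2, ht3])
    have hsmall : ∑ n ∈ cls w E t, cv (fun k => ArithmeticFunction.vonMangoldt k) C n ≤
        (cls w E t).card * (2 * √(N : ℝ) * Real.log N) := by
      rw [← nsmul_eq_mul, ← sum_const]
      apply sum_le_sum
      intro n hn
      rw [mem_cls] at hn
      have h1 := mem_Ioc.1 (hEsub hn.1)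
      apply cv_not_hit _ N n (by omega) (by omega)
      rintro ⟨b, hb, p, hp, hbp⟩
      exact hEno n hn.1 ⟨b, p, ⟨(hCm b hb).1.2.1, (hCm b hb).2.1⟩, hp, hbp⟩
    have hv1 : 1 ≤ (Vz w)⁻¹ := (one_le_inv₀ (Vz_pos w)).2 (Vz_le_one w)
    have herr2 : 2 * √(N : ℝ) * Real.log N ≤ 1 / 4 * ((Vz w)⁻¹ * C.card) := by
      have h7 : (θ / 4 * N) / Real.log N ≤ M / Real.log M := by
        apply div_le_div₀ (Nat.cast_nonneg _) (by linarith) hlM
        apply Real.log_le_log (by linarith)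
        exact_mod_cast (by omega : M ≤ N)
      calc 2 * √(N : ℝ) * Real.log N ≤ κ / (4 * Nat.totient (Wp w)) * ((θ / 4 * N) / Real.log N) := herr
        _ ≤ κ / (4 * Nat.totient (Wp w)) * (M / Real.log M) := mul_le_mul_of_nonneg_left h7 (by positivity)
        _ = 1 / 4 * (κ * pp w M) := by
            unfold pp
            field_simp
        _ ≤ 1 / 4 * C.card := by linarith
        _ ≤ _ := by
            apply mul_le_mul_of_nonneg_left _ (by norm_num)
            exact le_mul_of_one_le_left (Nat.cast_nonneg _) hv1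
    have hC0 : (0 : ℝ) < C.card := lt_of_lt_of_le (by positivity) hCc
    have hvC : 0 < (Vz w)⁻¹ * (C.card : ℝ) := by
      have := Vz_pos w
      positivity
    have h1 := (abs_le.1 hm).1
    have h2 : ((cls w E t).card : ℝ) * (2 * √(N : ℝ) * Real.log N) ≤
        (cls w E t).card * (1 / 4 * ((Vz w)⁻¹ * C.card)) := mul_le_mul_of_nonneg_left herr2 (Nat.cast_nonneg _)
    have h3 : ((cls w E t).card : ℝ) * ((Vz w)⁻¹ * C.card) ≤ (2 * ε2 * ((H : ℝ) / Wp w)) * ((Vz w)⁻¹ * C.card) := by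
      have h4 : 0 ≤ ε2 * (((H : ℝ) / Wp w) * ((Vz w)⁻¹ * C.card)) := by positivity
      nlinarith
    exact le_of_mul_le_mul_right h3 hvC
  -- conclusion
  have hs1 : (((sums w B).card : ℕ) : ℝ) ≤ Wp w := by
    have h1 : (sums w B).card ≤ Wp w := by
      have := card_le_univ (sums w B)
      rwa [ZMod.card] at this
    exact_mod_cast h1
  have hEc : (E.card : ℝ) ≤ 2 * ε2 * H + (H - (sums w B).card / Wp w * H) + Wp w := by
    rw [← sum_cls w E, ← sum_filter_add_sum_filter_not univ (fun t => t ∈ sums w B)]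
    have h1 : ∑ t ∈ univ.filter (fun t => t ∈ sums w B), ((cls w E t).card : ℝ) ≤ 2 * ε2 * H := by
      calc ∑ t ∈ univ.filter (fun t => t ∈ sums w B), ((cls w E t).card : ℝ)
          ≤ ∑ t ∈ univ.filter (fun t => t ∈ sums w B), 2 * ε2 * ((H : ℝ) / Wp w) := by
            apply sum_le_sum
            intro t ht
            rw [mem_filter] at ht
            exact hfew t ht.2
        _ = (sums w B).card * (2 * ε2 * ((H : ℝ) / Wp w)) := by
            rw [sum_const, nsmul_eq_mul, filter_mem_eq_inter, univ_inter]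
        _ ≤ Wp w * (2 * ε2 * ((H : ℝ) / Wp w)) := mul_le_mul_of_nonneg_right hs1 (by positivity)
        _ = 2 * ε2 * H := by field_simp
    have h2 : ∑ t ∈ univ.filter (fun t => ¬ t ∈ sums w B), ((cls w E t).card : ℝ) ≤
        (H - (sums w B).card / Wp w * H) + Wp w := by
      have hcc : (((univ.filter (fun t => ¬ t ∈ sums w B)).card : ℕ) : ℝ) = Wp w - (sums w B).card := by
        have h3 := card_filter_add_card_filter_not (s := (univ : Finset (ZMod (Wp w)))) (fun t => t ∈ sums w B)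
        rw [filter_mem_eq_inter, univ_inter, card_univ, ZMod.card] at h3
        have h4 : (((sums w B).card : ℕ) : ℝ) + ((univ.filter (fun t => ¬ t ∈ sums w B)).card : ℕ) = Wp w := by
          exact_mod_cast h3
        linarith
      calc ∑ t ∈ univ.filter (fun t => ¬ t ∈ sums w B), ((cls w E t).card : ℝ)
          ≤ ∑ t ∈ univ.filter (fun t => ¬ t ∈ sums w B), ((H : ℝ) / Wp w + 1) := by
            apply sum_le_sum
            intro t _
            exact cls_card_le w M H E hEsub t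
        _ = (Wp w - (sums w B).card) * ((H : ℝ) / Wp w + 1) := by
            rw [sum_const, nsmul_eq_mul, hcc]
        _ = (H - (sums w B).card / Wp w * H) + (Wp w - (sums w B).card) := by field_simp
        _ ≤ _ := by
            have : (0 : ℝ) ≤ (sums w B).card := Nat.cast_nonneg _
            linarith
    linarith
  have hfin : (1 - d - τ - τ) * H ≤ (1 - (sums w B).card / Wp w + 3 * τ) * H := by
    have h1 : 2 * ε2 * (H : ℝ) ≤ 2 * τ * H := mul_le_mul_of_nonneg_right (by linarith) hH0r.le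
    linarith
  have hfin2 := le_of_mul_le_mul_right hfin hH0r
  rw [hτ] at hF hfin2
  linarith

end Pool.Agent.TH881.RG
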