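import Mathlib
import Pool.Agent.TH881.RG.R3
import Pool.Agent.TH881.RG.FzD
import Pool.Agent.TH828.J2025
import Pool.Agent.TH720.J2024
import Pool.Agent.TH626.J2029

/-! Differences of two primes of a set of relative density close to one. -/

set_option autoImplicit false

namespace Pool.Agent.TH881.RG
open Finset Filter Topology
open Pool.Agent.TH881
open Pool.Agent.H373R2.T7

theorem stBD : StBD := Pool.Agent.TH720.J2024.bilinearD stPC

theorem stBD2 : StBD2 := Pool.Agent.TH828.RGBD2.bilinearD2 stPC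

/-- **differences of the remaining primes** -/
theorem differences (δ : ℝ) (hδ : 0 < δ) :
    ∃ η0 : ℝ, 0 < η0 ∧ ∀ η : ℝ, 0 < η → η ≤ η0 →
    (∀ A : Set ℕ, 1 - η ≤ relLower A → upperDensity (nodiff A) ≤
      Real.exp (-Real.exp ((2 * (C2 * Real.exp (-Real.eulerMascheroniConstant)) - δ) / η))) ∧
    ∃ A : Set ℕ, 1 - η ≤ relLower A ∧
      Real.exp (-Real.exp ((2 * (C2 * Real.exp (-Real.eulerMascheroniConstant)) + δ) / η)) ≤
        lowerDensity (nodiff A) := by
  obtain ⟨η1, h1, hu⟩ := diff_upper stPC stBD stBD2 δ hδ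
  obtain ⟨η2, h2, hl⟩ := Pool.Agent.TH626.J2029.example_diff stPC δ hδ
  refine ⟨min η1 η2, by positivity, ?_⟩
  intro η hη hηle
  exact ⟨hu η hη (hηle.trans (min_le_left _ _)), hl η hη (hηle.trans (min_le_right _ _))⟩

end Pool.Agent.TH881.RG
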