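import Mathlib
import Pool.Agent.TH881.RG.R1b
import Pool.Agent.TH126.J2028

/-! One restricted summand: the function `FF`. -/

set_option autoImplicit false

namespace Pool.Agent.TH881.RG
open Finset Filter Topology
open Pool.Agent.TH881
open Pool.Agent.H373R2.T7

lemma relLower_univ : relLower Set.univ = 1 := by
  have h1 : ∀ᶠ n : ℕ in atTop, (cnt {p | p.Prime ∧ p ∈ Set.univ} n : ℝ) / (cnt {p | p.Prime} n : ℝ) = 1 := by
    filter_upwards [eventually_ge_atTop 2] with n hn
    have h2 : {p : ℕ | p.Prime ∧ p ∈ Set.univ} = {p | p.Prime} := by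
      ext p
      constructor
      · exact fun h => h.1
      · exact fun h => ⟨h, Set.mem_univ p⟩
    rw [h2]
    have h3 : 0 < cnt {p | p.Prime} n := by
      rw [cnt_eq]
      apply card_pos.2
      refine ⟨2, ?_⟩
      rw [mem_cntS]
      exact ⟨⟨by norm_num, hn⟩, Nat.prime_two⟩
    have h4 : (0 : ℝ) < cnt {p | p.Prime} n := by exact_mod_cast h3
    exact div_self h4.ne'
  unfold relLower
  rw [liminf_congr h1]
  exact liminf_const 1

lemma FF_bdd (β : ℝ) : BddBelow {d | ∃ A : Set ℕ, β ≤ relLower A ∧ d = lowerDensity (oneSum A)} := by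
  refine ⟨0, ?_⟩
  rintro x ⟨A, _, rfl⟩
  exact lowerDensity_nonneg _

lemma FF_le {β : ℝ} {A : Set ℕ} (h : β ≤ relLower A) : FF β ≤ lowerDensity (oneSum A) :=
  csInf_le (FF_bdd β) ⟨A, h, rfl⟩

lemma le_FF {β c : ℝ} (hβ : β ≤ 1) (h : ∀ A : Set ℕ, β ≤ relLower A → c ≤ lowerDensity (oneSum A)) : c ≤ FF β := by
  apply le_csInf
  · exact ⟨lowerDensity (oneSum Set.univ), Set.univ, by rw [relLower_univ]; exact hβ, rfl⟩
  · rintro x ⟨A, hA, rfl⟩
    exact h A hA

/-- **the exact formula** -/
theorem FF_eq (β : ℝ) (hβ : 0 < β) (hβ1 : β < 1) : FF β = Floc β := by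
  apply le_antisymm
  · apply le_csInf
    · refine ⟨_, 2, UU 2, Finset.Subset.refl _, ?_, rfl⟩
      rw [card_UU]
      have := totient_Wp_pos 2
      nlinarith
    · rintro x ⟨w, B, hB, hBc, rfl⟩
      rcases Nat.lt_or_ge w 2 with hw | hw
      · -- the modulus is one
        have hW0 : Wp w = 1 := by
          unfold Wp
          apply prod_eq_one
          intro p hp
          rw [mem_pz] at hp
          have := hp.2.two_le
          omega
        have hsub : Subsingleton (ZMod (Wp w)) := by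
          rw [hW0]
          infer_instance
        have hBne : B.Nonempty := by
          rw [← card_pos]
          have h1 := totient_Wp_pos w
          have h2 : (0 : ℝ) < B.card := lt_of_lt_of_le (by positivity) hBc
          exact_mod_cast h2
        obtain ⟨b, hb⟩ := hBne
        have hs : sums w B = univ := by
          rw [Finset.eq_univ_iff_forall]
          intro t
          unfold sums
          rw [mem_filter]
          refine ⟨mem_univ _, b, hb, ?_⟩
          rw [Subsingleton.elim (t - b) 1]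
          exact isUnit_one
        rw [hs, card_univ, ZMod.card, hW0]
        refine (FF_le (A := Set.univ) (by rw [relLower_univ]; exact hβ1.le)).trans ?_
        refine (lowerDensity_le_one _).trans ?_
        norm_num
      · obtain ⟨A, hA1, hA2⟩ := Pool.Agent.TH81.J2026.ff_class stPC w hw B hB
        refine (FF_le (le_trans ?_ hA1)).trans hA2
        rw [le_div_iff₀ (totient_Wp_pos w)]
        exact hBc
  · exact le_FF hβ1.le fun A hA => ff_lower β hβ hβ1 A hA

lemma cnt_even (x : ℕ) : (x : ℝ) / 2 - 1 ≤ cnt {n | Even n} x := by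
  have h1 : x / 2 ≤ cnt {n | Even n} x := by
    rw [cnt_eq]
    have h2 : (Icc 1 (x / 2)).card ≤ (cntS {n | Even n} x).card := by
      apply card_le_card_of_injOn (fun k => 2 * k)
      · intro k hk
        rw [mem_coe, mem_Icc] at hk
        rw [mem_coe, mem_cntS]
        have e1 : 1 ≤ 2 * k ∧ 2 * k ≤ x := by omega
        exact ⟨e1, even_two_mul k⟩
      · intro a _ b _ hab
        have e1 : 2 * a = 2 * b := hab
        omega
    rw [Nat.card_Icc] at h2
    omega
  have h2 : (x : ℝ) / 2 - 1 ≤ (x / 2 : ℕ) := by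
    have h3 : x ≤ 2 * (x / 2) + 2 := by omega
    have h4 : (x : ℝ) ≤ 2 * (x / 2 : ℕ) + 2 := by exact_mod_cast h3
    linarith
  exact h2.trans (by exact_mod_cast h1)

/-- the density of the missing even numbers -/
lemma lower_of_upper (T : Set ℕ) : 1 / 2 - upperDensity {n | Even n ∧ n ∉ T} ≤ lowerDensity T := by
  apply le_of_forall_pos_le_add
  intro ε hε
  obtain ⟨U, hU⟩ : ∃ U : ℝ, U = upperDensity {n | Even n ∧ n ∉ T} := ⟨_, rfl⟩
  have h1 : upperDensity {n | Even n ∧ n ∉ T} < U + ε / 2 := by rw [hU]; linarith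
  have h2 := eventually_lt_of_limsup_lt h1 (ratio_bdd_above _)
  obtain ⟨K, hK⟩ := exists_nat_ge (2 / ε)
  have h3 : 1 / 2 - U - ε ≤ lowerDensity T := by
    apply le_of_eventually
    filter_upwards [h2, eventually_ge_atTop (K + 1)] with x h4 h5
    have hx : (0 : ℝ) < x := by exact_mod_cast (by omega : 0 < x)
    rw [div_lt_iff₀ hx] at h4
    have h6 : (cnt {n | Even n} x : ℝ) ≤ cnt {n | Even n ∧ n ∉ T} x + cnt T x := by
      have h7 : {n : ℕ | Even n} ⊆ {n | Even n ∧ n ∉ T} ∪ T := by
        intro n hn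
        by_cases h : n ∈ T
        · exact Or.inr h
        · exact Or.inl ⟨hn, h⟩
      exact_mod_cast (cnt_subset h7 x).trans (cnt_union_le _ _ x)
    have h8 := cnt_even x
    have h9 : 2 ≤ ε * x := by
      have h10 : (K : ℝ) ≤ x := by exact_mod_cast (by omega : K ≤ x)
      have h11 := hK.trans h10
      rw [div_le_iff₀ hε] at h11
      linarith
    nlinarith
  rw [← hU]
  linarith

/-- **the asymptotics at one** -/
theorem FF_asymp : Tendsto (fun β : ℝ => (1 - β) * Real.log (Real.log (1 / (1 / 2 - FF β)))) (𝓝[<] 1)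
    (𝓝 (2 * (C2 * Real.exp (-Real.eulerMascheroniConstant)))) := by
  rw [Metric.tendsto_nhds]
  intro δ hδ
  obtain ⟨η1, hη1, hu⟩ := one_upper stPC stBil (δ / 2) (by positivity)
  obtain ⟨η2, hη2, hl⟩ := Pool.Agent.TH126.J2028.example_one
    (fun w hw B hB => Pool.Agent.TH81.J2026.ff_class stPC w hw B hB) (δ / 2) (by positivity)
  have hD := D_pos
  have hη3 : 0 < min (min η1 η2) 1 := by positivity
  have hmem : Set.Ioo (1 - min (min η1 η2) 1) 1 ∈ 𝓝[<] (1 : ℝ) := by
    apply Ioo_mem_nhdsLT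
    linarith
  filter_upwards [hmem] with β hβ
  obtain ⟨h1, h2⟩ := hβ
  obtain ⟨η, hη⟩ : ∃ η : ℝ, η = 1 - β := ⟨_, rfl⟩
  have hη0 : 0 < η := by rw [hη]; linarith
  have hηle : η < min (min η1 η2) 1 := by rw [hη]; linarith
  have hηle1 : η ≤ η1 := hηle.le.trans ((min_le_left _ _).trans (min_le_left _ _))
  have hηle2 : η ≤ η2 := hηle.le.trans ((min_le_left _ _).trans (min_le_right _ _))
  have hβη : β = 1 - η := by rw [hη]; ring
  obtain ⟨D, hDd⟩ : ∃ D : ℝ, D = 2 * (C2 * Real.exp (-Real.eulerMascheroniConstant)) := ⟨_, rfl⟩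
  rw [← hDd] at hu hl ⊢
  -- upper bound for 1/2 - FF
  have hup : 1 / 2 - FF β ≤ Real.exp (-Real.exp ((D - δ / 2) / η)) := by
    have h3 : 1 / 2 - Real.exp (-Real.exp ((D - δ / 2) / η)) ≤ FF β := by
      apply le_FF h2.le
      intro A hA
      rw [hβη] at hA
      have h4 := hu η hη0 hηle1 A hA
      have h5 := lower_of_upper (oneSum A)
      linarith
    linarith
  have hlow : Real.exp (-Real.exp ((D + δ / 2) / η)) ≤ 1 / 2 - FF β := by
    obtain ⟨A, hA1, hA2⟩ := hl η hη0 hηle2
    have h3 : FF β ≤ lowerDensity (oneSum A) := FF_le (by rw [hβη]; exact hA1)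
    linarith
  have hpos : 0 < 1 / 2 - FF β := lt_of_lt_of_le (Real.exp_pos _) hlow
  have hlog1 : Real.log (1 / (1 / 2 - FF β)) ≤ Real.exp ((D + δ / 2) / η) := by
    rw [one_div, Real.log_inv]
    have h3 := Real.log_le_log (Real.exp_pos _) hlow
    rw [Real.log_exp] at h3
    linarith
  have hlog2 : Real.exp ((D - δ / 2) / η) ≤ Real.log (1 / (1 / 2 - FF β)) := by
    rw [one_div, Real.log_inv]
    have h3 := Real.log_le_log hpos hup
    rw [Real.log_exp] at h3
    linarith
  have hlogpos : 0 < Real.log (1 / (1 / 2 - FF β)) := lt_of_lt_of_le (Real.exp_pos _) hlog2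
  have hll1 : Real.log (Real.log (1 / (1 / 2 - FF β))) ≤ (D + δ / 2) / η := by
    have h3 := Real.log_le_log hlogpos hlog1
    rwa [Real.log_exp] at h3
  have hll2 : (D - δ / 2) / η ≤ Real.log (Real.log (1 / (1 / 2 - FF β))) := by
    have h3 := Real.log_le_log (Real.exp_pos _) hlog2
    rwa [Real.log_exp] at h3
  rw [← hη, Real.dist_eq, abs_lt]
  rw [le_div_iff₀ hη0] at hll1
  rw [div_le_iff₀ hη0] at hll2
  constructor
  · linarith
  · linarith

end Pool.Agent.TH881.RG
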